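import Pool.Agent.R588.S.RO
import Pool.Agent.Helper669.KA2
import Pool.Agent.Helper669.KA3
import Pool.Agent.Helper669.KDelta

/-!
# Cohen conditions with values in a given type
-/

set_option autoImplicit false

namespace Pool.Agent.U66

open Cardinal Set Pool.Agent.Helper669.Forcing Pool.Agent.Helper669.K Pool.Agent.R588.S

/-- functions from subsets of `L` of size less than `κ` to `T` -/
@[ext] structure Fn (κ : Cardinal.{0}) (L T : Type) : Type where
  f : L → Option T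
  small : #{l | f l ≠ none} < κ

variable {κ : Cardinal.{0}} {L T : Type}

instance : Preorder (Fn κ L T) where
  le p q := ∀ l b, q.f l = some b → p.f l = some b
  le_refl _ _ _ h := h
  le_trans _ _ _ h h' l b hb := h l b (h' l b hb)

theorem Fn.le_def {p q : Fn κ L T} : p ≤ q ↔ ∀ l b, q.f l = some b → p.f l = some b := Iff.rfl

/-- the support -/
def Fn.supp (p : Fn κ L T) : Set L := {l | p.f l ≠ none}

theorem Fn.mem_supp {p : Fn κ L T} {l : L} : l ∈ p.supp ↔ ∃ b, p.f l = some b := by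
  unfold Fn.supp
  rw [Set.mem_ofPred_eq]
  exact Option.ne_none_iff_exists'

theorem Fn.not_mem_supp {p : Fn κ L T} {l : L} : l ∉ p.supp ↔ p.f l = none := by
  unfold Fn.supp
  rw [Set.mem_ofPred_eq, not_not]

theorem Fn.supp_mono {p q : Fn κ L T} (h : p ≤ q) : q.supp ⊆ p.supp := by
  intro l hl
  obtain ⟨b, hb⟩ := Fn.mem_supp.1 hl
  exact Fn.mem_supp.2 ⟨b, h l b hb⟩

theorem Fn.eq_of_le {p q : Fn κ L T} (h : p ≤ q) {l : L} (hl : l ∈ q.supp) : p.f l = q.f l := by
  obtain ⟨b, hb⟩ := Fn.mem_supp.1 hl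
  rw [hb, h l b hb]

/-- build a condition from a function with small support -/
def Fn.mk' (g : L → Option T) (Z : Set L) (hZ : #Z < κ) (hg : ∀ l, g l ≠ none → l ∈ Z) :
    Fn κ L T :=
  ⟨g, (Cardinal.mk_le_mk_of_subset (fun l hl => hg l hl)).trans_lt hZ⟩

theorem union_lt (hκ : ℵ₀ ≤ κ) {X : Type} {A B : Set X} (hA : #A < κ) (hB : #B < κ) :
    #(A ∪ B : Set X) < κ :=
  (Cardinal.mk_union_le A B).trans_lt (Cardinal.add_lt_of_lt hκ hA hB)

/-- replace the values of `q` by those of `p` on `Z` -/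
theorem exists_splice (hκ : ℵ₀ ≤ κ) (Z : Set L) (p q : Fn κ L T) : ∃ r : Fn κ L T,
    (∀ l ∈ Z, r.f l = p.f l) ∧ ∀ l ∉ Z, r.f l = q.f l := by
  classical
  refine ⟨Fn.mk' (fun l => if l ∈ Z then p.f l else q.f l) (p.supp ∪ q.supp)
    (union_lt hκ p.small q.small) ?_, ?_, ?_⟩
  · intro l hl
    by_cases h : l ∈ Z
    · rw [if_pos h] at hl
      exact Or.inl hl
    · rw [if_neg h] at hl
      exact Or.inr hl
  · intro l hl
    exact if_pos hl
  · intro l hl
    exact if_neg hl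

/-- add the values of `g` where `p` has none -/
theorem exists_add (hκ : ℵ₀ ≤ κ) (p : Fn κ L T) (g : L → Option T) (Z : Set L) (hZ : #Z < κ)
    (hg : ∀ l, g l ≠ none → l ∈ Z) : ∃ r : Fn κ L T, r ≤ p ∧ ∀ l, p.f l = none → r.f l = g l := by
  classical
  refine ⟨Fn.mk' (fun l => if p.f l = none then g l else p.f l) (p.supp ∪ Z)
    (union_lt hκ p.small hZ) ?_, ?_, ?_⟩
  · intro l hl
    by_cases h : p.f l = none
    · rw [if_pos h] at hl
      exact Or.inr (hg l hl)
    · exact Or.inl h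
  · intro l b hb
    change (if p.f l = none then g l else p.f l) = some b
    rw [if_neg (by rw [hb]; simp)]
    exact hb
  · intro l hl
    exact if_pos hl

/-- replace the values on the small set `S` by those of `c` -/
noncomputable def ov (hκ : ℵ₀ ≤ κ) (S : Set L) (hS : #S < κ) (c : L → T) (q : Fn κ L T) :
    Fn κ L T :=
  open Classical in
  Fn.mk' (fun l => if l ∈ S then some (c l) else q.f l) (q.supp ∪ S) (union_lt hκ q.small hS) (by
    intro l hl
    by_cases h : l ∈ S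
    · exact Or.inr h
    · rw [if_neg h] at hl
      exact Or.inl hl)

theorem ov_pos {hκ : ℵ₀ ≤ κ} {S : Set L} {hS : #S < κ} {c : L → T} {q : Fn κ L T} {l : L}
    (h : l ∈ S) : (ov hκ S hS c q).f l = some (c l) := if_pos h

theorem ov_neg {hκ : ℵ₀ ≤ κ} {S : Set L} {hS : #S < κ} {c : L → T} {q : Fn κ L T} {l : L}
    (h : l ∉ S) : (ov hκ S hS c q).f l = q.f l := if_neg h

theorem ov_mono {hκ : ℵ₀ ≤ κ} {S : Set L} {hS : #S < κ} {c : L → T} {q q' : Fn κ L T}
    (h : q' ≤ q) : ov hκ S hS c q' ≤ ov hκ S hS c q := by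
  intro l b hb
  by_cases hl : l ∈ S
  · rw [ov_pos hl] at hb ⊢
    exact hb
  · rw [ov_neg hl] at hb ⊢
    exact h l b hb

theorem ov_congr {hκ : ℵ₀ ≤ κ} {S : Set L} {hS : #S < κ} {c c' : L → T} {q q' : Fn κ L T}
    (hc : ∀ l ∈ S, c l = c' l) (hq : ∀ l ∉ S, q.f l = q'.f l) :
    ov hκ S hS c q = ov hκ S hS c' q' := by
  apply Fn.ext
  funext l
  by_cases hl : l ∈ S
  · rw [ov_pos hl, ov_pos hl, hc l hl]
  · rw [ov_neg hl, ov_neg hl, hq l hl]

/-- unions of directed families -/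
theorem exists_union (hκ : κ.IsRegular) (D : Set (Fn κ L T)) (hD : #D < κ)
    (hdir : ∀ a ∈ D, ∀ b ∈ D, ∃ c ∈ D, c ≤ a ∧ c ≤ b) :
    ∃ q : Fn κ L T, (∀ d ∈ D, q ≤ d) ∧ ∀ l ∈ q.supp, ∃ d ∈ D, l ∈ d.supp := by
  classical
  have hsmall : #(⋃ d ∈ D, d.supp : Set L) < κ := by
    rw [Cardinal.card_biUnion_lt_iff_forall_of_isRegular hκ hD]
    intro d _
    exact d.small
  let g : L → Option T := fun l =>
    if h : ∃ d ∈ D, l ∈ d.supp then h.choose.f l else none
  have hg : ∀ d ∈ D, ∀ l b, d.f l = some b → g l = some b := by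
    intro d hd l b hb
    have h : ∃ d ∈ D, l ∈ d.supp := ⟨d, hd, Fn.mem_supp.2 ⟨b, hb⟩⟩
    simp only [g, dif_pos h]
    obtain ⟨c, -, h1, h2⟩ := hdir d hd _ h.choose_spec.1
    rw [← Fn.eq_of_le h2 h.choose_spec.2, h1 l b hb]
  have hg2 : ∀ l, g l ≠ none → ∃ d ∈ D, l ∈ d.supp := by
    intro l hl
    by_contra hcon
    simp only [g, dif_neg hcon] at hl
    exact hl rfl
  refine ⟨Fn.mk' g (⋃ d ∈ D, d.supp) hsmall ?_, fun d hd l b hb => hg d hd l b hb,
    fun l hl => hg2 l hl⟩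
  intro l hl
  obtain ⟨d, hd, hdl⟩ := hg2 l hl
  exact mem_biUnion hd hdl

theorem dirClosed_Fn (hκ : κ.IsRegular) : DirClosed κ (Fn κ L T) := by
  intro D hD _ hdir
  obtain ⟨q, hq, -⟩ := exists_union hκ D hD hdir
  exact ⟨q, hq⟩

theorem cc_Fn (hκ : κ.IsRegular) (h2 : ∀ μ < κ, 2 ^ μ < κ) (hT : #T ≤ κ) (ι : Type)
    (f : ι → Fn κ L T) (hι : κ < #ι) : ∃ i j, i ≠ j ∧ ∃ r, r ≤ f i ∧ r ≤ f j := by
  classical
  have hκ0 := hκ.aleph0_le
  obtain ⟨i, j, hij, h⟩ := exists_agree (L := L) (Z := T) hκ h2 hT hι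
    (fun E K' Z' hE hZ => Pool.Agent.Helper669.KDelta.weak_delta hκ0 hE Z' hZ)
    (fun i => {x : L × T | (f i).f x.1 = some x.2}) (fun i => (f i).supp)
    (by
      intro i
      refine lt_of_le_of_lt ?_ (f i).small
      refine Cardinal.mk_le_of_injective (f := fun x : {x : L × T | (f i).f x.1 = some x.2} =>
        (⟨x.1.1, Fn.mem_supp.2 ⟨x.1.2, x.2⟩⟩ : (f i).supp)) ?_
      rintro ⟨⟨a, b⟩, hx⟩ ⟨⟨c, d⟩, hy⟩ hxy
      have h1 : a = c := congrArg Subtype.val hxy
      subst h1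
      have hx' : (f i).f a = some b := hx
      have hy' : (f i).f a = some d := hy
      rw [hx'] at hy'
      have h3 : b = d := Option.some.inj hy'
      subst h3
      rfl)
    (fun i => (f i).small)
  refine ⟨i, j, hij, ?_⟩
  obtain ⟨r, hr1, hr2⟩ := exists_add hκ0 (f i) (f j).f (f j).supp (f j).small (fun l hl => hl)
  refine ⟨r, hr1, ?_⟩
  intro l b hb
  by_cases hl : l ∈ (f i).supp
  · have h1 := (h l hl (Fn.mem_supp.2 ⟨b, hb⟩) b).2 hb
    exact hr1 l b h1
  · rw [hr2 l (Fn.not_mem_supp.1 hl)]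
    exact hb

/-- set the value at `l` -/
theorem exists_set (hκ : ℵ₀ ≤ κ) (p : Fn κ L T) (l : L) (hl : p.f l = none) (b : T) :
    ∃ r : Fn κ L T, r ≤ p ∧ r.f l = some b := by
  classical
  obtain ⟨r, hr1, hr2⟩ := exists_add hκ p
    (fun l' => if l' = l then some b else none) {l}
    ((lt_aleph0_of_finite _).trans_le hκ) (by
      intro l' h'
      by_contra h''
      have h3 : ¬ l' = l := h''
      rw [if_neg h3] at h'
      exact h' rfl)
  refine ⟨r, hr1, ?_⟩
  rw [hr2 l hl, if_pos rfl]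

/-- extend a condition to a given small set -/
theorem exists_dom (hκ : ℵ₀ ≤ κ) [Nonempty T] (p : Fn κ L T) (Z : Set L) (hZ : #Z < κ) :
    ∃ r : Fn κ L T, r ≤ p ∧ Z ⊆ r.supp := by
  classical
  obtain ⟨r, hr1, hr2⟩ := exists_add hκ p
    (fun l => if l ∈ Z then some (Classical.arbitrary T) else none) Z hZ (by
      intro l' h'
      by_contra h''
      rw [if_neg h''] at h'
      exact h' rfl)
  refine ⟨r, hr1, fun l hl => ?_⟩
  by_cases h : l ∈ p.supp
  · exact Fn.supp_mono hr1 h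
  · rw [Fn.mem_supp, hr2 l (Fn.not_mem_supp.1 h), if_pos hl]
    exact ⟨_, rfl⟩

/-- the restriction of a condition to a set of coordinates -/
noncomputable def rs (Z : Set L) (p : Fn κ L T) : Fn κ L T :=
  open Classical in
  Fn.mk' (fun l => if l ∈ Z then p.f l else none) p.supp p.small (by
    intro l hl
    by_cases h : l ∈ Z
    · rw [if_pos h] at hl
      exact hl
    · rw [if_neg h] at hl
      exact absurd rfl hl)

theorem rs_pos {Z : Set L} {p : Fn κ L T} {l : L} (h : l ∈ Z) : (rs Z p).f l = p.f l :=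
  if_pos h

theorem rs_neg {Z : Set L} {p : Fn κ L T} {l : L} (h : l ∉ Z) : (rs Z p).f l = none :=
  if_neg h

theorem rs_eq {Z : Set L} {p q : Fn κ L T} (h : q ≤ p) (hZ : Z ⊆ p.supp) :
    rs Z q = rs Z p := by
  apply Fn.ext
  funext l
  by_cases hl : l ∈ Z
  · rw [rs_pos hl, rs_pos hl]
    exact Fn.eq_of_le h (hZ hl)
  · rw [rs_neg hl, rs_neg hl]

theorem rs_le {Z : Set L} {p q : Fn κ L T} (h : q ≤ p) (hZ : p.supp ⊆ Z) :
    rs Z q ≤ p := by
  intro l b hb
  have hl : l ∈ p.supp := Fn.mem_supp.2 ⟨b, hb⟩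
  rw [rs_pos (hZ hl)]
  exact h l b hb

theorem le_rs {Z : Set L} {p : Fn κ L T} : p ≤ rs Z p := by
  intro l b hb
  by_cases hl : l ∈ Z
  · rwa [rs_pos hl] at hb
  · rw [rs_neg hl] at hb
    exact absurd hb (by simp)

theorem rs_supp {Z : Set L} {p : Fn κ L T} : (rs Z p).supp ⊆ Z := by
  intro l hl
  by_contra h
  exact hl (rs_neg h)

theorem exists_common (hκ : ℵ₀ ≤ κ) (p q : Fn κ L T)
    (h : ∀ l b c, p.f l = some b → q.f l = some c → b = c) : ∃ r, r ≤ p ∧ r ≤ q := by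
  obtain ⟨r, hr1, hr2⟩ := exists_add hκ p q.f q.supp q.small (fun l hl => hl)
  refine ⟨r, hr1, fun l b hb => ?_⟩
  by_cases hl : l ∈ p.supp
  · obtain ⟨c, hc⟩ := Fn.mem_supp.1 hl
    rw [hr1 l c hc, h l c b hc hb]
  · rw [hr2 l (Fn.not_mem_supp.1 hl)]
    exact hb

/-- deciding few sentences after each of few changes of the values on a small set -/
theorem exists_decide (hκ : κ.IsRegular) (S : Set L) (hS : #S < κ) {N M : Type} (hN : #N < κ)
    (hM : #M < κ) (c : N → L → T) (φ : M → RO (Fn κ L T)) (g : Fn κ L T) :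
    ∃ q ≤ g, ∀ n m, ov hκ.aleph0_le S hS (c n) q ∈ φ m ∨
      ov hκ.aleph0_le S hS (c n) q ∈ neg (φ m) := by
  have hκ0 := hκ.aleph0_le
  obtain ⟨q, hq, h⟩ := exists_forall_mem hκ0 (dirClosed_Fn (L := L) (T := T) hκ) (N := N × M)
    (by
      simp only [Cardinal.mk_prod, Cardinal.lift_id]
      exact Cardinal.mul_lt_of_lt hκ0 hN hM)
    (fun x => {q | ov hκ0 S hS (c x.1) q ∈ φ x.2 ∨ ov hκ0 S hS (c x.1) q ∈ neg (φ x.2)})
    (by
      rintro x p (hp | hp) q hq
      · exact Or.inl (RO.dn hp (ov_mono hq))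
      · exact Or.inr (RO.dn hp (ov_mono hq)))
    (by
      intro x q
      obtain ⟨r, hr, h⟩ := em (φ x.2) (ov hκ0 S hS (c x.1) q)
      obtain ⟨q', h1, h2⟩ := exists_splice hκ0 S q r
      refine ⟨q', ?_, ?_⟩
      · intro l b hb
        by_cases hl : l ∈ S
        · rw [h1 l hl]
          exact hb
        · rw [h2 l hl]
          apply hr
          rw [ov_neg hl]
          exact hb
      · have h3 : ov hκ0 S hS (c x.1) q' = r := by
          apply Fn.ext
          funext l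
          by_cases hl : l ∈ S
          · rw [ov_pos hl]
            exact (hr l _ (ov_pos hl)).symm
          · rw [ov_neg hl, h2 l hl]
        change ov hκ0 S hS (c x.1) q' ∈ φ x.2 ∨ ov hκ0 S hS (c x.1) q' ∈ neg (φ x.2)
        rw [h3]
        exact h) g
  exact ⟨q, hq, fun n m => h (n, m)⟩

end Pool.Agent.U66
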