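import Pool.Agent.R588.S.NF
import Pool.Agent.U66.Fn

/-!
# The index set and typical points
-/

set_option autoImplicit false

namespace Pool.Agent.U66

open Cardinal Set Pool.Agent.Helper669.Forcing Pool.Agent.Helper669.K Pool.Agent.R588.S

/-- the index set used for the ultrafilter -/
inductive XY (J K Y B : Type) : Type where
  | t : Finset K → XY J K Y B
  | k : K → XY J K Y B
  | j : J → XY J K Y B
  | w : Set Y → XY J K Y B
  | y : Y → XY J K Y B
  | b : B → XY J K Y B

section

variable {P : Type} [Preorder P] {κ : Cardinal.{0}} {J K Y B : Type} [LinearOrder K]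

/-- `x` restricted to `K` is the initial segment of all elements below `k0` -/
def GoodP (x : PK κ (XY J K Y B)) (k0 : K) : Prop :=
  (∀ k, XY.k k ∈ x.1 ↔ k < k0) ∧ ∀ t, XY.t t ∈ x.1 ↔ ∀ a ∈ t, a < k0

theorem GoodP.uniq {x : PK κ (XY J K Y B)} {k0 k1 : K} (h0 : GoodP x k0) (h1 : GoodP x k1) :
    k0 = k1 := by
  rcases lt_trichotomy k0 k1 with h | h | h
  · exact absurd ((h0.1 k0).1 ((h1.1 k0).2 h)) (lt_irrefl _)
  · exact h
  · exact absurd ((h1.1 k1).1 ((h0.1 k1).2 h)) (lt_irrefl _)

variable {V : (PK κ (XY J K Y B) → RO P) → RO P}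

omit [LinearOrder K] in
/-- closure under a ground model function -/
theorem close1 (hV : NF κ _ V) (p : P) (f : XY J K Y B → XY J K Y B) :
    p ∈ V fun x => gr (∀ a ∈ x.1, f a ∈ x.1) :=
  hV.gnormal fun a => hV.fine (f a) p

omit [LinearOrder K] in
theorem close2 (hV : NF κ _ V) (p : P) (f : XY J K Y B → XY J K Y B → XY J K Y B) :
    p ∈ V fun x => gr (∀ a ∈ x.1, ∀ b ∈ x.1, f a b ∈ x.1) :=
  hV.gnormal fun a => hV.gnormal fun b => hV.fine (f a b) p

theorem good_most' [WellFoundedLT K] (hκ : ℵ₀ ≤ κ) (hK : κ ≤ #K)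
    (hIio : ∀ k : K, #(Set.Iio k) < κ) (hV : NF κ _ V) (p : P) :
    p ∈ V fun x => gr (∃ k0, GoodP x k0) := by
  classical
  -- initial segments
  have h1 : p ∈ V fun x => gr (∀ a ∈ x.1, ∀ k, a = XY.k k → ∀ k' < k, XY.k k' ∈ x.1) := by
    apply hV.gnormal
    intro a
    by_cases ha : ∃ k, a = XY.k k
    · obtain ⟨k, rfl⟩ := ha
      refine hV.gmono (hV.ginter (hIio k) (A := fun j x => XY.k j.1 ∈ x.1)
        fun j => hV.fine _ p) fun x hx k1 hk1 k' hk' => ?_
      have : k = k1 := by injection hk1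
      subst this
      exact hx ⟨k', hk'⟩
    · exact hV.gmono (hV.fine (XY.t ∅) p) fun x _ k hk => absurd ⟨k, hk⟩ ha
  have h2 : p ∈ V fun x => gr (∀ a ∈ x.1, ∀ t, a = XY.t t → ∀ k ∈ t, XY.k k ∈ x.1) := by
    apply hV.gnormal
    intro a
    by_cases ha : ∃ t, a = XY.t t
    · obtain ⟨t, rfl⟩ := ha
      refine hV.gmono (hV.ginter (J := {k // k ∈ t}) ((lt_aleph0_of_finite _).trans_le hκ)
        (A := fun j x => XY.k j.1 ∈ x.1) fun j => hV.fine _ p) fun x hx t1 ht1 k' hk' => ?_
      have : t = t1 := by injection ht1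
      subst this
      exact hx ⟨k', hk'⟩
    · exact hV.gmono (hV.fine (XY.t ∅) p) fun x _ k hk => absurd ⟨k, hk⟩ ha
  have h3 : p ∈ V fun x => gr (∀ a ∈ x.1, ∀ a' ∈ x.1, ∀ k t, a = XY.k k → a' = XY.t t →
      XY.t (insert k t) ∈ x.1) := by
    apply hV.gnormal
    intro a
    apply hV.gnormal
    intro a'
    by_cases ha : ∃ k, a = XY.k k
    · by_cases ha' : ∃ t, a' = XY.t t
      · obtain ⟨k, rfl⟩ := ha
        obtain ⟨t, rfl⟩ := ha'
        refine hV.gmono (hV.fine (XY.t (insert k t)) p) fun x hx k1 t1 hk1 ht1 => ?_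
        have h4 : k = k1 := by injection hk1
        have h5 : t = t1 := by injection ht1
        subst h4
        subst h5
        exact hx
      · exact hV.gmono (hV.fine (XY.t ∅) p) fun x _ k t _ ht => absurd ⟨t, ht⟩ ha'
    · exact hV.gmono (hV.fine (XY.t ∅) p) fun x _ k t hk _ => absurd ⟨k, hk⟩ ha
  refine hV.gmono (hV.gand hκ h1 (hV.gand hκ h2 (hV.gand hκ h3 (hV.fine (XY.t ∅) p)))) ?_
  rintro x ⟨g1, g2, g3, g4⟩
  have hne : ({k | XY.k k ∉ x.1} : Set K).Nonempty := by
    by_contra hcon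
    rw [Set.not_nonempty_iff_eq_empty] at hcon
    have h5 : ∀ k : K, XY.k k ∈ x.1 := by
      intro k
      by_contra h6
      have h7 : k ∈ ({k | XY.k k ∉ x.1} : Set K) := h6
      rw [hcon] at h7
      exact h7
    have h6 : #K ≤ #x.1 := by
      refine Cardinal.mk_le_of_injective (f := fun k => (⟨XY.k k, h5 k⟩ : x.1)) ?_
      intro k k' hkk
      have h8 : (XY.k k : XY J K Y B) = XY.k k' := congrArg Subtype.val hkk
      injection h8
    exact absurd (hK.trans h6) (not_le.2 x.2)
  obtain ⟨k0, hk0, hmin⟩ := WellFounded.has_min (wellFounded_lt (α := K)) _ hne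
  have hin : ∀ k, XY.k k ∈ x.1 ↔ k < k0 := by
    intro k
    constructor
    · intro hk
      by_contra h6
      rcases lt_or_eq_of_le (not_lt.1 h6) with h7 | h7
      · exact hk0 (g1 _ hk k rfl k0 h7)
      · exact hk0 (h7 ▸ hk)
    · intro hk
      by_contra h6
      exact hmin k h6 hk
  refine ⟨k0, hin, fun t => ⟨fun ht a ha => (hin a).1 (g2 _ ht t rfl a ha), ?_⟩⟩
  induction t using Finset.induction_on with
  | empty => exact fun _ => g4
  | insert k t _ ih =>
    intro h6
    exact g3 _ ((hin k).2 (h6 k (Finset.mem_insert_self _ _))) _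
      (ih fun a ha => h6 a (Finset.mem_insert_of_mem ha)) k t rfl rfl

end

theorem small_pre {κ : Cardinal.{0}} {X Y : Type} {x : Set Y} (hx : #x < κ) {f : X → Y}
    (hf : Function.Injective f) : #{a | f a ∈ x} < κ := by
  refine lt_of_le_of_lt ?_ hx
  refine Cardinal.mk_le_of_injective (f := fun a : {a | f a ∈ x} => (⟨f a.1, a.2⟩ : x)) ?_
  intro a b hab
  exact Subtype.ext (hf (congrArg Subtype.val hab))

/-- codes for the small subsets of `K` and for the ultrafilters on `K` with a small element -/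
structure Cod (κ : Cardinal.{0}) (K T : Type) : Type where
  dS : T → Set K
  dU : T → Ultrafilter K
  tS : Set K → T
  tU : Ultrafilter K → T
  hS : ∀ S : Set K, #S < κ → dS (tS S) = S
  hU : ∀ u : Ultrafilter K, (∃ S ∈ u, #S < κ) → dU (tU u) = u
  sm : ∀ t, ∃ S ∈ dU t, #S < κ
  smS : ∀ t, #(dS t) < κ

theorem exists_cod {κ : Cardinal.{0}} (hκ : κ.IsRegular) (h2 : ∀ μ < κ, 2 ^ μ < κ) (K : Type)
    (hK : #K = κ) : ∃ T : Type, #T ≤ κ ∧ Nonempty T ∧ Nonempty (Cod κ K T) := by
  classical
  have hκ0 := hκ.aleph0_le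
  have hKne : Nonempty K := by
    rw [← mk_ne_zero_iff, hK]
    exact (aleph0_pos.trans_le hκ0).ne'
  let T1 : Type := {S : Set K // #S < κ}
  let T2 : Type := {u : Ultrafilter K // ∃ S ∈ u, #S < κ}
  have hT1 : #T1 ≤ κ := exists_agree_count hκ h2 hK.le
  have hT2 : #T2 ≤ κ := by
    have h3 : ∀ u : T2, ∃ S : T1, S.1 ∈ u.1 := fun u => by
      obtain ⟨S, hS, hS'⟩ := u.2
      exact ⟨⟨S, hS'⟩, hS⟩
    choose f hf using h3
    have hinj : Function.Injective (fun u : T2 =>
        (⟨f u, {A | ((↑) '' A : Set K) ∈ u.1}⟩ : Σ S : T1, Set (Set S.1))) := by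
      intro u v huv
      simp only [Sigma.mk.injEq] at huv
      obtain ⟨h4, h5⟩ := huv
      have h6 : ∀ A : Set K, A ⊆ (f u).1 → (A ∈ u.1 ↔ A ∈ v.1) := by
        intro A hA
        have key : ∀ (S S' : T1) (hSS : S = S') (a : Set (Set S.1)) (b : Set (Set S'.1)),
            HEq a b → ∀ A : Set K, ((fun z : S.1 => z.1) ⁻¹' A ∈ a ↔
              (fun z : S'.1 => z.1) ⁻¹' A ∈ b) := by
          intro S S' hSS a b hab A
          subst hSS
          rw [eq_of_heq hab]
        have h7 := key _ _ h4 _ _ h5 A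
        simp only [Set.mem_ofPred_eq] at h7
        have h8 : ((↑) '' ((fun z : (f u).1 => z.1) ⁻¹' A) : Set K) = A := by
          ext z
          constructor
          · rintro ⟨w, hw, rfl⟩
            exact hw
          · intro hz
            exact ⟨⟨z, hA hz⟩, hz, rfl⟩
        have h9 : ((↑) '' ((fun z : (f v).1 => z.1) ⁻¹' A) : Set K) = A := by
          ext z
          constructor
          · rintro ⟨w, hw, rfl⟩
            exact hw
          · intro hz
            exact ⟨⟨z, h4 ▸ hA hz⟩, hz, rfl⟩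
        rw [h8, h9] at h7
        exact h7
      apply Subtype.ext
      apply Ultrafilter.eq_of_le
      intro A hA
      have h7 : A ∩ (f u).1 ∈ v.1 := by
        have h8 : (f u).1 ∈ v.1 := by
          rw [h4]
          exact hf v
        exact Filter.inter_mem hA h8
      have h8 := (h6 _ Set.inter_subset_right).2 h7
      exact Filter.mem_of_superset h8 Set.inter_subset_left
    refine (Cardinal.mk_le_of_injective hinj).trans ?_
    rw [Cardinal.mk_sigma]
    refine (Cardinal.sum_le_mk_mul_iSup _).trans ?_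
    calc #T1 * (⨆ S : T1, #(Set (Set S.1))) ≤ κ * κ := by
          refine mul_le_mul' hT1 (ciSup_le' fun S => ?_)
          rw [mk_set, mk_set]
          exact (h2 _ (h2 _ S.2)).le
      _ = κ := Cardinal.mul_eq_self hκ0
  have k0 : K := Classical.arbitrary K
  have hs0 : #(∅ : Set K) < κ := by simpa using aleph0_pos.trans_le hκ0
  have hs1 : ∃ S ∈ (pure k0 : Ultrafilter K), #S < κ :=
    ⟨{k0}, Ultrafilter.mem_pure.2 rfl, (lt_aleph0_of_finite _).trans_le hκ0⟩
  refine ⟨T1 ⊕ T2, ?_, ⟨Sum.inl ⟨∅, hs0⟩⟩, ⟨?_⟩⟩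
  · rw [Cardinal.mk_sum, Cardinal.lift_id, Cardinal.lift_id]
    calc #T1 + #T2 ≤ κ + κ := add_le_add hT1 hT2
      _ = κ := Cardinal.add_eq_self hκ0
  · exact
      { dS := fun t => match t with
          | Sum.inl S => S.1
          | Sum.inr _ => ∅
        dU := fun t => match t with
          | Sum.inl _ => pure k0
          | Sum.inr u => u.1
        tS := fun S => if h : #S < κ then Sum.inl ⟨S, h⟩ else Sum.inl ⟨∅, hs0⟩
        tU := fun u => if h : ∃ S ∈ u, #S < κ then Sum.inr ⟨u, h⟩ else Sum.inl ⟨∅, hs0⟩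
        hS := fun S hS => by
          rw [dif_pos hS]
        hU := fun u hu => by
          rw [dif_pos hu]
        sm := fun t => by
          cases t with
          | inl S => exact hs1
          | inr u => exact u.2
        smS := fun t => by
          cases t with
          | inl S => exact S.2
          | inr u => exact hs0 }

end Pool.Agent.U66
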