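import Pool.Agent.U66.SDefs
import Pool.Agent.U66.Idx

/-!
# A closed family of large sets with singular cofinality
-/

set_option autoImplicit false

namespace Pool.Agent.U66

open Cardinal Set Pool.Agent.R588.S Pool.Agent.Helper669.K

/-- a normal fine ultrafilter -/
structure NM (κ : Cardinal.{0}) (X : Type) (U : Ultrafilter (PK κ X)) : Prop where
  fine : ∀ a, {x : PK κ X | a ∈ x.1} ∈ U
  compl : ∀ (J : Type) (A : J → Set (PK κ X)), #J < κ → (∀ j, A j ∈ U) → (⋂ j, A j) ∈ U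
  norm : ∀ A : X → Set (PK κ X), (∀ a, A a ∈ U) → {x : PK κ X | ∀ a ∈ x.1, x ∈ A a} ∈ U

namespace NM

variable {κ : Cardinal.{0}} {X : Type} {U : Ultrafilter (PK κ X)}

theorem press (h : NM κ X U) (c : PK κ X → X) (hc : {x | c x ∈ x.1} ∈ U) :
    ∃ a, {x | c x = a} ∈ U := by
  by_contra hcon
  push Not at hcon
  have h1 : ∀ a, {x | c x ≠ a} ∈ U := fun a => by
    have := Ultrafilter.compl_mem_iff_notMem.2 (hcon a)
    exact this
  have h2 := h.norm (fun a => {x | c x ≠ a}) h1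
  obtain ⟨x, hx1, hx2⟩ := Ultrafilter.nonempty_of_mem (Filter.inter_mem hc h2)
  exact hx2 (c x) hx1 rfl

theorem all (h : NM κ X U) {J : Type} (hJ : #J < κ) {A : J → PK κ X → Prop}
    (hA : ∀ j, {x | A j x} ∈ U) : {x | ∀ j, A j x} ∈ U := by
  have h1 := h.compl J (fun j => {x | A j x}) hJ hA
  refine Filter.mem_of_superset h1 ?_
  intro x hx j
  exact Set.mem_iInter.1 hx j

theorem close1 (h : NM κ X U) (f : X → X) : {x : PK κ X | ∀ a ∈ x.1, f a ∈ x.1} ∈ U :=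
  h.norm (fun a => {x | f a ∈ x.1}) fun a => h.fine (f a)

theorem close2 (h : NM κ X U) (f : X → X → X) :
    {x : PK κ X | ∀ a ∈ x.1, ∀ b ∈ x.1, f a b ∈ x.1} ∈ U :=
  h.norm (fun a => {x | ∀ b ∈ x.1, f a b ∈ x.1}) fun a => h.close1 (f a)

/-- no injections in most points -/
theorem card_lt (h : NM κ X U) (hκ : ℵ₀ ≤ κ) {A B : Set X} (hAB : #A < #B) :
    {x : PK κ X | #{z | z ∈ x.1 ∧ z ∈ A} < #{z | z ∈ x.1 ∧ z ∈ B}} ∈ U := by
  classical
  by_contra hcon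
  rw [← Ultrafilter.compl_mem_iff_notMem] at hcon
  have h1 : ∀ x : PK κ X, ∃ f : X → X, (¬ #{z | z ∈ x.1 ∧ z ∈ A} < #{z | z ∈ x.1 ∧ z ∈ B}) →
      ∀ z ∈ x.1, z ∈ B → f z ∈ x.1 ∧ f z ∈ A ∧ ∀ z' ∈ x.1, z' ∈ B → f z = f z' → z = z' := by
    intro x
    by_cases hx : #{z | z ∈ x.1 ∧ z ∈ A} < #{z | z ∈ x.1 ∧ z ∈ B}
    · exact ⟨id, fun h' => absurd hx h'⟩
    · obtain ⟨g⟩ := not_lt.1 hx
      refine ⟨fun z => if h : z ∈ x.1 ∧ z ∈ B then (g ⟨z, h⟩).1 else z, fun _ z hz hzB => ?_⟩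
      have hzz : z ∈ x.1 ∧ z ∈ B := ⟨hz, hzB⟩
      dsimp only
      rw [dif_pos hzz]
      refine ⟨(g ⟨z, hz, hzB⟩).2.1, (g ⟨z, hz, hzB⟩).2.2, fun z' hz' hzB' heq => ?_⟩
      have hzz' : z' ∈ x.1 ∧ z' ∈ B := ⟨hz', hzB'⟩
      rw [dif_pos hzz'] at heq
      exact congrArg Subtype.val (g.injective (Subtype.ext heq))
  choose f hf using h1
  have h2 : ∀ z : B, ∃ a, {x | f x z.1 = a} ∈ U := by
    intro z
    refine h.press (fun x => f x z.1) ?_
    refine Filter.mem_of_superset (Filter.inter_mem hcon (h.fine z.1)) ?_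
    rintro x ⟨hx1, hx2⟩
    exact (hf x hx1 z.1 hx2 z.2).1
  choose g hg using h2
  have hgA : ∀ z, g z ∈ A := by
    intro z
    obtain ⟨x, ⟨hx1, hx2⟩, hx3⟩ := Ultrafilter.nonempty_of_mem (Filter.inter_mem
      (Filter.inter_mem hcon (h.fine z.1)) (hg z))
    have h3 : f x z.1 = g z := hx3
    rw [← h3]
    exact (hf x hx1 z.1 hx2 z.2).2.1
  have hginj : Function.Injective fun z : B => (⟨g z, hgA z⟩ : A) := by
    intro z z' hzz
    have h4 : g z = g z' := congrArg Subtype.val hzz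
    obtain ⟨x, ⟨⟨hx1, hx2⟩, hx3⟩, hx4, hx5⟩ := Ultrafilter.nonempty_of_mem (Filter.inter_mem
      (Filter.inter_mem (Filter.inter_mem hcon (h.fine z.1)) (hg z))
      (Filter.inter_mem (h.fine z'.1) (hg z')))
    have h5 : f x z.1 = g z := hx3
    have h6 : f x z'.1 = g z' := hx5
    exact Subtype.ext ((hf x hx1 z.1 hx2 z.2).2.2 z'.1 hx4 z'.2 (by rw [h5, h6, h4]))
  exact absurd (Cardinal.mk_le_of_injective hginj) (not_le.2 hAB)

/-- most points are closed under small sequences -/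
theorem closed_seq (h : NM κ X U) {K : Type} (hK : #K < κ) (code : (K → X) → X) :
    {x : PK κ X | ∀ s : K → X, (∀ k, s k ∈ x.1) → code s ∈ x.1} ∈ U := by
  classical
  by_contra hcon
  rw [← Ultrafilter.compl_mem_iff_notMem] at hcon
  have hXne : Nonempty X := by
    obtain ⟨x, hx⟩ := Ultrafilter.nonempty_of_mem hcon
    have h0 : ¬ ∀ s : K → X, (∀ k, s k ∈ x.1) → code s ∈ x.1 := hx
    push Not at h0
    obtain ⟨s, -, -⟩ := h0
    exact ⟨code s⟩
  have h1 : ∀ x : PK κ X, ∃ s : K → X, (¬ ∀ s : K → X, (∀ k, s k ∈ x.1) → code s ∈ x.1) →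
      (∀ k, s k ∈ x.1) ∧ code s ∉ x.1 := by
    intro x
    by_cases hx : ∀ s : K → X, (∀ k, s k ∈ x.1) → code s ∈ x.1
    · exact ⟨fun _ => Classical.arbitrary X, fun h' => absurd hx h'⟩
    · have hx' := hx
      push Not at hx'
      obtain ⟨s, hs⟩ := hx'
      exact ⟨s, fun _ => hs⟩
  choose s hs using h1
  have h2 : ∀ k : K, ∃ a, {x | s x k = a} ∈ U := fun k =>
    h.press (fun x => s x k) (Filter.mem_of_superset hcon fun x hx => (hs x hx).1 k)
  choose a ha using h2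
  obtain ⟨x, ⟨hx1, hx2⟩, hx3⟩ := Ultrafilter.nonempty_of_mem (Filter.inter_mem
    (Filter.inter_mem hcon (h.all hK ha)) (h.fine (code a)))
  have h4 : s x = a := funext fun k => hx2 k
  have h5 := (hs x hx1).2
  rw [h4] at h5
  exact h5 hx3

end NM

/-! ### The index set -/

section

variable (κ κ₁ : Cardinal.{0})

/-- the index set of the increasing sequence of cardinals -/
abbrev MM : Type := (Order.succ κ).ord.ToType

/-- an increasing sequence of cardinals -/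
noncomputable def lam : MM κ → Cardinal.{0} :=
  (wellFounded_lt (α := MM κ)).fix fun j f =>
    2 ^ (κ₁ + Cardinal.sum fun i : {i : MM κ // i < j} => f i.1 i.2)

theorem lam_eq (j : MM κ) :
    lam κ κ₁ j = 2 ^ (κ₁ + Cardinal.sum fun i : {i : MM κ // i < j} => lam κ κ₁ i.1) :=
  (wellFounded_lt (α := MM κ)).fix_eq _ j

theorem lam_gt (j : MM κ) : κ₁ < lam κ κ₁ j := by
  rw [lam_eq]
  exact (self_le_add_right κ₁ _).trans_lt (Cardinal.cantor _)

theorem lam_strict {i j : MM κ} (h : i < j) : lam κ κ₁ i < lam κ κ₁ j := by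
  rw [lam_eq κ κ₁ j]
  refine lt_of_le_of_lt ?_ (Cardinal.cantor _)
  refine le_trans ?_ (self_le_add_left _ κ₁)
  exact Cardinal.le_sum (fun i : {i : MM κ // i < j} => lam κ κ₁ i.1) ⟨i, h⟩

/-- the set of indices -/
abbrev LL : Type := Σ j : MM κ, (lam κ κ₁ j).out

end

section

variable {κ κ₁ : Cardinal.{0}}

theorem mk_LL_ge (hκ : ℵ₀ ≤ κ) (j : MM κ) : lam κ κ₁ j ≤ #(LL κ κ₁) := by
  rw [← Cardinal.mk_out (lam κ κ₁ j)]
  refine Cardinal.mk_le_of_injective (f := fun a => (⟨j, a⟩ : LL κ κ₁)) ?_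
  intro a b hab
  simpa using hab

theorem exists_gt_MM (hκ : ℵ₀ ≤ κ) (b : MM κ) : ∃ b', b < b' := by
  by_contra hcon
  push Not at hcon
  have h1 : #(MM κ) ≤ #(Set.Iic b) := by
    rw [← Cardinal.mk_univ (α := MM κ)]
    exact Cardinal.mk_le_mk_of_subset (fun y _ => hcon y)
  rw [← Set.Iio_insert, Cardinal.mk_ord_toType] at h1
  have h3 : #(insert b (Set.Iio b) : Set (MM κ)) < Order.succ κ := by
    refine lt_of_le_of_lt Cardinal.mk_insert_le ?_
    exact Cardinal.add_lt_of_lt (hκ.trans (Order.le_succ κ))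
      (Cardinal.mk_Iio_toType_ord_lt b)
      (lt_of_lt_of_le Cardinal.one_lt_aleph0 (hκ.trans (Order.le_succ κ)))
  exact absurd h1 (not_le.2 h3)

theorem mk_seq_LL (hκ : ℵ₀ ≤ κ) (h : κ < κ₁) {K : Type} (hK : #K = κ) :
    #(K → LL κ κ₁) ≤ #(LL κ κ₁) := by
  classical
  have hκ1 : ℵ₀ ≤ κ₁ := hκ.trans h.le
  have hMne : Nonempty (MM κ) := by
    rw [← mk_ne_zero_iff, Cardinal.mk_ord_toType]
    exact (aleph0_pos.trans_le (hκ.trans (Order.le_succ κ))).ne'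
  have h1 : ∀ s : K → LL κ κ₁, ∃ b : MM κ, ∀ k, (s k).1 ≤ b := fun s =>
    h400_bdd hκ K hK.le fun k => (s k).1
  choose b hb using h1
  choose b' hb' using exists_gt_MM (κ := κ) hκ
  have h2 : ∀ b : MM κ, #(K → {z : LL κ κ₁ // z.1 < b' b}) ≤ #(LL κ κ₁) := by
    intro b
    have h3 : #{z : LL κ κ₁ // z.1 < b' b} ≤
        Cardinal.sum fun i : {i : MM κ // i < b' b} => lam κ κ₁ i.1 := by
      have h4 : #(Σ i : {i : MM κ // i < b' b}, (lam κ κ₁ i.1).out) =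
          Cardinal.sum fun i : {i : MM κ // i < b' b} => lam κ κ₁ i.1 := by
        rw [Cardinal.mk_sigma]
        congr 1
        funext i
        exact Cardinal.mk_out _
      rw [← h4]
      refine Cardinal.mk_le_of_injective (f := fun z : {z : LL κ κ₁ // z.1 < b' b} =>
        (⟨⟨z.1.1, z.2⟩, z.1.2⟩ : Σ i : {i : MM κ // i < b' b}, (lam κ κ₁ i.1).out)) ?_
      rintro ⟨⟨i, a⟩, h5⟩ ⟨⟨j, c⟩, h6⟩ heq
      simp only [Sigma.mk.injEq, Subtype.mk.injEq] at heq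
      obtain ⟨h7, h8⟩ := heq
      subst h7
      rw [eq_of_heq h8]
    have h5 : ℵ₀ ≤ κ₁ + Cardinal.sum fun i : {i : MM κ // i < b' b} => lam κ κ₁ i.1 :=
      hκ1.trans (self_le_add_right _ _)
    calc #(K → {z : LL κ κ₁ // z.1 < b' b}) = #{z : LL κ κ₁ // z.1 < b' b} ^ #K := by simp
      _ ≤ (2 ^ (κ₁ + Cardinal.sum fun i : {i : MM κ // i < b' b} => lam κ κ₁ i.1)) ^ #K := by
          refine Cardinal.power_le_power_right ?_
          exact (h3.trans (self_le_add_left _ κ₁)).trans (Cardinal.cantor _).le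
      _ = 2 ^ (κ₁ + Cardinal.sum fun i : {i : MM κ // i < b' b} => lam κ κ₁ i.1) := by
          rw [← Cardinal.power_mul, hK, Cardinal.mul_eq_left h5
            (h.le.trans (self_le_add_right _ _)) (aleph0_pos.trans_le hκ).ne']
      _ = lam κ κ₁ (b' b) := (lam_eq κ κ₁ _).symm
      _ ≤ #(LL κ κ₁) := mk_LL_ge hκ _
  have h3 : #(K → LL κ κ₁) ≤ #(Σ b : MM κ, (K → {z : LL κ κ₁ // z.1 < b' b})) := by
    refine Cardinal.mk_le_of_injective (f := fun s =>
      (⟨b s, fun k => ⟨s k, (hb s k).trans_lt (hb' _)⟩⟩ :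
        Σ b : MM κ, (K → {z : LL κ κ₁ // z.1 < b' b}))) ?_
    intro s s' hss
    simp only [Sigma.mk.injEq] at hss
    obtain ⟨h4, h5⟩ := hss
    have key : ∀ (b1 b2 : MM κ) (hbb : b1 = b2) (f : K → {z : LL κ κ₁ // z.1 < b' b1})
        (g : K → {z : LL κ κ₁ // z.1 < b' b2}), HEq f g → ∀ k, (f k).1 = (g k).1 := by
      intro b1 b2 hbb f g hfg k
      subst hbb
      rw [eq_of_heq hfg]
    funext k
    exact key _ _ h4 _ _ h5 k
  refine h3.trans ?_
  rw [Cardinal.mk_sigma]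
  refine (Cardinal.sum_le_mk_mul_iSup _).trans ?_
  have j0 : MM κ := Classical.arbitrary _
  have h6 : κ₁ ≤ #(LL κ κ₁) := (lam_gt κ κ₁ j0).le.trans (mk_LL_ge hκ j0)
  calc #(MM κ) * (⨆ b : MM κ, #(K → {z : LL κ κ₁ // z.1 < b' b})) ≤
      #(LL κ κ₁) * #(LL κ κ₁) := by
        refine mul_le_mul' ?_ (ciSup_le' h2)
        rw [Cardinal.mk_ord_toType]
        exact (Order.succ_le_iff.2 h).trans h6
    _ = #(LL κ κ₁) := Cardinal.mul_eq_self (hκ1.trans h6)

end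

end Pool.Agent.U66
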