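import Pool.Agent.U66.Comb

/-!
# A closed family of large sets with singular cofinality: the construction
-/

set_option autoImplicit false

namespace Pool.Agent.U66

open Cardinal Set Pool.Agent.R588.S Pool.Agent.Helper669.K

theorem pow_sl {κ : Cardinal.{0}} (h2 : ∀ μ < κ, 2 ^ μ < κ) (hκ : ℵ₀ ≤ κ) {A B : Type}
    (hA : #A < κ) (hB : #B < κ) : #(A → B) < κ := by
  rw [Cardinal.mk_arrow, Cardinal.lift_id, Cardinal.lift_id]
  calc #B ^ #A ≤ (2 ^ #B) ^ #A := Cardinal.power_le_power_right (Cardinal.cantor _).le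
    _ = 2 ^ (#B * #A) := by rw [Cardinal.power_mul]
    _ < κ := h2 _ (Cardinal.mul_lt_of_lt hκ hB hA)

section

variable {κ : Cardinal.{0}} {X Y K : Type}

/-- one step of the recursion -/
noncomputable def ZfStep (pr : K × K ≃ K) (k0 : K) (A : X → Set Y) (Φ : (K → Set Y) → Set Y)
    (ζ : MM κ) (f : (z : MM κ) → z < ζ → (K → X) → Set Y) (s : K → X) : Set Y :=
  (⋂ ζ' : K → {z : MM κ // z < ζ},
      Φ fun k => f (ζ' k).1 (ζ' k).2 fun k' => s (pr (k, k'))) ∩ A (s k0)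

/-- the large sets, defined by recursion -/
noncomputable def Zf (pr : K × K ≃ K) (k0 : K) (A : X → Set Y) (Φ : (K → Set Y) → Set Y) :
    MM κ → (K → X) → Set Y :=
  (wellFounded_lt (α := MM κ)).fix (ZfStep pr k0 A Φ)

theorem Zf_eq (pr : K × K ≃ K) (k0 : K) (A : X → Set Y) (Φ : (K → Set Y) → Set Y) (ζ : MM κ)
    (s : K → X) : Zf pr k0 A Φ ζ s = (⋂ ζ' : K → {z : MM κ // z < ζ},
      Φ fun k => Zf pr k0 A Φ (ζ' k).1 fun k' => s (pr (k, k'))) ∩ A (s k0) :=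
  congrFun ((wellFounded_lt (α := MM κ)).fix_eq (ZfStep pr k0 A Φ) ζ) s

end

/-- a closed family of large sets with singular cofinality -/
theorem comb {κ κ₁ : Cardinal.{0}} (hκ : ℵ₀ ≤ κ) (h : κ < κ₁) (h₁ : Supercompact κ₁) {K : Type}
    (hK : #K = κ) : ∃ (Y : Type) (W : Ultrafilter Y),
      (∀ (S : Type) (Z : S → Set Y), #S < κ₁ → (∀ s, Z s ∈ W) → (⋂ s, Z s) ∈ W) ∧
      (∀ Z ∈ W, κ ≤ #Z) ∧
      ∀ Φ : {S : Set κ₁.ord.ToType // #S < κ₁} → (K → Set Y) → Set Y, (∀ m d, Φ m d ∈ W) →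
        ∃ (m : {S : Set κ₁.ord.ToType // #S < κ₁}) (χ : Cardinal.{0}) (c : m.1 → Set Y),
          κ < χ ∧ ¬ χ.IsRegular ∧ χ < #m.1 ∧ (∀ i, c i ∈ W) ∧
          (∀ a : K → m.1, ∃ i, c i ⊆ Φ m fun k => c (a k)) ∧ #(Set.range c) ≤ χ ∧
          ∀ S : Set m.1, #S < χ → ∃ i, ∀ i' ∈ S, ¬ c i' ⊆ c i := by
  classical
  have hκ1 : ℵ₀ ≤ κ₁ := hκ.trans h.le
  have hreg : κ₁.IsRegular := h₁.1.isRegular
  have h2 : ∀ μ < κ₁, 2 ^ μ < κ₁ := fun μ hμ => h₁.1.isStrongLimit.two_power_lt hμ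
  have hKne : Nonempty K := by
    rw [← mk_ne_zero_iff, hK]
    exact (aleph0_pos.trans_le hκ).ne'
  have hKinf : Infinite K := by
    rw [Cardinal.infinite_iff, hK]
    exact hκ
  have hMne : Nonempty (MM κ) := by
    rw [← mk_ne_zero_iff, Cardinal.mk_ord_toType]
    exact (aleph0_pos.trans_le (hκ.trans (Order.le_succ κ))).ne'
  have hMM : #(MM κ) < κ₁ := by
    rw [Cardinal.mk_ord_toType]
    exact (Order.succ_le_of_lt (cantor κ)).trans_lt (h2 κ h)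
  let X : Type := LL κ κ₁
  obtain ⟨U, hU1, hU2, hU3⟩ := h₁.2 X
  have hU : NM κ₁ X U := ⟨hU1, hU2, hU3⟩
  obtain ⟨pr⟩ : Nonempty (K × K ≃ K) := by
    rw [← Cardinal.eq, Cardinal.mk_prod, Cardinal.lift_id, hK, Cardinal.mul_eq_self hκ]
  obtain ⟨code⟩ : Nonempty ((K → X) ↪ X) := mk_seq_LL hκ h hK
  have k0 : K := Classical.arbitrary K
  have j0 : MM κ := Classical.arbitrary _
  obtain ⟨j1, hj1⟩ := exists_gt_MM hκ j0
  let A : X → Set (PK κ₁ X) := fun ξ => {y | ξ ∈ y.1}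
  have hA : ∀ ξ, A ξ ∈ U := hU.fine
  -- the sets of rank `j`
  let R : MM κ → Set X := fun j => {z | z.1 = j}
  have hR : ∀ j, #(R j) = lam κ κ₁ j := by
    intro j
    rw [← Cardinal.mk_out (lam κ κ₁ j)]
    refine Cardinal.mk_congr ⟨fun z => z.2 ▸ z.1.2, fun a => ⟨⟨j, a⟩, rfl⟩, ?_, ?_⟩
    · rintro ⟨⟨i, a⟩, hi⟩
      have hi' : i = j := hi
      subst hi'
      rfl
    · intro a
      rfl
  have hXge : κ₁ ≤ #X := (lam_gt κ κ₁ j0).le.trans (mk_LL_ge hκ j0)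
  refine ⟨PK κ₁ X, U, fun S Z hS hZ => hU.compl S Z hS hZ, ?_, ?_⟩
  · -- members are large
    intro Z hZ
    by_contra hlt
    rw [not_le] at hlt
    have h3 : ∀ y : Z, ∃ ξ, ξ ∉ y.1.1 := by
      intro y
      by_contra hcon
      push Not at hcon
      have h4 : y.1.1 = Set.univ := Set.eq_univ_of_forall hcon
      have h5 := y.1.2
      rw [h4, Cardinal.mk_univ] at h5
      exact absurd hXge (not_le.2 h5)
    choose ξ hξ using h3
    obtain ⟨y, hy, hy'⟩ := Ultrafilter.nonempty_of_mem (Filter.inter_mem hZ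
      (hU.all (hlt.trans h) (A := fun z y => ξ z ∈ y.1) fun z => hU.fine (ξ z)))
    exact hξ ⟨y, hy⟩ (hy' ⟨y, hy⟩)
  intro Φ hΦ
  let M1 : Type := {S : Set κ₁.ord.ToType // #S < κ₁}
  have hM1 : #M1 ≤ κ₁ := exists_agree_count hreg h2 (Cardinal.mk_ord_toType κ₁).le
  let ZZ : M1 → MM κ → (K → X) → Set (PK κ₁ X) := fun m => Zf pr k0 A (Φ m)
  have hZZ : ∀ m ζ s, ZZ m ζ s ∈ U := by
    intro m ζ s
    change Zf pr k0 A (Φ m) ζ s ∈ U
    rw [Zf_eq]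
    refine Filter.inter_mem (hU.compl _ _ ?_ fun _ => hΦ m _) (hA _)
    refine pow_sl h2 hκ1 (hK.trans_lt h) ?_
    exact (Cardinal.mk_subtype_le _).trans_lt hMM
  -- the sets `T s`
  let T : (K → X) → Set X := fun s => ⋃ m : M1 × MM κ, {ξ | ZZ m.1 m.2 s ⊆ A ξ}
  have hT : ∀ s, #(T s) ≤ κ₁ := by
    intro s
    refine (Cardinal.mk_iUnion_le _).trans ?_
    calc #(M1 × MM κ) * (⨆ m : M1 × MM κ, #{ξ | ZZ m.1 m.2 s ⊆ A ξ}) ≤ κ₁ * κ₁ := by
          refine mul_le_mul' ?_ (ciSup_le' fun m => ?_)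
          · rw [Cardinal.mk_prod, Cardinal.lift_id, Cardinal.lift_id]
            calc #M1 * #(MM κ) ≤ κ₁ * κ₁ := mul_le_mul' hM1 hMM.le
              _ = κ₁ := Cardinal.mul_eq_self hκ1
          · obtain ⟨y, hy⟩ := Ultrafilter.nonempty_of_mem (hZZ m.1 m.2 s)
            refine (Cardinal.mk_le_mk_of_subset (t := y.1) ?_).trans y.2.le
            intro ξ hξ
            exact hξ hy
      _ = κ₁ := Cardinal.mul_eq_self hκ1
  have hTb : ∀ s, ∃ b : X → X, (∀ ξ ∈ T s, b ξ ∈ R j0) ∧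
      ∀ ξ ∈ T s, ∀ ξ' ∈ T s, b ξ = b ξ' → ξ = ξ' := by
    intro s
    obtain ⟨b⟩ : Nonempty (T s ↪ R j0) := by
      rw [← Cardinal.le_def, hR]
      exact (hT s).trans (lam_gt κ κ₁ j0).le
    refine ⟨fun ξ => if hξ : ξ ∈ T s then (b ⟨ξ, hξ⟩).1 else ξ, ?_, ?_⟩
    · intro ξ hξ
      dsimp only
      rw [dif_pos hξ]
      exact (b ⟨ξ, hξ⟩).2
    · intro ξ hξ ξ' hξ' heq
      dsimp only at heq
      rw [dif_pos hξ, dif_pos hξ'] at heq
      exact congrArg Subtype.val (b.injective (Subtype.ext heq))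
  choose b hb1 hb2 using hTb
  have hXne : Nonempty X := ⟨⟨j0, Classical.choice (by
    rw [← mk_ne_zero_iff, Cardinal.mk_out]
    exact (aleph0_pos.trans_le (hκ1.trans (lam_gt κ κ₁ j0).le)).ne')⟩⟩
  let dec : X → (K → X) := Function.invFun code
  have hdec : ∀ s, dec (code s) = s := Function.leftInverse_invFun code.injective
  obtain ⟨emb⟩ : Nonempty (MM κ ↪ R j0) := by
    rw [← Cardinal.le_def, hR]
    exact hMM.le.trans (lam_gt κ κ₁ j0).le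
  -- a typical point
  have hJ : #{p : MM κ × MM κ // p.1 < p.2} < κ₁ := by
    refine (Cardinal.mk_subtype_le _).trans_lt ?_
    simp only [Cardinal.mk_prod, Cardinal.lift_id]
    exact Cardinal.mul_lt_of_lt hκ1 hMM hMM
  obtain ⟨x, ⟨⟨hx1, hx2⟩, hx3⟩, hx4⟩ := Ultrafilter.nonempty_of_mem (Filter.inter_mem
    (Filter.inter_mem (Filter.inter_mem
      (hU.all hJ (A := fun p x => #{z | z ∈ x.1 ∧ z ∈ R p.1.1} < #{z | z ∈ x.1 ∧ z ∈ R p.1.2})
        fun p => hU.card_lt hκ1 (by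
          rw [hR, hR]
          exact lam_strict κ κ₁ p.2))
      (hU.closed_seq (hK.trans_lt h) code))
      (hU.close2 fun a ξ => b (dec a) ξ))
      (hU.all hMM (A := fun j x => (emb j).1 ∈ x.1) fun j => hU.fine _))
  have hx1' : ∀ i j : MM κ, i < j →
      #{z | z ∈ x.1 ∧ z ∈ R i} < #{z | z ∈ x.1 ∧ z ∈ R j} := fun i j hij => hx1 ⟨(i, j), hij⟩
  have hx2' : ∀ s : K → X, (∀ k, s k ∈ x.1) → code s ∈ x.1 := hx2
  have hx3' : ∀ a ∈ x.1, ∀ ξ ∈ x.1, b (dec a) ξ ∈ x.1 := hx3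
  have hx4' : ∀ j, (emb j).1 ∈ x.1 := hx4
  obtain ⟨χ, hχ⟩ : ∃ χ, χ = #x.1 := ⟨_, rfl⟩
  have hle : ∀ j, #{z | z ∈ x.1 ∧ z ∈ R j} ≤ χ := by
    intro j
    rw [hχ]
    exact Cardinal.mk_le_mk_of_subset fun z hz => hz.1
  have hlt : ∀ j, #{z | z ∈ x.1 ∧ z ∈ R j} < χ := by
    intro j
    obtain ⟨j', hj'⟩ := exists_gt_MM hκ j
    exact (hx1' j j' hj').trans_le (hle j')
  have hMχ : #(MM κ) ≤ #{z | z ∈ x.1 ∧ z ∈ R j0} := by
    refine Cardinal.mk_le_of_injective (f := fun j =>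
      (⟨(emb j).1, hx4' j, (emb j).2⟩ : {z | z ∈ x.1 ∧ z ∈ R j0})) ?_
    intro i j hij
    have h3 : (emb i).1 = (emb j).1 := by
      have h4 := congrArg (fun z : {z | z ∈ x.1 ∧ z ∈ R j0} => (z : X)) hij
      exact h4
    exact emb.injective (Subtype.ext h3)
  have hMχ' : #(MM κ) < χ := hMχ.trans_lt (hlt j0)
  have hκχ : κ < χ := by
    rw [Cardinal.mk_ord_toType] at hMχ'
    exact (Order.lt_succ κ).trans hMχ'
  have hχ0 : ℵ₀ ≤ χ := hκ.trans hκχ.le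
  have hχ1 : χ < κ₁ := hχ ▸ x.2
  obtain ⟨S, hS⟩ : ∃ S : Set κ₁.ord.ToType, #S = Order.succ χ := by
    have h3 : Order.succ χ ≤ #κ₁.ord.ToType := by
      rw [Cardinal.mk_ord_toType]
      exact Order.succ_le_of_lt hχ1
    exact Cardinal.le_mk_iff_exists_set.1 h3
  have hSκ : #S < κ₁ := by
    rw [hS]
    exact (Order.succ_le_of_lt (cantor χ)).trans_lt (h2 χ hχ1)
  -- the index set
  have hidx : #(MM κ × (K → x.1)) ≤ χ := by
    rw [Cardinal.mk_prod, Cardinal.lift_id, Cardinal.lift_id]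
    calc #(MM κ) * #(K → x.1) ≤ χ * χ := by
          refine mul_le_mul' hMχ'.le ?_
          rw [hχ]
          refine Cardinal.mk_le_of_injective (f := fun s =>
            (⟨code fun k => (s k).1, hx2' _ fun k => (s k).2⟩ : x.1)) ?_
          intro s s' hss
          have h3 := code.injective (congrArg Subtype.val hss)
          funext k
          exact Subtype.ext (congrFun h3 k)
      _ = χ := Cardinal.mul_eq_self hχ0
  have hxne : Nonempty x.1 := ⟨⟨_, hx4' j0⟩⟩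
  obtain ⟨f, hf⟩ : ∃ f : S → MM κ × (K → x.1), Function.Surjective f := by
    obtain ⟨g⟩ : Nonempty (MM κ × (K → x.1) ↪ S) := by
      rw [← Cardinal.le_def, hS]
      exact hidx.trans (Order.le_succ χ)
    exact ⟨Function.invFun g, Function.invFun_surjective g.injective⟩
  have hreg' : ¬ χ.IsRegular := by
    intro hr
    have h3 : #(⋃ j : MM κ, {z | z ∈ x.1 ∧ z ∈ R j} : Set X) < χ :=
      (Cardinal.card_iUnion_lt_iff_forall_of_isRegular hr hMχ').2 hlt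
    have h4 : x.1 ⊆ ⋃ j : MM κ, {z | z ∈ x.1 ∧ z ∈ R j} := by
      intro z hz
      exact Set.mem_iUnion.2 ⟨z.1, hz, rfl⟩
    have h5 := Cardinal.mk_le_mk_of_subset h4
    rw [← hχ] at h5
    exact absurd h5 (not_le.2 h3)
  refine ⟨⟨S, hSκ⟩, χ, fun i => ZZ ⟨S, hSκ⟩ (f i).1 fun k => ((f i).2 k).1, hκχ, hreg', ?_,
    fun i => hZZ _ _ _, ?_, ?_, ?_⟩
  · change χ < #S
    rw [hS]
    exact Order.lt_succ χ
  · intro a
    obtain ⟨ζ0, hζ0⟩ := h400_bdd hκ K hK.le fun k => (f (a k)).1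
    obtain ⟨ζ, hζ⟩ := exists_gt_MM hκ ζ0
    obtain ⟨i, hi⟩ := hf (ζ, fun l => (f (a (pr.symm l).1)).2 (pr.symm l).2)
    refine ⟨i, ?_⟩
    dsimp only
    rw [hi]
    change Zf pr k0 A (Φ ⟨S, hSκ⟩) ζ _ ⊆ _
    rw [Zf_eq]
    refine Set.inter_subset_left.trans ?_
    refine (Set.iInter_subset _ fun k => ⟨(f (a k)).1, (hζ0 k).trans_lt hζ⟩).trans ?_
    apply le_of_eq
    congr 1
    funext k
    simp only [Equiv.symm_apply_apply]
    rfl
  · have h3 : Set.range (fun i => ZZ ⟨S, hSκ⟩ (f i).1 fun k => ((f i).2 k).1) ⊆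
        Set.range fun z : MM κ × (K → x.1) => ZZ ⟨S, hSκ⟩ z.1 fun k => (z.2 k).1 := by
      rintro _ ⟨i, rfl⟩
      exact ⟨f i, rfl⟩
    exact (Cardinal.mk_le_mk_of_subset h3).trans (Cardinal.mk_range_le.trans hidx)
  · intro S' hS'
    have h3 : ∃ ξ ∈ x.1, ∀ i' ∈ S', ¬ (ZZ ⟨S, hSκ⟩ (f i').1 fun k => ((f i').2 k).1) ⊆ A ξ := by
      by_contra hcon
      push Not at hcon
      have h4 : x.1 ⊆ ⋃ i' : S', {ξ | ξ ∈ x.1 ∧
          (ZZ ⟨S, hSκ⟩ (f i'.1).1 fun k => ((f i'.1).2 k).1) ⊆ A ξ} := by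
        intro ξ hξ
        obtain ⟨i', hi', h5⟩ := hcon ξ hξ
        exact Set.mem_iUnion.2 ⟨⟨i', hi'⟩, hξ, h5⟩
      have h5 := (Cardinal.mk_le_mk_of_subset h4).trans (Cardinal.mk_iUnion_le _)
      have h6 : ∀ i' : S', #{ξ | ξ ∈ x.1 ∧
          (ZZ ⟨S, hSκ⟩ (f i'.1).1 fun k => ((f i'.1).2 k).1) ⊆ A ξ} ≤
            #{z | z ∈ x.1 ∧ z ∈ R j0} := by
        intro i'
        have h7 : ∀ ξ : {ξ | ξ ∈ x.1 ∧
            (ZZ ⟨S, hSκ⟩ (f i'.1).1 fun k => ((f i'.1).2 k).1) ⊆ A ξ},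
            ξ.1 ∈ T fun k => ((f i'.1).2 k).1 := by
          intro ξ
          exact Set.mem_iUnion.2 ⟨(⟨S, hSκ⟩, (f i'.1).1), ξ.2.2⟩
        refine Cardinal.mk_le_of_injective (f := fun ξ =>
          (⟨b (fun k => ((f i'.1).2 k).1) ξ.1, ?_, hb1 _ _ (h7 ξ)⟩ :
            {z | z ∈ x.1 ∧ z ∈ R j0})) ?_
        · have h8 := hx3' _ (hx2' (fun k => ((f i'.1).2 k).1) fun k => ((f i'.1).2 k).2) ξ.1 ξ.2.1
          rw [hdec] at h8
          exact h8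
        · intro ξ ξ' hξξ
          have h8 : b (fun k => ((f i'.1).2 k).1) ξ.1 = b (fun k => ((f i'.1).2 k).1) ξ'.1 :=
            congrArg Subtype.val hξξ
          exact Subtype.ext (hb2 _ _ (h7 ξ) _ (h7 ξ') h8)
      have h7 := h5.trans (mul_le_mul' le_rfl (ciSup_le' h6))
      rw [← hχ] at h7
      exact absurd h7 (not_le.2 (Cardinal.mul_lt_of_lt hχ0 hS' (hlt j0)))
    obtain ⟨ξ, hξ, h4⟩ := h3
    obtain ⟨i, hi⟩ := hf (j0, fun _ => ⟨ξ, hξ⟩)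
    refine ⟨i, fun i' hi' hsub => h4 i' hi' (hsub.trans ?_)⟩
    dsimp only
    rw [hi]
    change Zf pr k0 A (Φ ⟨S, hSκ⟩) j0 _ ⊆ _
    rw [Zf_eq]
    exact Set.inter_subset_right

end Pool.Agent.U66
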