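import Pool.Agent.U66.SDefs

/-!
# Characters of ultrafilters in the language of forcing
-/

set_option autoImplicit false

namespace Pool.Agent.U66

open Cardinal Set Pool.Agent.Helper669.Forcing Pool.Agent.Helper669.K Pool.Agent.R588.S

variable (P : Type) [Preorder P]

/-- In the extension some uniform ultrafilter on `K` has a base indexed by the cardinal `χ`, and
it has no base indexed by a cardinal smaller than `χ`. -/
def HasCharacter (K : Type) (χ : Cardinal.{0}) : Set P :=
  fex fun W : (K → Set P) → Set P => fand (IsUniformUltrafilter W)
    (fand (fex fun B : χ.out → K → Set P => IsBase W B)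
      (fall fun ν : Cardinal.{0} => fall fun _ : ν < χ =>
        fnot (fex fun B : ν.out → K → Set P => IsBase W B)))

/-- In the extension no family of subsets of `K` indexed by `χ` contains all subsets of `K`. -/
def PowerGt (K : Type) (χ : Cardinal.{0}) : Set P :=
  fnot (fex fun X : χ.out → K → Set P => fall fun A : K → Set P =>
    fex fun i => fand (SubN A (X i)) (SubN (X i) A))

/-- Every ground model cardinal `ν > κ` is a cardinal of the extension: no function from a
cardinal `μ` with `κ ≤ μ < ν` to `ν` is onto. -/
def CardinalsAbove (κ : Cardinal.{0}) : Set P :=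
  fall fun μ : Cardinal.{0} => fall fun ν : Cardinal.{0} => fall fun _ : κ ≤ μ =>
    fall fun _ : μ < ν => fnot (fex fun R : μ.out → ν.out → Set P => fand (IsFun R) (IsOnto R))

/-- In the extension some function from a cardinal `ν < χ` to `χ` is unbounded. -/
def SingularN (χ : Cardinal.{0}) : Set P :=
  fex fun ν : Cardinal.{0} => fex fun _ : ν < χ => fex fun R : ν.out → χ.ord.ToType → Set P =>
    fand (IsFun R)
      (fall fun b => fex fun x => fex fun y => fand (fground (b < y)) (meets (R x y)))

end Pool.Agent.U66
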