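import Pool.Agent.U66.Mst

/-!
# The values of named functions
-/

set_option autoImplicit false

namespace Pool.Agent.U66

open Cardinal Set Pool.Agent.Helper669.Forcing Pool.Agent.Helper669.K Pool.Agent.R588.S

variable {κ : Cardinal.{0}} {I K Y T : Type}

/-- the generic function has the value `t` at `l` -/
def vl {L : Type} (l : L) (t : T) : RO (Fn κ L T) := cl {p | p.f l = some t}

theorem mem_vl {L : Type} {l : L} {t : T} {p : Fn κ L T} (h : p.f l = some t) :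
    p ∈ (vl l t : RO (Fn κ L T)) :=
  meets_of_mem h

theorem vl_val {L : Type} {l : L} {t t' : T} {p : Fn κ L T} (h : p ∈ (vl l t : RO (Fn κ L T)))
    (h' : p.f l = some t') : t = t' := by
  obtain ⟨r, hr, s, hs, hrs⟩ := h p le_rfl
  have h1 : s.f l = some t := hs
  have h2 := hrs l t h1
  have h3 := hr l t' h'
  rw [h2] at h3
  exact Option.some.inj h3

theorem exists_val {L : Type} (hκ : ℵ₀ ≤ κ) [Nonempty T] (l : L) (p : Fn κ L T) :
    ∃ q ≤ p, ∃ t, q.f l = some t := by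
  obtain ⟨q, hq, h⟩ := exists_dom hκ p {l} ((lt_aleph0_of_finite _).trans_le hκ)
  exact ⟨q, hq, Fn.mem_supp.1 (h (Set.mem_singleton _))⟩

/-- the set named by `F γ` belongs to the ultrafilter coded at `γ` -/
def Mem (cod : Cod κ K T) (F : NB κ I K T) (γ : K) : RO (PP κ I K T) :=
  cl {q | ∃ t, q.f (none, γ) = some t ∧ {β | q ∈ F γ β} ∈ cod.dU t}

/-- the set coded by the `i`-th function at `γ` is contained in the one named by `F γ` -/
def Sub (cod : Cod κ K T) (i : I) (F : NB κ I K T) (γ : K) : RO (PP κ I K T) :=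
  al fun t => al fun β : cod.dS t => im (vl (some i, γ) t) (F γ β.1)

/-- the `i`-th set is not contained in the `i'`-th one -/
def NS (cod : Cod κ K T) (i i' : I) (γ : K) : RO (PP κ I K T) :=
  al fun t => al fun t' => im (an (vl (some i, γ) t) (vl (some i', γ) t'))
    (gr (¬ cod.dS t ⊆ cod.dS t'))

/-- the `i`-th set belongs to the ultrafilter and is large -/
def MS [LT K] (cod : Cod κ K T) (i : I) (γ : K) : RO (PP κ I K T) :=
  al fun t => al fun t' => im (an (vl (some i, γ) t) (vl (none, γ) t'))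
    (gr (cod.dS t ∈ cod.dU t' ∧ #{k | k < γ} ≤ #(cod.dS t)))

section

variable [LinearOrder K] {V : (PX κ I K Y T → RO (PP κ I K T)) → RO (PP κ I K T)}

omit [LinearOrder K] in
/-- normality for a family indexed by a subset of `Y` -/
theorem normalY (hV : NF κ _ V) (Z : Set Y) (A : Y → PX κ I K Y T → RO (PP κ I K T))
    (p : PP κ I K T) (h : ∀ y ∈ Z, p ∈ V (A y)) :
    p ∈ V fun x => al fun y : {y // y ∈ Z ∩ yS x} => A y.1 x := by
  classical
  have h1 := hV.normal (fun a x => match a with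
    | XY.y y => if y ∈ Z then A y x else gr True
    | _ => gr True) p (by
      intro a
      cases a with
      | t t => exact hV.gmono (hV.fine (XY.t ∅) p) fun _ _ => trivial
      | k k => exact hV.gmono (hV.fine (XY.t ∅) p) fun _ _ => trivial
      | j j => exact hV.gmono (hV.fine (XY.t ∅) p) fun _ _ => trivial
      | w w => exact hV.gmono (hV.fine (XY.t ∅) p) fun _ _ => trivial
      | b b => exact hV.gmono (hV.fine (XY.t ∅) p) fun _ _ => trivial
      | y y =>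
        by_cases hy : y ∈ Z
        · simp only [if_pos hy]
          exact h y hy
        · simp only [if_neg hy]
          exact hV.gmono (hV.fine (XY.t ∅) p) fun _ _ => trivial)
  refine hV.up p _ _ h1 ?_
  intro q _ x hx y
  have h2 := hx ⟨XY.y y.1, y.2.2⟩
  simp only [if_pos y.2.1] at h2
  exact h2

theorem key (hκ : κ.IsRegular) (hV : NF κ _ V) [Nonempty T] {e : PX κ I K Y T → Y → K}
    {cod : Cod κ K T} {u : PX κ I K Y T → T} {β0 : K} {c : I → Set Y}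
    {H : PX κ I K Y T → K → PP κ I K T → PP κ I K T}
    (hT : ∀ p : PP κ I K T, p ∈ V fun x => gr (∃ k0, Typ e cod u β0 c H x k0))
    {W : Ultrafilter Y} (hW : ∀ p : PP κ I K T, p ∈ V fun x =>
      gr (∀ Z, XY.w Z ∈ x.1 → Z ∈ W → imx e x Z ∈ cod.dU (u x)))
    {F : NB κ I K T} {Z : Set Y} (hZ : Z ∈ W) {φ : RO (PP κ I K T)}
    (hφ : ∀ y ∈ Z, V (fun x => str H (fun γ => F γ (e x y)) x) = φ) {i : I} (hi : c i ⊆ Z)
    {p : PP κ I K T} (hp : p ∈ V (str H (Mem cod F))) : p ∈ V (str H (Sub cod i F)) := by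
  classical
  have hκ0 := hκ.aleph0_le
  have h1 : p ∈ φ := by
    refine mem_of_not_neg fun q hq hqn => ?_
    have h2 : ∀ y ∈ Z, q ∈ V fun x => neg (str H (fun γ => F γ (e x y)) x) := by
      intro y hy
      rw [hV.ult, hφ y hy]
      exact hqn
    obtain ⟨x, k0, r, hr, hr1, hx, hd, -, hle, hs⟩ := exists_typ hκ0 hV hT
      (hV.and hκ0 (hV.and hκ0 (normalY hV Z _ q h2) (RO.dn hp hq))
        (hV.and hκ0 (hW q) (hV.gand hκ0 (hV.fine (XY.w Z) q)
          (hV.gand hκ0 (hV.fine (XY.b F) q) (hV.fine (XY.j none) q)))))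
    obtain ⟨⟨g1, g2⟩, g3, g4, g5, g6⟩ := hr1
    have g3' : ∀ Z, XY.w Z ∈ x.1 → Z ∈ W → imx e x Z ∈ cod.dU (u x) := g3
    have g7 := g2 r le_rfl hd k0 hx.1
    obtain ⟨v, hv, s, ⟨t, hst, hs2⟩, hvs⟩ := g7 _ le_rfl
    have h3 : v.f (none, k0) = some (u x) := hv _ _ (hs.nv g6)
    have h4 : t = u x := by
      have h5 := hvs _ _ hst
      rw [h3] at h5
      exact (Option.some.inj h5).symm
    rw [h4] at hs2
    have h5 := g3' Z g4 hZ
    obtain ⟨β, hβ1, hβ2⟩ := Ultrafilter.nonempty_of_mem (Filter.inter_mem hs2 h5)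
    obtain ⟨y, hy, rfl⟩ := hβ2
    have h6 : v ∈ F k0 (e x y) := RO.dn hβ1 hvs
    have h7 : H x k0 (rs (dm x) r) ∈ F k0 (e x y) := by
      rcases hs.dec F g5 (e x y) (Set.mem_insert_of_mem _ ⟨y, ⟨trivial, hy.2⟩, rfl⟩) with h | h
      · exact h
      · exact absurd h6 (h v hv)
    refine g1 ⟨y, hy⟩ r le_rfl fun r' hr' hd' k1 hk1 => ?_
    rw [rs_eq hr' hd, ← hx.1.uniq hk1]
    exact h7
  have h2 : ∀ y ∈ Z, p ∈ V fun x => str H (fun γ => F γ (e x y)) x := by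
    intro y hy
    rw [hφ y hy]
    exact h1
  refine hV.up p _ _ (hV.and hκ0 (hV.and hκ0 (normalY hV Z _ p h2) (hT p))
    (hV.fine (XY.j (some i)) p)) ?_
  rintro q hq x ⟨⟨g1, k1, hk1⟩, g2⟩ r hr hd k0 hk0
  have h3 : k1 = k0 := hk1.1.uniq hk0
  subst h3
  intro t β v hv hvt
  have hs := hk1.2 _ (rs_supp (Z := dm x) (p := r))
  have h4 := hv _ _ (hs.sv i g2)
  have h5 := vl_val hvt h4
  obtain ⟨β, hβ⟩ := β
  rw [h5, cod.hS _ (small_imx e x _)] at hβ
  obtain ⟨y, hy, rfl⟩ := hβ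
  exact RO.dn (g1 ⟨y, hi hy.1, hy.2⟩ r hr hd k1 hk0) hv

theorem most_NS (hκ : κ.IsRegular) (hV : NF κ _ V) [Nonempty T] {e : PX κ I K Y T → Y → K}
    (he : ∀ x, Set.InjOn (e x) (yS x))
    {cod : Cod κ K T} {u : PX κ I K Y T → T} {β0 : K} {c : I → Set Y}
    {H : PX κ I K Y T → K → PP κ I K T → PP κ I K T}
    (hT : ∀ p : PP κ I K T, p ∈ V fun x => gr (∃ k0, Typ e cod u β0 c H x k0))
    {i i' : I} (hi : ¬ c i ⊆ c i') (p : PP κ I K T) : p ∈ V (str H (NS cod i i')) := by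
  classical
  have hκ0 := hκ.aleph0_le
  obtain ⟨y, hy, hy'⟩ := Set.not_subset.1 hi
  refine hV.up p _ _ (hV.and hκ0 (hV.and hκ0 (hV.fine (XY.y y) p) (hT p))
    (hV.and hκ0 (hV.fine (XY.j (some i)) p) (hV.fine (XY.j (some i')) p))) ?_
  rintro q hq x ⟨⟨g1, k1, hk1⟩, g2, g3⟩ r hr hd k0 hk0
  have h3 : k1 = k0 := hk1.1.uniq hk0
  subst h3
  intro t t' v hv hvt
  have hs := hk1.2 _ (rs_supp (Z := dm x) (p := r))
  have h5 := vl_val hvt.1 (hv _ _ (hs.sv i g2))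
  have h5' := vl_val hvt.2 (hv _ _ (hs.sv i' g3))
  intro hsub
  rw [h5, h5', cod.hS _ (small_imx e x _), cod.hS _ (small_imx e x _)] at hsub
  obtain ⟨z, hz, hzy⟩ := hsub ⟨y, ⟨hy, g1⟩, rfl⟩
  exact hy' (he x hz.2 g1 hzy ▸ hz.1)

theorem most_MS (hκ : κ.IsRegular) (hV : NF κ _ V) [Nonempty T] {e : PX κ I K Y T → Y → K}
    (he : ∀ x, Set.InjOn (e x) (yS x))
    {cod : Cod κ K T} {u : PX κ I K Y T → T} {β0 : K} {c : I → Set Y}
    {H : PX κ I K Y T → K → PP κ I K T → PP κ I K T}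
    (hT : ∀ p : PP κ I K T, p ∈ V fun x => gr (∃ k0, Typ e cod u β0 c H x k0))
    {W : Ultrafilter Y} (hW : ∀ p : PP κ I K T, p ∈ V fun x =>
      gr (∀ Z, XY.w Z ∈ x.1 → Z ∈ W → imx e x Z ∈ cod.dU (u x)))
    {i : I} (hi : c i ∈ W) (j : K ↪ Y) (hj : ∀ k, j k ∈ c i) (p : PP κ I K T) :
    p ∈ V (str H (MS cod i)) := by
  classical
  have hκ0 := hκ.aleph0_le
  have hc := close1 hV p (fun a => match a with
    | XY.k k => XY.y (j k)
    | a => a)
  refine hV.up p _ _ (hV.and hκ0 (hV.and hκ0 (hV.and hκ0 (hV.fine (XY.w (c i)) p) (hT p)) hc)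
    (hV.and hκ0 (hV.and hκ0 (hV.fine (XY.j (some i)) p) (hV.fine (XY.j none) p)) (hW p))) ?_
  rintro q hq x ⟨⟨⟨g1, k1, hk1⟩, g4⟩, ⟨g2, g3⟩, g5⟩ r hr hd k0 hk0
  have h3 : k1 = k0 := hk1.1.uniq hk0
  subst h3
  intro t t' v hv hvt
  have hs := hk1.2 _ (rs_supp (Z := dm x) (p := r))
  have h5 := vl_val hvt.1 (hv _ _ (hs.sv i g2))
  have h5' := vl_val hvt.2 (hv _ _ (hs.nv g3))
  change cod.dS t ∈ cod.dU t' ∧ #{k | k < k1} ≤ #(cod.dS t)
  rw [h5, h5', cod.hS _ (small_imx e x _)]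
  refine ⟨g5 _ g1 hi, ?_⟩
  have h6 : ∀ k : {k | k < k1}, j k.1 ∈ c i ∩ yS x := fun k =>
    ⟨hj k.1, g4 _ ((hk0.1 k.1).2 k.2)⟩
  refine Cardinal.mk_le_of_injective (f := fun k : {k | k < k1} =>
    (⟨e x (j k.1), j k.1, h6 k, rfl⟩ : imx e x (c i))) ?_
  intro k k' hkk
  have h7 : e x (j k.1) = e x (j k'.1) := congrArg Subtype.val hkk
  exact Subtype.ext (j.injective (he x (h6 k).2 (h6 k').2 h7))

end

end Pool.Agent.U66
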