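import Pool.Agent.R588.S.Ext
import Pool.Agent.U66.Val

/-!
# The ultrafilter of the Prikry extension
-/

set_option autoImplicit false

namespace Pool.Agent.U66

open Cardinal Set Pool.Agent.Helper669.Forcing Pool.Agent.Helper669.K Pool.Agent.R588.S

variable {κ : Cardinal.{0}} {I K T : Type} [LinearOrder K]
  {U : (K → RO (PP κ I K T)) → RO (PP κ I K T)}

/-- strengthen the first coordinate -/
def ext (r : PQ U) (p : PP κ I K T) (h : p ≤ r.p) : PQ U := ⟨p, r.s, r.A, RO.dn r.h h⟩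

theorem ext_le (r : PQ U) (p : PP κ I K T) (h : p ≤ r.p) : ext r p h ≤ r :=
  ⟨h, Finset.Subset.refl _, fun _ h h' => absurd h h', fun _ _ _ hu => hu⟩

/-- shrink the measure one set -/
def shr (hκ : ℵ₀ ≤ κ) (hU : Meas κ U) (r : PQ U) (A : K → RO (PP κ I K T))
    (h : r.p ∈ U A) : PQ U := ⟨r.p, r.s, fun γ => an (r.A γ) (A γ), hU.and hκ r.h h⟩

theorem shr_le (hκ : ℵ₀ ≤ κ) (hU : Meas κ U) (r : PQ U) (A : K → RO (PP κ I K T))
    (h : r.p ∈ U A) : shr hκ hU r A h ≤ r :=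
  ⟨le_rfl, Finset.Subset.refl _, fun _ h h' => absurd h h', fun _ _ _ hu => hu.1⟩

theorem exists_valQ (hκ : ℵ₀ ≤ κ) [Nonempty T] (q : PQ U) (l : Option I × K) :
    ∃ r ≤ q, r.s = q.s ∧ ∃ t, r.p.f l = some t := by
  obtain ⟨p, hp, t, ht⟩ := exists_val hκ l q.p
  exact ⟨ext q p hp, ext_le q p hp, rfl, t, ht⟩

theorem exists_gen (hκ : ℵ₀ ≤ κ) [Nonempty K] (hU : Meas κ U) (q : PQ U) (n : ℕ) :
    ∃ r ≤ q, ∃ γ, r ∈ genR U n γ := by
  obtain ⟨r, hr, γ, hγ⟩ := IsFun.total (isFun_genR hκ hU q) n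
  obtain ⟨r', hr', s, hs, hrs⟩ := hγ r le_rfl
  exact ⟨r', hr'.trans hr, γ, genR_down _ hs _ hrs⟩

theorem gen_uniq (hκ : ℵ₀ ≤ κ) [Nonempty K] (hU : Meas κ U) {q : PQ U} {n : ℕ} {γ γ' : K}
    (h : q ∈ genR U n γ) (h' : q ∈ genR U n γ') : γ = γ' :=
  IsFun.unique (isFun_genR hκ hU q) (meets_of_mem h) (meets_of_mem h')

theorem gen_uniq' {q : PQ U} {n n' : ℕ} {γ : K}
    (h : q ∈ genR U n γ) (h' : q ∈ genR U n' γ) : n = n' := by
  have h1 := h.2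
  have h2 := h'.2
  omega

/-- the `n`-th section of `S` belongs to the ultrafilter coded at the `n`-th point -/
def MS1 (cod : Cod κ K T) (n : ℕ) (S : K → K → RO (PQ U)) : Set (PQ U) :=
  {q | ∃ γ, q ∈ genR U n γ ∧ ∃ t, q.p.f (none, γ) = some t ∧ {β | q ∈ S γ β} ∈ cod.dU t}

/-- the corresponding truth value -/
def MN (cod : Cod κ K T) (n : ℕ) (S : K → K → RO (PQ U)) : RO (PQ U) := cl (MS1 cod n S)

theorem MS1_down {cod : Cod κ K T} {n : ℕ} {S : K → K → RO (PQ U)} {q r : PQ U}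
    (h : q ∈ MS1 cod n S) (hr : r ≤ q) : r ∈ MS1 cod n S := by
  obtain ⟨γ, h1, t, h2, h3⟩ := h
  exact ⟨γ, genR_down _ h1 _ hr, t, hr.1 _ _ h2,
    Filter.mem_of_superset h3 fun β hβ => RO.dn hβ hr⟩

theorem exists_MS1 {cod : Cod κ K T} {n : ℕ} {S : K → K → RO (PQ U)} {q : PQ U}
    (h : q ∈ MN cod n S) : ∃ r ≤ q, r ∈ MS1 cod n S := by
  obtain ⟨r, hr, s, hs, hrs⟩ := h q le_rfl
  exact ⟨r, hr, MS1_down hs hrs⟩

theorem MN_mono {cod : Cod κ K T} {n : ℕ} {S S' : K → K → RO (PQ U)} {q : PQ U}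
    (hS : ∀ r ≤ q, ∀ γ β, r ∈ S γ β → r ∈ S' γ β) (h : q ∈ MN cod n S) : q ∈ MN cod n S' := by
  refine RO.rg fun r hr => ?_
  obtain ⟨r', hr', h1⟩ := exists_MS1 (RO.dn h hr)
  obtain ⟨γ, h2, t, h3, h4⟩ := h1
  refine ⟨r', hr', meets_of_mem ⟨γ, h2, t, h3, ?_⟩⟩
  exact Filter.mem_of_superset h4 fun β hβ => hS r' (hr'.trans hr) γ β hβ

theorem MN_and (hκ : ℵ₀ ≤ κ) [Nonempty K] (hU : Meas κ U) {cod : Cod κ K T} {n : ℕ}
    {S S' : K → K → RO (PQ U)} {q : PQ U} (h : q ∈ MN cod n S) (h' : q ∈ MN cod n S') :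
    q ∈ MN cod n fun γ β => an (S γ β) (S' γ β) := by
  refine RO.rg fun r hr => ?_
  obtain ⟨r1, hr1, h1⟩ := exists_MS1 (RO.dn h hr)
  obtain ⟨r2, hr2, h2⟩ := exists_MS1 (RO.dn h' (hr1.trans hr))
  have h3 := MS1_down h1 hr2
  obtain ⟨γ, g1, t, g2, g3⟩ := h3
  obtain ⟨γ', k1, t', k2, k3⟩ := h2
  have h4 := gen_uniq hκ hU g1 k1
  subst h4
  have h5 : t = t' := by
    rw [g2] at k2
    exact Option.some.inj k2
  subst h5
  refine ⟨r2, hr2.trans hr1, meets_of_mem ⟨γ, g1, t, g2, ?_⟩⟩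
  exact Filter.mem_of_superset (Filter.inter_mem g3 k3) fun β hβ => hβ

theorem not_MN_false {cod : Cod κ K T} {n : ℕ} {S : K → K → RO (PQ U)} {q : PQ U}
    (hS : ∀ r ≤ q, ∀ γ β, r ∉ S γ β) : q ∉ MN cod n S := by
  intro h
  obtain ⟨r, hr, γ, -, t, -, h3⟩ := exists_MS1 h
  obtain ⟨β, hβ⟩ := Ultrafilter.nonempty_of_mem h3
  exact hS r hr γ β hβ

theorem neg_MN (hκ : ℵ₀ ≤ κ) [Nonempty K] (hU : Meas κ U) {cod : Cod κ K T} {n : ℕ}
    {S : K → K → RO (PQ U)} {q : PQ U} {γ : K} {t : T} (h1 : q ∈ genR U n γ)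
    (h2 : q.p.f (none, γ) = some t) {E : Set K} (hE : E ∈ cod.dU t)
    (h3 : ∀ β ∈ E, q ∈ S γ β ∨ q ∈ neg (S γ β)) (h4 : {β | q ∈ S γ β} ∉ cod.dU t) :
    q ∈ neg (MN cod n S) := by
  intro r hr h
  obtain ⟨r', hr', γ', g1, t', g2, g3⟩ := exists_MS1 h
  have h5 := gen_uniq hκ hU g1 (genR_down _ h1 _ (hr'.trans hr))
  subst h5
  have h6 : t' = t := by
    have h7 := (hr'.trans hr).1 _ _ h2
    rw [g2] at h7
    exact Option.some.inj h7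
  subst h6
  refine h4 (Filter.mem_of_superset (Filter.inter_mem g3 hE) ?_)
  rintro β ⟨hβ1, hβ2⟩
  rcases h3 β hβ2 with h | h
  · exact h
  · exact absurd hβ1 (h r' (hr'.trans hr))

section

variable (hdist : ∀ (J : Type) (D : J → Set (PP κ I K T)), #J < κ → (∀ j, Down (D j)) →
  (∀ j q, ∃ q' ≤ q, q' ∈ D j) → ∀ q, ∃ q' ≤ q, ∀ j, q' ∈ D j)

include hdist

/-- decide a section of `S` -/
theorem decide_sec (hκ : ℵ₀ ≤ κ) [Nonempty K] [Nonempty T] (hU : Meas κ U) (cod : Cod κ K T)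
    (S : K → K → RO (PQ U)) (γ : K) (q : PQ U) : ∃ r ≤ q, r.s = q.s ∧ ∃ t,
      r.p.f (none, γ) = some t ∧ ∃ E ∈ cod.dU t, ∀ β ∈ E, r ∈ S γ β ∨ r ∈ neg (S γ β) := by
  obtain ⟨r1, hr1, h1, t, ht⟩ := exists_valQ hκ q (none, γ)
  obtain ⟨E, hE, hEκ⟩ := cod.sm t
  obtain ⟨r2, hr2, h2, h3⟩ := decide_few hκ hU hdist (J := E) hEκ (fun β => S γ β.1) r1
  exact ⟨r2, hr2.trans hr1, h2.trans h1, t, hr2.1 _ _ ht, E, hE, fun β hβ => h3 ⟨β, hβ⟩⟩

theorem MN_of_neg (hκ : ℵ₀ ≤ κ) [Nonempty K] [Nonempty T] (hU : Meas κ U) {cod : Cod κ K T}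
    {n : ℕ} {S : K → K → RO (PQ U)} {q : PQ U} (h : q ∈ neg (MN cod n S)) :
    q ∈ MN cod n fun γ β => neg (S γ β) := by
  refine RO.rg fun r hr => ?_
  obtain ⟨r1, hr1, γ, hγ⟩ := exists_gen hκ hU r n
  obtain ⟨r2, hr2, -, t, ht, E, hE, h3⟩ := decide_sec hdist hκ hU cod S γ r1
  refine ⟨r2, hr2.trans hr1, meets_of_mem ⟨γ, genR_down _ hγ _ hr2, t, ht, ?_⟩⟩
  have h4 : {β | r2 ∈ S γ β} ∉ cod.dU t := by
    intro h5
    exact h r2 (hr2.trans (hr1.trans hr)) (meets_of_mem ⟨γ, genR_down _ hγ _ hr2, t, ht, h5⟩)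
  rw [← Ultrafilter.compl_mem_iff_notMem] at h4
  refine Filter.mem_of_superset (Filter.inter_mem h4 hE) ?_
  rintro β ⟨hβ1, hβ2⟩
  exact (h3 β hβ2).resolve_left hβ1

end

/-- the named ultrafilter on `K × K` -/
def WR (cod : Cod κ K T) (D : Ultrafilter ℕ) (S : K → K → RO (PQ U)) : RO (PQ U) :=
  cl {q | {n | q ∈ MN cod n S} ∈ D}

theorem exists_WR {cod : Cod κ K T} {D : Ultrafilter ℕ} {S : K → K → RO (PQ U)} {q : PQ U}
    (h : q ∈ WR cod D S) : ∃ r ≤ q, {n | r ∈ MN cod n S} ∈ D := by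
  obtain ⟨r, hr, s, hs, hrs⟩ := h q le_rfl
  exact ⟨r, hr, Filter.mem_of_superset hs fun n hn => RO.dn (φ := MN cod n S) hn hrs⟩

theorem WR_mono {cod : Cod κ K T} {D : Ultrafilter ℕ} {S S' : K → K → RO (PQ U)} {q : PQ U}
    (hS : ∀ r ≤ q, ∀ γ β, r ∈ S γ β → r ∈ S' γ β) (h : q ∈ WR cod D S) : q ∈ WR cod D S' := by
  refine RO.rg fun r hr => ?_
  obtain ⟨r', hr', h1⟩ := exists_WR (RO.dn h hr)
  refine ⟨r', hr', meets_of_mem (Filter.mem_of_superset h1 fun n hn => ?_)⟩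
  exact MN_mono (fun v hv => hS v (hv.trans (hr'.trans hr))) hn

theorem WR_and (hκ : ℵ₀ ≤ κ) [Nonempty K] (hU : Meas κ U) {cod : Cod κ K T} {D : Ultrafilter ℕ}
    {S S' : K → K → RO (PQ U)} {q : PQ U} (h : q ∈ WR cod D S) (h' : q ∈ WR cod D S') :
    q ∈ WR cod D fun γ β => an (S γ β) (S' γ β) := by
  refine RO.rg fun r hr => ?_
  obtain ⟨r1, hr1, h1⟩ := exists_WR (RO.dn h hr)
  obtain ⟨r2, hr2, h2⟩ := exists_WR (RO.dn h' (hr1.trans hr))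
  refine ⟨r2, hr2.trans hr1, meets_of_mem (Filter.mem_of_superset (Filter.inter_mem h1 h2) ?_)⟩
  rintro n ⟨hn1, hn2⟩
  exact MN_and hκ hU (RO.dn hn1 hr2) hn2

theorem not_WR_false {cod : Cod κ K T} {D : Ultrafilter ℕ} {S : K → K → RO (PQ U)} {q : PQ U}
    (hS : ∀ r ≤ q, ∀ γ β, r ∉ S γ β) : q ∉ WR cod D S := by
  intro h
  obtain ⟨r, hr, h1⟩ := exists_WR h
  obtain ⟨n, hn⟩ := Ultrafilter.nonempty_of_mem h1
  exact not_MN_false (fun v hv => hS v (hv.trans hr)) hn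

/-- few truth values of sections are decided by strengthening -/
theorem decide_MN (hκ : ℵ₀ < κ) [Nonempty K] (hU : Meas κ U)
    (hdist : ∀ (J : Type) (D : J → Set (PP κ I K T)), #J < κ → (∀ j, Down (D j)) →
      (∀ j q, ∃ q' ≤ q, q' ∈ D j) → ∀ q, ∃ q' ≤ q, ∀ j, q' ∈ D j) (cod : Cod κ K T)
    (S : K → K → RO (PQ U)) (q : PQ U) :
    ∃ r ≤ q, ∀ n, r ∈ MN cod n S ∨ r ∈ neg (MN cod n S) := by
  obtain ⟨r, hr, -, h⟩ := decide_few hκ.le hU hdist (J := ℕ) (by simpa using hκ)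
    (fun n => MN cod n S) q
  exact ⟨r, hr, h⟩

theorem WR_of_neg (hκ : ℵ₀ < κ) [Nonempty K] [Nonempty T] (hU : Meas κ U)
    (hdist : ∀ (J : Type) (D : J → Set (PP κ I K T)), #J < κ → (∀ j, Down (D j)) →
      (∀ j q, ∃ q' ≤ q, q' ∈ D j) → ∀ q, ∃ q' ≤ q, ∀ j, q' ∈ D j) {cod : Cod κ K T}
    {D : Ultrafilter ℕ} {S : K → K → RO (PQ U)} {q : PQ U} (h : q ∈ neg (WR cod D S)) :
    q ∈ WR cod D fun γ β => neg (S γ β) := by
  refine RO.rg fun r hr => ?_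
  obtain ⟨r1, hr1, h1⟩ := decide_MN hκ hU hdist cod S r
  refine ⟨r1, hr1, meets_of_mem ?_⟩
  have h2 : {n | r1 ∈ MN cod n S} ∉ D := fun h3 => h r1 (hr1.trans hr) (meets_of_mem h3)
  rw [← Ultrafilter.compl_mem_iff_notMem] at h2
  refine Filter.mem_of_superset h2 fun n hn => ?_
  exact MN_of_neg hdist hκ.le hU ((h1 n).resolve_left hn)

/-! ### The ultrafilter on `K` -/

/-- the subset of `K × K` given by a named subset of `K` -/
def un (pr : K × K ≃ K) (A : K → Set (PQ U)) (γ β : K) : RO (PQ U) := cl (A (pr (γ, β)))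

/-- the named ultrafilter on `K` -/
def Wn (cod : Cod κ K T) (D : Ultrafilter ℕ) (pr : K × K ≃ K) (A : K → Set (PQ U)) :
    Set (PQ U) := (WR cod D (un pr A)).c

theorem meets_Wn (cod : Cod κ K T) (D : Ultrafilter ℕ) (pr : K × K ≃ K) (A : K → Set (PQ U)) :
    meets (Wn cod D pr A) = (WR cod D (un pr A)).c := meets_c _

/-- the sentence `A ⊆ B` for named subsets of `K` -/
theorem mem_SubN {A B : K → Set (PQ U)} {q : PQ U} :
    q ∈ SubN A B ↔ ∀ r ≤ q, ∀ a, r ∈ meets (A a) → r ∈ meets (B a) := by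
  constructor
  · intro h r hr a ha
    refine RO.rg (φ := cl (B a)) fun v hv => ?_
    obtain ⟨v', hv', h1⟩ := mem_fimp.1 (h a) v (hv.trans hr) (down_meets _ _ ha _ hv)
    exact ⟨v', hv', h1⟩
  · intro h a
    rw [mem_fimp]
    intro r hr ha
    exact ⟨r, le_rfl, h r hr a ha⟩

theorem Wn_up (cod : Cod κ K T) (D : Ultrafilter ℕ) (pr : K × K ≃ K) (q : PQ U) :
    q ∈ (fall fun A => fall fun B => fimp (fand (meets (Wn cod D pr A)) (SubN A B))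
      (meets (Wn cod D pr B)) : Set (PQ U)) := by
  intro A B
  rw [mem_fimp]
  rintro r - ⟨h1, h2⟩
  refine ⟨r, le_rfl, ?_⟩
  rw [meets_Wn] at h1 ⊢
  rw [mem_SubN] at h2
  exact WR_mono (fun v hv γ β h => h2 v hv _ h) h1

theorem Wn_ult (hκ : ℵ₀ < κ) [Nonempty K] [Nonempty T] (hU : Meas κ U)
    (hdist : ∀ (J : Type) (D : J → Set (PP κ I K T)), #J < κ → (∀ j, Down (D j)) →
      (∀ j q, ∃ q' ≤ q, q' ∈ D j) → ∀ q, ∃ q' ≤ q, ∀ j, q' ∈ D j)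
    (cod : Cod κ K T) (D : Ultrafilter ℕ) (pr : K × K ≃ K) (q : PQ U) :
    q ∈ (fall fun A => fand (fimp (meets (Wn cod D pr A)) (fnot (meets (Wn cod D pr (nCompl A)))))
        (fimp (fnot (meets (Wn cod D pr A))) (meets (Wn cod D pr (nCompl A)))) : Set (PQ U)) := by
  intro A
  have hneg : ∀ γ β, ∀ r, r ∈ un pr (nCompl A) γ β ↔ r ∈ neg (un (U := U) pr A γ β) := by
    intro γ β r
    have h1 : meets (nCompl A (pr (γ, β))) = (neg (un (U := U) pr A γ β)).c := by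
      rw [← meets_c]
      rfl
    unfold un
    rw [mem_cl, h1]
    exact Iff.rfl
  constructor
  · rw [mem_fimp]
    intro r _ h1
    refine ⟨r, le_rfl, fun v hv h2 => ?_⟩
    rw [meets_Wn] at h1 h2
    refine not_WR_false ?_ (WR_and hκ.le hU (RO.dn (φ := WR cod D (un pr A)) h1 hv) h2)
    rintro w - γ β ⟨h3, h4⟩
    exact not_both h3 ((hneg γ β w).1 h4)
  · rw [mem_fimp]
    intro r _ h1
    refine ⟨r, le_rfl, ?_⟩
    rw [meets_Wn]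
    have h2 : r ∈ neg (WR cod D (un (U := U) pr A)) := by
      intro v hv h3
      refine h1 v hv ?_
      rw [meets_Wn]
      exact h3
    refine WR_mono (fun v _ γ β h => (hneg γ β v).2 h) (WR_of_neg hκ hU hdist h2)

theorem Wn_and (hκ : ℵ₀ ≤ κ) [Nonempty K] (hU : Meas κ U)
    (cod : Cod κ K T) (D : Ultrafilter ℕ) (pr : K × K ≃ K) (q : PQ U) :
    q ∈ (fall fun A => fall fun B => fimp (fand (meets (Wn cod D pr A)) (meets (Wn cod D pr B)))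
      (meets (Wn cod D pr fun a => fand (meets (A a)) (meets (B a)))) : Set (PQ U)) := by
  intro A B
  rw [mem_fimp]
  rintro r - ⟨h1, h2⟩
  refine ⟨r, le_rfl, ?_⟩
  rw [meets_Wn] at h1 h2 ⊢
  refine WR_mono (fun v _ γ β h => ?_) (WR_and hκ hU (D := D) h1 h2)
  exact meets_of_mem ⟨h.1, h.2⟩

end Pool.Agent.U66
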