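import Pool.Agent.U66.Fin1

/-!
# A base of the ultrafilter
-/

set_option autoImplicit false

namespace Pool.Agent.U66

open Cardinal Set Pool.Agent.Helper669.Forcing Pool.Agent.Helper669.K Pool.Agent.R588.S

variable {κ : Cardinal.{0}} {I K T : Type} [LinearOrder K]
  {U : (K → RO (PP κ I K T)) → RO (PP κ I K T)}

/-- the sets coded by the `i`-th function at the points with index in `N` -/
def BsS (U : (K → RO (PP κ I K T)) → RO (PP κ I K T)) (cod : Cod κ K T) (i : I) (N : Set ℕ)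
    (γ β : K) : Set (PQ U) :=
  {q | ∃ n ∈ N, q ∈ genR U n γ ∧ ∃ t, q.p.f (some i, γ) = some t ∧ β ∈ cod.dS t}

/-- the corresponding truth value -/
def Bs (U : (K → RO (PP κ I K T)) → RO (PP κ I K T)) (cod : Cod κ K T) (i : I) (N : Set ℕ)
    (γ β : K) : RO (PQ U) := cl (BsS U cod i N γ β)

theorem BsS_down {cod : Cod κ K T} {i : I} {N : Set ℕ} {γ β : K} {q r : PQ U}
    (h : q ∈ BsS U cod i N γ β) (hr : r ≤ q) : r ∈ BsS U cod i N γ β := by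
  obtain ⟨n, hn, h1, t, h2, h3⟩ := h
  exact ⟨n, hn, genR_down _ h1 _ hr, t, hr.1 _ _ h2, h3⟩

theorem exists_BsS {cod : Cod κ K T} {i : I} {N : Set ℕ} {γ β : K} {q : PQ U}
    (h : q ∈ Bs U cod i N γ β) : ∃ r ≤ q, r ∈ BsS U cod i N γ β := by
  obtain ⟨r, hr, s, hs, hrs⟩ := h q le_rfl
  exact ⟨r, hr, BsS_down hs hrs⟩

/-- homogeneity for a truth value -/
theorem exists_homog (hκ : ℵ₀ ≤ κ) [Nonempty K] (hU : Meas κ U) (D : RO (PQ U)) :
    ∃ A : K → RO (PP κ I K T), (∀ p, p ∈ U A) ∧ ∀ (r : PQ U) (t : Finset K), t ⊆ r.s →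
      (∀ γ ∈ r.s, γ ∉ t → (∀ δ ∈ t, δ < γ) ∧ r.p ∈ A γ) → r ∈ D → r.p ∈ Ex D t := by
  classical
  refine ⟨fun γ => al fun t : {t : Finset K // ∀ a ∈ t, a < γ} =>
      iv (Ex D (insert γ t.1)) (U fun γ' => Ex D (insert γ' t.1)), fun p =>
      hU.diag (fun t γ => iv (Ex D (insert γ t)) (U fun γ' => Ex D (insert γ' t))) p
      (fun t => hU.homog _ p), fun r t ht hr hrD => ?_⟩
  refine stem_ind (s := t) (c := r.s) (fun γ hγ hγ' => (hr γ hγ hγ').1)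
    (fun v => r.p ∈ Ex D v → r.p ∈ Ex D t) (fun h => h) ?_ _ r.s ht (Finset.Subset.refl _) rfl
    (Ex_of_mem hrD)
  intro v γ hγ hγ' hv ih h1
  have h2 := mem_iv.1 ((hr γ hγ hγ').2 ⟨v, hv⟩) r.p le_rfl
  exact ih (fusion hκ hU D v r.p (h2.1 h1))

theorem card_filter_lt {s : Finset K} {γ : K} (h : γ ∈ s) :
    (s.filter (· < γ)).card < s.card := by
  apply Finset.card_lt_card
  rw [Finset.ssubset_iff_of_subset (Finset.filter_subset _ _)]
  exact ⟨γ, h, fun h' => lt_irrefl _ (Finset.mem_filter.1 h').2⟩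

/-- a late point is not in the old stem -/
theorem late_point {q r : PQ U} (hr : r ≤ q) {n : ℕ} {γ : K} (hγ : r ∈ genR U n γ)
    (hn : q.s.card ≤ n) : γ ∉ q.s := by
  intro h
  have h1 : r.s.filter (· < γ) = q.s.filter (· < γ) := by
    ext a
    simp only [Finset.mem_filter]
    constructor
    · rintro ⟨h2, h3⟩
      refine ⟨?_, h3⟩
      by_contra h4
      exact absurd ((hr.2.2.1 a h2 h4).1 γ h) (not_lt.2 h3.le)
    · rintro ⟨h2, h3⟩
      exact ⟨hr.2.1 h2, h3⟩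
  have h2 := hγ.2
  rw [h1] at h2
  have h3 := card_filter_lt h
  omega

theorem exists_base (hκ : κ.IsRegular) [Nonempty K] [Nonempty T]
    (hK : #K = κ) (hU : Meas κ U)
    (hdist : ∀ (J : Type) (D : J → Set (PP κ I K T)), #J < κ → (∀ j, Down (D j)) →
      (∀ j q, ∃ q' ≤ q, q' ∈ D j) → ∀ q, ∃ q' ≤ q, ∀ j, q' ∈ D j)
    (cod : Cod κ K T) {Y : Type} (c : I → Set Y)
    (hB : ∀ (S : Type) (G : S → NB κ I K T), #S ≤ κ → ∃ i, ∀ i', c i' ⊆ c i → ∀ s, ∀ p,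
      p ∈ U (Mem cod (G s)) → p ∈ U (Sub cod i' (G s)))
    (R : Set I) (hR : ∀ i, ∃ i' ∈ R, c i' ⊆ c i) (D : Ultrafilter ℕ)
    (hD : ∀ m : ℕ, {n | m ≤ n} ∈ D) (S : K → K → RO (PQ U)) (q : PQ U) (hq : q ∈ WR cod D S) :
    ∃ q' ≤ q, ∃ i ∈ R, ∃ N ∈ D, ∀ γ β, q' ∈ im (Bs U cod i N γ β) (S γ β) := by
  classical
  have hκ0 := hκ.aleph0_le
  obtain ⟨q0, hq0, hN0⟩ := exists_WR hq
  -- the names
  have hKinf : Infinite K := by
    rw [Cardinal.infinite_iff, hK]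
    exact hκ0
  obtain ⟨i0, hi0⟩ := hB (Finset K) (fun s γ β => Ex (S γ β) (insert γ s)) (by
    rw [Cardinal.mk_finset_of_infinite, hK])
  obtain ⟨i, hiR, hi⟩ := hR i0
  have hsub := hi0 i hi
  have himp : ∀ (s : Finset K) (p : PP κ I K T), p ∈ U fun γ =>
      im (Mem cod (fun γ β => Ex (S γ β) (insert γ s)) γ)
        (Sub cod i (fun γ β => Ex (S γ β) (insert γ s)) γ) := by
    intro s p
    refine RO.rg fun p1 _ => ?_
    obtain ⟨p2, hp2, h | h⟩ := em (U (Mem cod (fun γ β => Ex (S γ β) (insert γ s)))) p1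
    · refine ⟨p2, hp2, hU.up p2 _ _ (hsub s p2 h) fun v _ γ hγ w hw _ => RO.dn hγ hw⟩
    · refine ⟨p2, hp2, hU.up p2 _ _ ((hU.ult p2 _).2 h) fun v _ γ hγ w hw hw' => ?_⟩
      exact absurd hw' (hγ w hw)
  have hhom := fun γ β => exists_homog hκ0 hU (neg (S γ β))
  choose AD hAD1 hAD2 using hhom
  -- the measure one sets
  let A1 : K → RO (PP κ I K T) := fun γ => al fun s : {s : Finset K // ∀ a ∈ s, a < γ} =>
    im (Mem cod (fun γ β => Ex (S γ β) (insert γ s.1)) γ)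
      (Sub cod i (fun γ β => Ex (S γ β) (insert γ s.1)) γ)
  have hA1 : ∀ p, p ∈ U A1 := fun p => hU.diag (fun s γ =>
    im (Mem cod (fun γ β => Ex (S γ β) (insert γ s)) γ)
      (Sub cod i (fun γ β => Ex (S γ β) (insert γ s)) γ)) p fun s => himp s p
  let A2 : K → K → RO (PP κ I K T) := fun γ γ' => al fun t : T => al fun β : cod.dS t =>
    im (vl (some i, γ) t) (AD γ β.1 γ')
  have hA2 : ∀ γ p, p ∈ U (A2 γ) := by
    intro γ p
    refine RO.rg fun p1 _ => ?_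
    obtain ⟨p2, hp2, t, ht⟩ := exists_val hκ0 (some i, γ) p1
    refine ⟨p2, hp2, ?_⟩
    have h1 := hU.inter (cod.dS t) (fun β => AD γ β.1) p2 (cod.smS t) fun β => hAD1 γ β.1 p2
    refine hU.up p2 _ _ h1 fun v hv γ' hγ' t' β w hw hwt => ?_
    have h2 : t' = t := vl_val hwt (hw _ _ (hv _ _ ht))
    subst h2
    exact RO.dn (hγ' β) hw
  have hA3 : ∀ p, p ∈ U fun γ' => al fun k : {k // k < γ'} => A2 k.1 γ' := fun p =>
    hU.diagK hκ0 fun k => hA2 k p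
  obtain ⟨q1, hq1⟩ : ∃ q1, q1 = shr hκ0 hU (shr hκ0 hU q0 A1 (hA1 _)) _ (hA3 _) := ⟨_, rfl⟩
  have hq10 : q1 ≤ q0 := hq1 ▸ (shr_le _ _ _ _ _).trans (shr_le _ _ _ _ _)
  have hq1s : q1.s = q0.s := by rw [hq1]; rfl
  have hq1A : ∀ γ (p : PP κ I K T), p ∈ q1.A γ → p ∈ A1 γ ∧ ∀ k < γ, p ∈ A2 k γ := by
    intro γ p hp
    rw [hq1] at hp
    exact ⟨hp.1.2, fun k hk => hp.2 ⟨k, hk⟩⟩
  refine ⟨q1, hq10.trans hq0, i, hiR, {n | q0 ∈ MN cod n S} ∩ {n | q0.s.card ≤ n},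
    Filter.inter_mem hN0 (hD _), fun γ β r hr hrB => ?_⟩
  refine mem_of_not_neg fun r1 hr1 hneg => ?_
  obtain ⟨r2, hr2, n, ⟨hn1, hn2⟩, hγ, t, ht, hβ⟩ := exists_BsS (RO.dn hrB hr1)
  obtain ⟨r3, hr3, hr3s, t', ht'⟩ := exists_valQ hκ0 r2 (none, γ)
  have h31 : r3 ≤ q1 := hr3.trans (hr2.trans (hr1.trans hr))
  have hγ3 : r3 ∈ genR U n γ := genR_down _ hγ _ hr3
  have hγq : γ ∉ q1.s := late_point h31 hγ3 (by rw [hq1s]; exact hn2)
  obtain ⟨hab, hA⟩ := h31.2.2.1 γ hγ3.1 hγq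
  -- the stem up to `γ`
  obtain ⟨s', hs'⟩ : ∃ s', s' = r3.s.filter (· < γ) := ⟨_, rfl⟩
  have hs'lt : ∀ a ∈ s', a < γ := by
    intro a ha
    rw [hs'] at ha
    exact (Finset.mem_filter.1 ha).2
  have hs'sub : s' ⊆ r3.s := by
    rw [hs']
    exact Finset.filter_subset _ _
  have hqs' : q0.s ⊆ s' := by
    intro a ha
    rw [← hq1s] at ha
    rw [hs', Finset.mem_filter]
    exact ⟨h31.2.1 ha, hab a ha⟩
  have hcard : s'.card = n := by
    rw [hs']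
    exact hγ3.2
  have hfil : (insert γ s').filter (· < γ) = s' := by
    ext a
    simp only [Finset.mem_filter, Finset.mem_insert]
    constructor
    · rintro ⟨rfl | h, h'⟩
      · exact absurd h' (lt_irrefl _)
      · exact h
    · intro h
      exact ⟨Or.inr h, hs'lt a h⟩
  have ht0 : insert γ s' ⊆ r3.s := by
    intro a ha
    rcases Finset.mem_insert.1 ha with rfl | ha
    · exact hγ3.1
    · exact hs'sub ha
  -- the positive part
  have hpos : r3.p ∈ Ex (S γ β) (insert γ s') := by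
    have hmem : r3.p ∈ Mem cod (fun γ β => Ex (S γ β) (insert γ s')) γ := by
      refine RO.rg fun p1 hp1 => ?_
      have hp1q : p1 ≤ q0.p := hp1.trans (h31.1.trans hq10.1)
      let v : PQ U := ⟨p1, insert γ s', q0.A, RO.dn q0.h hp1q⟩
      have hvq : v ≤ q0 := by
        refine ⟨hp1q, fun a ha => Finset.mem_insert_of_mem (hqs' ha), fun a ha ha' => ?_,
          fun _ _ _ h => h⟩
        have h1 := (h31.trans hq10).2.2.1 a (ht0 ha) ha'
        exact ⟨h1.1, RO.dn h1.2 hp1⟩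
      have hvγ : v ∈ genR U n γ := by
        refine ⟨Finset.mem_insert_self _ _, ?_⟩
        change ((insert γ s').filter (· < γ)).card = n
        rw [hfil]
        exact hcard
      obtain ⟨v2, hv2, hv2s, t2, ht2, E, hE, hdec⟩ := decide_sec hdist hκ0 hU cod S γ v
      have h1 : {β | v2 ∈ S γ β} ∈ cod.dU t2 := by
        by_contra h2
        exact neg_MN hκ0 hU (genR_down _ hvγ _ hv2) ht2 hE hdec h2 v2 le_rfl
          (RO.dn (φ := MN cod n S) hn1 (hv2.trans hvq))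
      refine ⟨v2.p, hv2.1, meets_of_mem ⟨t2, ht2, ?_⟩⟩
      refine Filter.mem_of_superset h1 fun β' hβ' => ?_
      have h3 := Ex_of_mem (D := S γ β') hβ'
      rw [hv2s] at h3
      exact h3
    have h1 := (hq1A γ r3.p hA).1 ⟨s', hs'lt⟩ r3.p le_rfl hmem
    exact h1 t ⟨β, hβ⟩ r3.p le_rfl (mem_vl (hr3.1 _ _ ht))
  -- the negative part
  have hngt : r3.p ∈ Ex (neg (S γ β)) (insert γ s') := by
    refine hAD2 γ β r3 (insert γ s') ht0 ?_ (RO.dn hneg (hr3.trans hr2))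
    intro δ hδ hδ'
    rw [Finset.mem_insert, not_or] at hδ'
    have h1 : γ < δ := by
      rcases lt_trichotomy δ γ with h | h | h
      · exact absurd (by rw [hs', Finset.mem_filter]; exact ⟨hδ, h⟩) hδ'.2
      · exact absurd h hδ'.1
      · exact h
    refine ⟨fun a ha => ?_, ?_⟩
    · rcases Finset.mem_insert.1 ha with rfl | ha
      · exact h1
      · exact (hs'lt a ha).trans h1
    · have h2 : δ ∉ q1.s := by
        intro h
        exact absurd (hab δ h) (not_lt.2 h1.le)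
      have h3 := (hq1A δ r3.p (h31.2.2.1 δ hδ h2).2).2 γ h1
      exact h3 t ⟨β, hβ⟩ r3.p le_rfl (mem_vl (hr3.1 _ _ ht))
  obtain ⟨v, -, A, hA', h1⟩ := Ex_and hκ0 hU hpos hngt r3.p le_rfl
  exact not_both h1.1 h1.2

/-- the sets of the base belong to the ultrafilter -/
theorem Bs_mem (hκ : ℵ₀ ≤ κ) [Nonempty K] [Nonempty T] (hU : Meas κ U) (cod : Cod κ K T)
    {i : I} (hMS : ∀ p, p ∈ U (MS cod i)) (D : Ultrafilter ℕ)
    (hD : ∀ m : ℕ, {n | m ≤ n} ∈ D) {N : Set ℕ} (hN : N ∈ D) (q : PQ U) :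
    q ∈ WR cod D (Bs U cod i N) := by
  classical
  refine RO.rg fun r _ => ?_
  refine ⟨shr hκ hU r _ (hMS r.p), shr_le _ _ _ _ _, meets_of_mem ?_⟩
  refine Filter.mem_of_superset (Filter.inter_mem hN (hD r.s.card)) ?_
  rintro n ⟨hn1, hn2⟩
  change shr hκ hU r _ (hMS r.p) ∈ MN cod n (Bs U cod i N)
  refine RO.rg fun v hv => ?_
  obtain ⟨v1, hv1, γ, hγ⟩ := exists_gen hκ hU v n
  obtain ⟨v2, hv2, -, t, ht⟩ := exists_valQ hκ v1 (some i, γ)
  obtain ⟨v3, hv3, -, t', ht'⟩ := exists_valQ hκ v2 (none, γ)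
  have h3 : v3 ≤ shr hκ hU r _ (hMS r.p) := hv3.trans (hv2.trans (hv1.trans hv))
  have hγ3 : v3 ∈ genR U n γ := genR_down _ hγ _ (hv3.trans hv2)
  have hγr : γ ∉ r.s := late_point h3 hγ3 hn2
  have h4 := (h3.2.2.1 γ hγ3.1 hγr).2
  have h5 : cod.dS t ∈ cod.dU t' ∧ #{k | k < γ} ≤ #(cod.dS t) :=
    h4.2 t t' v3.p le_rfl ⟨mem_vl (hv3.1 _ _ ht), mem_vl ht'⟩
  refine ⟨v3, hv3.trans (hv2.trans hv1), meets_of_mem ⟨γ, hγ3, t', ht', ?_⟩⟩
  refine Filter.mem_of_superset h5.1 fun β hβ => ?_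
  change v3 ∈ Bs U cod i N γ β
  exact meets_of_mem ⟨n, hn1, hγ3, t, hv3.1 _ _ ht, hβ⟩

/-- inclusion between sets of the base -/
theorem Bs_not_sub (hκ : ℵ₀ ≤ κ) [Nonempty K] [Nonempty T] (hU : Meas κ U) (cod : Cod κ K T)
    {i i' : I} (hNS : ∀ p, p ∈ U (NS cod i i')) (D : Ultrafilter ℕ)
    (hD : ∀ m : ℕ, {n | m ≤ n} ∈ D) {N N' : Set ℕ} (hN : N ∈ D) (q : PQ U)
    (h : ∀ r ≤ q, ∀ γ β, r ∈ Bs U cod i N γ β → r ∈ Bs U cod i' N' γ β) : False := by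
  classical
  obtain ⟨q1, hq1⟩ : ∃ q1, q1 = shr hκ hU q _ (hNS q.p) := ⟨_, rfl⟩
  have hq1q : q1 ≤ q := hq1 ▸ shr_le _ _ _ _ _
  obtain ⟨n, hn1, hn2⟩ := Ultrafilter.nonempty_of_mem (Filter.inter_mem hN (hD q.s.card))
  obtain ⟨v1, hv1, γ, hγ⟩ := exists_gen hκ hU q1 n
  obtain ⟨v2, hv2, -, t, ht⟩ := exists_valQ hκ v1 (some i, γ)
  obtain ⟨v3, hv3, -, t', ht'⟩ := exists_valQ hκ v2 (some i', γ)
  have h3 : v3 ≤ q1 := hv3.trans (hv2.trans hv1)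
  have hγ3 : v3 ∈ genR U n γ := genR_down _ hγ _ (hv3.trans hv2)
  have hγr : γ ∉ q1.s := late_point h3 hγ3 (by rw [hq1]; exact hn2)
  have h4 := (h3.2.2.1 γ hγ3.1 hγr).2
  rw [hq1] at h4
  have h5 : ¬ cod.dS t ⊆ cod.dS t' :=
    h4.2 t t' v3.p le_rfl ⟨mem_vl (hv3.1 _ _ ht), mem_vl ht'⟩
  obtain ⟨β, hβ, hβ'⟩ := Set.not_subset.1 h5
  have h6 : v3 ∈ Bs U cod i N γ β := meets_of_mem ⟨n, hn1, hγ3, t, hv3.1 _ _ ht, hβ⟩
  obtain ⟨w, hw, m, -, -, t2, ht2, hβ2⟩ := exists_BsS (h v3 (h3.trans hq1q) γ β h6)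
  have h7 := hw.1 _ _ ht'
  rw [ht2] at h7
  rw [Option.some.inj h7] at hβ2
  exact hβ' hβ2

end Pool.Agent.U66
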