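import Pool.Agent.U66.Fin2
import Pool.Agent.U66.FDefs

/-!
# The character of the ultrafilter
-/

set_option autoImplicit false

namespace Pool.Agent.U66

open Cardinal Set Pool.Agent.Helper669.Forcing Pool.Agent.Helper669.K Pool.Agent.R588.S

variable {κ : Cardinal.{0}} {I K T : Type} [LinearOrder K]
  {U : (K → RO (PP κ I K T)) → RO (PP κ I K T)}

theorem gen_lt {q : PQ U} {n n' : ℕ} {γ γ' : K} (h : q ∈ genR U n γ) (h' : q ∈ genR U n' γ')
    (hn : n < n') : γ < γ' := by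
  by_contra hcon
  rw [not_lt] at hcon
  have h1 : (q.s.filter (· < γ')).card ≤ (q.s.filter (· < γ)).card := by
    apply Finset.card_le_card
    intro a ha
    rw [Finset.mem_filter] at ha ⊢
    exact ⟨ha.1, ha.2.trans_le hcon⟩
  rw [h.2, h'.2] at h1
  omega

theorem gen_of_lt {q : PQ U} {n n' : ℕ} {γ : K} (h : q ∈ genR U n γ) (hn : n' < n) :
    ∃ γ', q ∈ genR U n' γ' := by
  have h1 := card_filter_lt h.1
  rw [h.2] at h1
  obtain ⟨γ', h2, h3⟩ := exists_nth q.s n' (by omega)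
  exact ⟨γ', h2, h3⟩

/-- the injective function into a set of the base -/
def RR (U : (K → RO (PP κ I K T)) → RO (PP κ I K T)) (pr : K × K ≃ K) (i : I) (N : Set ℕ)
    (inj : K → T → K → K) (α y : K) : Set (PQ U) :=
  {r | ∃ n ∈ N, ∃ γ, r ∈ genR U n γ ∧ α < γ ∧
    (∀ n' ∈ N, n' < n → ∃ γ', r ∈ genR U n' γ' ∧ γ' ≤ α) ∧
    ∃ t, r.p.f (some i, γ) = some t ∧ y = pr (γ, inj γ t α)}

theorem RR_down {pr : K × K ≃ K} {i : I} {N : Set ℕ} {inj : K → T → K → K} {α y : K}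
    {q r : PQ U} (h : q ∈ RR U pr i N inj α y) (hr : r ≤ q) : r ∈ RR U pr i N inj α y := by
  obtain ⟨n, hn, γ, h1, h2, h3, t, h4, h5⟩ := h
  refine ⟨n, hn, γ, genR_down _ h1 _ hr, h2, fun n' hn' hlt => ?_, t, hr.1 _ _ h4, h5⟩
  obtain ⟨γ', h6, h7⟩ := h3 n' hn' hlt
  exact ⟨γ', genR_down _ h6 _ hr, h7⟩

theorem exists_RR {pr : K × K ≃ K} {i : I} {N : Set ℕ} {inj : K → T → K → K} {α y : K}
    {q : PQ U} (h : q ∈ meets (RR U pr i N inj α y)) : ∃ r ≤ q, r ∈ RR U pr i N inj α y := by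
  obtain ⟨r, hr, s, hs, hrs⟩ := h q le_rfl
  exact ⟨r, hr, RR_down hs hrs⟩

theorem Bs_full (hκ : ℵ₀ ≤ κ) [Nonempty K] [Nonempty T] (hU : Meas κ U) (cod : Cod κ K T)
    (pr : K × K ≃ K) {i : I} (hMS : ∀ p, p ∈ U (MS cod i)) (D : Ultrafilter ℕ)
    (hD : ∀ m : ℕ, {n | m ≤ n} ∈ D) {N : Set ℕ} (hN : N ∈ D) (A : K → Set (PQ U)) (q : PQ U)
    (h : ∀ r ≤ q, ∀ γ β, r ∈ Bs U cod i N γ β → r ∈ un pr A γ β) :
    ∃ q' ≤ q, q' ∈ FullSize fun a => meets (A a) := by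
  classical
  obtain ⟨q1, hq1⟩ : ∃ q1, q1 = shr hκ hU q _ (hMS q.p) := ⟨_, rfl⟩
  have hq1q : q1 ≤ q := hq1 ▸ shr_le _ _ _ _ _
  obtain ⟨N', hN'⟩ : ∃ N', N' = N ∩ {n | q.s.card ≤ n} := ⟨_, rfl⟩
  have hN'D : N' ∈ D := hN' ▸ Filter.inter_mem hN (hD _)
  -- injections
  have hinj : ∀ (γ : K) (t : T), ∃ f : K → K, #{k | k < γ} ≤ #(cod.dS t) →
      (∀ k < γ, f k ∈ cod.dS t) ∧ ∀ k < γ, ∀ k' < γ, f k = f k' → k = k' := by
    intro γ t
    by_cases h1 : #{k | k < γ} ≤ #(cod.dS t)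
    · obtain ⟨g⟩ := h1
      refine ⟨fun k => if hk : k < γ then (g ⟨k, hk⟩).1 else k, fun _ => ⟨?_, ?_⟩⟩
      · intro k hk
        dsimp only
        rw [dif_pos hk]
        exact (g ⟨k, hk⟩).2
      · intro k hk k' hk' heq
        dsimp only at heq
        rw [dif_pos hk, dif_pos hk'] at heq
        exact congrArg Subtype.val (g.injective (Subtype.ext heq))
    · exact ⟨id, fun h2 => absurd h2 h1⟩
  choose inj hinj using hinj
  -- the sets are large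
  have hlarge : ∀ r ≤ q1, ∀ n ∈ N', ∀ γ, r ∈ genR U n γ → ∀ t, r.p.f (some i, γ) = some t →
      #{k | k < γ} ≤ #(cod.dS t) := by
    intro r hr n hn γ hγ t ht
    rw [hN'] at hn
    obtain ⟨v, hv, -, t', ht'⟩ := exists_valQ hκ r (none, γ)
    have h3 : v ≤ q1 := hv.trans hr
    have hγ3 : v ∈ genR U n γ := genR_down _ hγ _ hv
    have hγr : γ ∉ q1.s := late_point h3 hγ3 (by rw [hq1]; exact hn.2)
    have h4 := (h3.2.2.1 γ hγ3.1 hγr).2
    rw [hq1] at h4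
    have h5 : cod.dS t ∈ cod.dU t' ∧ #{k | k < γ} ≤ #(cod.dS t) :=
      h4.2 t t' v.p le_rfl ⟨mem_vl (hv.1 _ _ ht), mem_vl ht'⟩
    exact h5.2
  refine ⟨q1, hq1q, mem_fex_of_mem (RR U pr i N' inj) ?_ ⟨⟨?_, ?_⟩, ?_, ?_⟩⟩
  · exact down_fand (down_IsFun _) (down_fand (down_IsInj _) (down_fall fun _ =>
      down_fall fun _ => down_fimp _ _))
  · intro α
    rw [mem_fex]
    intro r hr
    obtain ⟨r1, hr1, γ1, hγ1, -, hs1⟩ := exists_step hκ hU r α
    have hg1 : r1 ∈ genR U (r1.s.filter (· < γ1)).card γ1 := by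
      refine ⟨?_, rfl⟩
      rw [hs1]
      exact Finset.mem_insert_self _ _
    obtain ⟨n, hn1, hn2⟩ := Ultrafilter.nonempty_of_mem (Filter.inter_mem hN'D
      (hD ((r1.s.filter (· < γ1)).card + 1)))
    obtain ⟨r2, hr2, γ, hγ⟩ := exists_gen hκ hU r1 n
    have hαγ : α < γ := hγ1.trans (gen_lt (genR_down _ hg1 _ hr2) hγ hn2)
    have hex : ∃ n', n' ∈ N' ∧ ∃ γ', r2 ∈ genR U n' γ' ∧ α < γ' := ⟨n, hn1, γ, hγ, hαγ⟩
    obtain ⟨h1, γ', h2, h3⟩ := Nat.find_spec hex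
    obtain ⟨r3, hr3, -, t, ht⟩ := exists_valQ hκ r2 (some i, γ')
    refine ⟨r3, hr3.trans (hr2.trans hr1), pr (γ', inj γ' t α), meets_of_mem ⟨Nat.find hex, h1, γ',
      genR_down _ h2 _ hr3, h3, fun m hm hlt => ?_, t, ht, rfl⟩⟩
    obtain ⟨γ'', h4⟩ := gen_of_lt h2 hlt
    refine ⟨γ'', genR_down _ h4 _ hr3, ?_⟩
    by_contra h5
    exact Nat.find_min hex hlt ⟨hm, γ'', h4, not_le.1 h5⟩
  · intro α y y'
    rw [mem_fimp]
    rintro r - ⟨h1, h2⟩
    obtain ⟨r1, hr1, h3⟩ := exists_RR h1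
    obtain ⟨r2, hr2, h4⟩ := exists_RR (down_meets _ _ h2 _ hr1)
    have h5 := RR_down h3 hr2
    refine ⟨r2, hr2.trans hr1, ?_⟩
    change y = y'
    obtain ⟨n, hn, γ, g1, g2, g3, t, g4, g5⟩ := h5
    obtain ⟨m, hm, δ, k1, k2, k3, t', k4, k5⟩ := h4
    have hnm : n = m := by
      rcases lt_trichotomy n m with h | h | h
      · obtain ⟨γ', h6, h7⟩ := k3 n hn h
        rw [gen_uniq hκ hU h6 g1] at h7
        exact absurd g2 (not_lt.2 h7)
      · exact h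
      · obtain ⟨γ', h6, h7⟩ := g3 m hm h
        rw [gen_uniq hκ hU h6 k1] at h7
        exact absurd k2 (not_lt.2 h7)
    subst hnm
    have h6 := gen_uniq hκ hU g1 k1
    subst h6
    have h7 : t = t' := by
      rw [g4] at k4
      exact Option.some.inj k4
    subst h7
    rw [g5, k5]
  · intro α α' y
    rw [mem_fimp]
    rintro r hr ⟨h1, h2⟩
    obtain ⟨r1, hr1, h3⟩ := exists_RR h1
    obtain ⟨r2, hr2, h4⟩ := exists_RR (down_meets _ _ h2 _ hr1)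
    have h5 := RR_down h3 hr2
    refine ⟨r2, hr2.trans hr1, ?_⟩
    change α = α'
    obtain ⟨n, hn, γ, g1, g2, g3, t, g4, g5⟩ := h5
    obtain ⟨m, hm, δ, k1, k2, k3, t', k4, k5⟩ := h4
    rw [g5] at k5
    have h6 := pr.injective k5
    rw [Prod.mk.injEq] at h6
    obtain ⟨h7, h8⟩ := h6
    subst h7
    have h9 : t = t' := by
      rw [g4] at k4
      exact Option.some.inj k4
    subst h9
    exact (hinj γ t (hlarge r2 (hr2.trans (hr1.trans hr)) n hn γ g1 t g4)).2 α g2 α' k2 h8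
  · intro α y
    rw [mem_fimp]
    intro r hr h1
    obtain ⟨r1, hr1, n, hn, γ, g1, g2, g3, t, g4, g5⟩ := exists_RR h1
    refine ⟨r1, hr1, ?_⟩
    have h2 := (hinj γ t (hlarge r1 (hr1.trans hr) n hn γ g1 t g4)).1 α g2
    have hn' : n ∈ N := by
      rw [hN'] at hn
      exact hn.1
    have h3 := h r1 (hr1.trans (hr.trans hq1q)) γ (inj γ t α)
      (meets_of_mem ⟨n, hn', g1, t, g4, h2⟩)
    rw [g5]
    exact h3

/-- the hypotheses on the measure -/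
structure Hyp (κ : Cardinal.{0}) (I K T : Type) [LinearOrder K]
    (U : (K → RO (PP κ I K T)) → RO (PP κ I K T)) (cod : Cod κ K T) {Y : Type}
    (c : I → Set Y) : Prop where
  meas : Meas κ U
  base : ∀ (S : Type) (G : S → NB κ I K T), #S ≤ κ → ∃ i, ∀ i', c i' ⊆ c i → ∀ s, ∀ p,
    p ∈ U (Mem cod (G s)) → p ∈ U (Sub cod i' (G s))
  ns : ∀ i i', ¬ c i ⊆ c i' → ∀ p, p ∈ U (NS cod i i')
  ms : ∀ i p, p ∈ U (MS cod i)

theorem uniform_Wn (hκ : κ.IsRegular) (hκ' : ℵ₀ < κ) [Nonempty K] [Nonempty T]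
    (hK : #K = κ)
    (hdist : ∀ (J : Type) (D : J → Set (PP κ I K T)), #J < κ → (∀ j, Down (D j)) →
      (∀ j q, ∃ q' ≤ q, q' ∈ D j) → ∀ q, ∃ q' ≤ q, ∀ j, q' ∈ D j)
    (cod : Cod κ K T) {Y : Type} (c : I → Set Y) (H : Hyp κ I K T U cod c)
    (D : Ultrafilter ℕ) (hD : ∀ m : ℕ, {n | m ≤ n} ∈ D) (pr : K × K ≃ K) (q : PQ U) :
    q ∈ IsUniformUltrafilter (Wn cod D pr) := by
  have hU := H.meas
  refine ⟨Wn_up cod D pr q, Wn_ult hκ' hU hdist cod D pr q, Wn_and hκ'.le hU cod D pr q, ?_⟩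
  intro A
  rw [mem_fimp]
  intro r _ h1
  rw [meets_Wn] at h1
  obtain ⟨r1, hr1, i, -, N, hN, h2⟩ := exists_base hκ hK hU hdist cod c H.base Set.univ
    (fun i => ⟨i, trivial, subset_rfl⟩) D hD (un pr A) r h1
  obtain ⟨r2, hr2, h3⟩ := Bs_full hκ'.le hU cod pr (H.ms i) D hD hN A r1
    fun v hv γ β h => h2 γ β v hv h
  exact ⟨r2, hr2.trans hr1, h3⟩

/-- the named subset of `K` given by a set of the base -/
def Bk (U : (K → RO (PP κ I K T)) → RO (PP κ I K T)) (cod : Cod κ K T) (pr : K × K ≃ K) (i : I)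
    (N : Set ℕ) (k : K) : Set (PQ U) := (Bs U cod i N (pr.symm k).1 (pr.symm k).2).c

theorem meets_Bk {cod : Cod κ K T} {pr : K × K ≃ K} {i : I} {N : Set ℕ} {k : K} {q : PQ U} :
    q ∈ meets (Bk U cod pr i N k) ↔ q ∈ Bs U cod i N (pr.symm k).1 (pr.symm k).2 := by
  unfold Bk
  rw [meets_c]
  exact Iff.rfl

theorem un_Bk {cod : Cod κ K T} {pr : K × K ≃ K} {i : I} {N : Set ℕ} {γ β : K} {q : PQ U} :
    q ∈ un pr (Bk U cod pr i N) γ β ↔ q ∈ Bs U cod i N γ β := by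
  unfold un
  rw [mem_cl, meets_Bk]
  simp

theorem character (hκ : κ.IsRegular) (hκ' : ℵ₀ < κ) [Nonempty K] [Nonempty T]
    (hK : #K = κ)
    (hdist : ∀ (J : Type) (D : J → Set (PP κ I K T)), #J < κ → (∀ j, Down (D j)) →
      (∀ j q, ∃ q' ≤ q, q' ∈ D j) → ∀ q, ∃ q' ≤ q, ∀ j, q' ∈ D j)
    (hcc : ∀ (ι : Type) (f : ι → PQ U), κ < #ι → ∃ i j, i ≠ j ∧ ∃ r, r ≤ f i ∧ r ≤ f j)
    (hc2 : 2 ^ ℵ₀ ≤ κ)
    (cod : Cod κ K T) {Y : Type} (c : I → Set Y) (H : Hyp κ I K T U cod c)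
    {χ : Cardinal.{0}} (hχ : κ < χ) (hr : #(Set.range c) ≤ χ)
    (hcof : ∀ S : Set I, #S < χ → ∃ i, ∀ i' ∈ S, ¬ c i' ⊆ c i) (q : PQ U) :
    q ∈ HasCharacter (PQ U) K χ := by
  classical
  have hU := H.meas
  have hκ0 := hκ.aleph0_le
  obtain ⟨pr⟩ : Nonempty (K × K ≃ K) := by
    rw [← Cardinal.eq, Cardinal.mk_prod, Cardinal.lift_id, hK, Cardinal.mul_eq_self hκ0]
  let D : Ultrafilter ℕ := Filter.hyperfilter ℕ
  have hD : ∀ m : ℕ, {n | m ≤ n} ∈ D := by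
    intro m
    have h1 : {n | m ≤ n} ∈ (Filter.cofinite : Filter ℕ) := by
      rw [Nat.cofinite_eq_atTop]
      exact Filter.mem_atTop m
    exact Filter.hyperfilter_le_cofinite h1
  refine mem_fex_of_mem (Wn cod D pr) ?_ ⟨uniform_Wn hκ hκ' hK hdist cod c H D hD pr q, ?_, ?_⟩
  · unfold IsUniformUltrafilter
    refine down_fand (down_fand (down_fall fun _ => down_fall fun _ => down_fimp _ _) ?_) ?_
    · refine down_fand (down_fall fun _ => down_fand (down_fimp _ _) (down_fimp _ _)) ?_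
      refine down_fand (down_fall fun _ => down_fall fun _ => down_fimp _ _) ?_
      exact down_fall fun _ => down_fimp _ _
    · exact down_fand (down_fex _) (down_fall fun _ => down_fall fun _ => down_fnot _)
  · -- the base
    have hsec : ∀ Z : Set.range c, ∃ i, c i = Z.1 := fun Z => Z.2
    choose sec hsec using hsec
    have hidx : #(Set.range c × {N : Set ℕ // N ∈ D}) ≤ χ := by
      rw [Cardinal.mk_prod, Cardinal.lift_id, Cardinal.lift_id]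
      calc #(Set.range c) * #{N : Set ℕ // N ∈ D} ≤ χ * χ := by
            refine mul_le_mul' hr ?_
            refine (Cardinal.mk_subtype_le _).trans ?_
            rw [Cardinal.mk_set, Cardinal.mk_nat]
            exact hc2.trans hχ.le
        _ = χ := Cardinal.mul_eq_self (hκ0.trans hχ.le)
    obtain ⟨i0, -⟩ := hcof ∅ (by simpa using (aleph0_pos.trans_le hκ0).trans hχ)
    have hne : Nonempty (Set.range c × {N : Set ℕ // N ∈ D}) :=
      ⟨⟨⟨c i0, i0, rfl⟩, ⟨Set.univ, Filter.univ_mem⟩⟩⟩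
    obtain ⟨f, hf⟩ : ∃ f : χ.out → Set.range c × {N : Set ℕ // N ∈ D}, Function.Surjective f := by
      obtain ⟨g⟩ : Nonempty (Set.range c × {N : Set ℕ // N ∈ D} ↪ χ.out) := by
        rw [← Cardinal.le_def, Cardinal.mk_out]
        exact hidx
      exact ⟨Function.invFun g, Function.invFun_surjective g.injective⟩
    refine mem_fex_of_mem (fun x => Bk U cod pr (sec (f x).1) (f x).2.1) ?_ ⟨?_, ?_⟩
    · exact down_fand (down_fall fun _ => down_meets _) (down_fall fun _ => down_fimp _ _)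
    · intro x
      change q ∈ meets (Wn cod D pr (Bk U cod pr (sec (f x).1) (f x).2.1))
      rw [meets_Wn]
      have h1 := Bs_mem hκ0 hU cod (H.ms (sec (f x).1)) D hD (f x).2.2 q
      exact WR_mono (fun v _ γ β h => un_Bk.2 h) h1
    · intro A
      rw [mem_fimp]
      intro r _ h1
      rw [meets_Wn] at h1
      obtain ⟨r1, hr1, i, hi, N, hN, h2⟩ := exists_base hκ hK hU hdist cod c H.base
        (Set.range sec) (fun i => ⟨sec ⟨c i, i, rfl⟩, ⟨_, rfl⟩, (hsec ⟨c i, i, rfl⟩).le⟩) D hD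
        (un pr A) r h1
      obtain ⟨Z, rfl⟩ := hi
      obtain ⟨x, hx⟩ := hf (Z, ⟨N, hN⟩)
      refine ⟨r1, hr1, mem_fex_of_mem x (down_fall fun _ => down_fimp _ _) ?_⟩
      rw [mem_SubN]
      intro v hv a ha
      change v ∈ meets (Bk U cod pr (sec (f x).1) (f x).2.1 a) at ha
      rw [hx, meets_Bk] at ha
      have h3 := h2 (pr.symm a).1 (pr.symm a).2 v hv ha
      have h4 : v ∈ cl (A (pr ((pr.symm a).1, (pr.symm a).2))) := h3
      rw [Prod.mk.eta, Equiv.apply_symm_apply] at h4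
      exact h4
  · -- no smaller base
    intro ν hν q1 hq1 hB
    obtain ⟨q2, hq2, B, hB1, hB2⟩ := mem_fex.1 hB q1 le_rfl
    -- the conditions deciding a set of the base
    let DD : ν.out → Set (PQ U) := fun j => {r | r ≤ q2 ∧ ∃ i, ∃ N ∈ D, ∀ γ β,
      r ∈ im (Bs U cod i N γ β) (un pr (B j) γ β)}
    have hDD : ∀ j, ∀ r ≤ q2, ∃ r' ≤ r, r' ∈ DD j := by
      intro j r hr
      have h1 : r ∈ WR cod D (un pr (B j)) := by
        have h2 := down_meets _ _ (hB1 j) _ hr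
        rw [meets_Wn] at h2
        exact h2
      obtain ⟨r1, hr1, i, -, N, hN, h2⟩ := exists_base hκ hK hU hdist cod c H.base Set.univ
        (fun i => ⟨i, trivial, subset_rfl⟩) D hD _ r h1
      exact ⟨r1, hr1, hr1.trans hr, i, N, hN, h2⟩
    have hM := fun j => h400_antichain (DD j)
    choose M hM1 hM2 hM3 using hM
    have hMκ : ∀ j, #(M j) ≤ κ := by
      intro j
      by_contra hlt
      push Not at hlt
      obtain ⟨i, i', hij, hcompat⟩ := hcc (M j) (fun m => (m : PQ U)) hlt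
      exact hM2 j i.2 i'.2 (fun h => hij (Subtype.ext h)) hcompat
    have hMi : ∀ x : Σ j, M j, ∃ i, ∃ N ∈ D, ∀ γ β,
        x.2.1 ∈ im (Bs U cod i N γ β) (un pr (B x.1) γ β) := fun x => (hM1 x.1 x.2.2).2
    choose ix hix using hMi
    have hS : #(Set.range ix) < χ := by
      refine Cardinal.mk_range_le.trans_lt ?_
      rw [Cardinal.mk_sigma]
      refine (Cardinal.sum_le_mk_mul_iSup _).trans_lt ?_
      rw [Cardinal.mk_out]
      exact Cardinal.mul_lt_of_lt (hκ0.trans hχ.le) hν ((ciSup_le' hMκ).trans_lt hχ)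
    obtain ⟨i, hi⟩ := hcof _ hS
    have h1 : q2 ∈ meets (Wn cod D pr (Bk U cod pr i Set.univ)) := by
      rw [meets_Wn]
      exact WR_mono (fun v _ γ β h => un_Bk.2 h)
        (Bs_mem hκ0 hU cod (H.ms i) D hD Filter.univ_mem q2)
    obtain ⟨q3, hq3, h2⟩ := mem_fimp.1 (hB2 (Bk U cod pr i Set.univ)) q2 le_rfl h1
    obtain ⟨q4, hq4, j, h3⟩ := mem_fex.1 h2 q3 le_rfl
    rw [mem_SubN] at h3
    obtain ⟨q5, hq5, h4⟩ := hDD j q4 (hq4.trans hq3)
    obtain ⟨m, hm, r, hr1, hr2⟩ := hM3 j q5 h4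
    obtain ⟨N, hN, h5⟩ := hix ⟨j, m, hm⟩
    refine Bs_not_sub hκ0 hU cod (i := ix ⟨j, m, hm⟩) (i' := i)
      (H.ns _ _ (hi _ ⟨_, rfl⟩)) D hD (N := N) (N' := Set.univ) hN r ?_
    intro v hv γ β h6
    have h7 : v ∈ un pr (B j) γ β := h5 γ β v (hv.trans hr2) h6
    have h8 := h3 v (hv.trans (hr1.trans hq5)) (pr (γ, β)) h7
    rw [meets_Bk, Equiv.symm_apply_apply] at h8
    exact h8

end Pool.Agent.U66
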