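import Pool.Agent.U66.Fin3

/-!
# Cardinals and the power set of the extension
-/

set_option autoImplicit false

namespace Pool.Agent.U66

open Cardinal Set Pool.Agent.Helper669.Forcing Pool.Agent.Helper669.K Pool.Agent.R588.S

theorem cardinalsAbove_of_cc {Q : Type} [Preorder Q] {κ : Cardinal.{0}} (hκ : ℵ₀ ≤ κ)
    (hcc : ∀ (ι : Type) (f : ι → Q), κ < #ι → ∃ i j, i ≠ j ∧ ∃ r, r ≤ f i ∧ r ≤ f j) (q : Q) :
    q ∈ CardinalsAbove Q κ := by
  classical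
  intro μ ν hμ hμν q1 _ hq1
  obtain ⟨q2, hq2, R, hR1, hR2⟩ := mem_fex.1 hq1 q1 le_rfl
  have hV : ∀ x : μ.out, #{y : ν.out | ∃ q' ≤ q2, q' ∈ meets (R x y)} ≤ κ := by
    intro x
    by_contra hcon
    push Not at hcon
    choose f hf1 hf2 using fun y : {y : ν.out | ∃ q' ≤ q2, q' ∈ meets (R x y)} => y.2
    obtain ⟨i, j, hij, r, hri, hrj⟩ := hcc _ f hcon
    apply hij
    have hr' : r ∈ IsFun R := down_IsFun R _ hR1 _ (hri.trans (hf1 i))
    exact Subtype.ext (IsFun.unique hr' (down_meets _ _ (hf2 i) _ hri)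
      (down_meets _ _ (hf2 j) _ hrj))
  have hS : #(⋃ x : μ.out, {y : ν.out | ∃ q' ≤ q2, q' ∈ meets (R x y)} : Set ν.out) ≤ μ := by
    refine (Cardinal.mk_iUnion_le _).trans ?_
    refine (mul_le_mul' (le_refl _) (ciSup_le' hV)).trans ?_
    rw [Cardinal.mk_out]
    refine (mul_le_mul' (le_refl μ) hμ).trans ?_
    rw [Cardinal.mul_eq_self (hκ.trans hμ)]
  have hall : (⋃ x : μ.out, {y : ν.out | ∃ q' ≤ q2, q' ∈ meets (R x y)} : Set ν.out) =
      Set.univ := by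
    rw [Set.eq_univ_iff_forall]
    intro y
    obtain ⟨r, hr, x, hx⟩ := mem_fex.1 (hR2 y) q2 le_rfl
    exact Set.mem_iUnion.2 ⟨x, r, hr, hx⟩
  rw [hall, Cardinal.mk_univ, Cardinal.mk_out] at hS
  exact absurd hμν (not_lt.2 hS)

theorem singularN_of_not_regular {Q : Type} [Preorder Q] {χ : Cardinal.{0}} (hχ0 : ℵ₀ ≤ χ)
    (hχ : ¬ χ.IsRegular) (q : Q) : q ∈ SingularN Q χ := by
  classical
  obtain ⟨S, hS1, hS2⟩ : ∃ S : Set χ.ord.ToType, IsCofinal S ∧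
      #S = Order.cof χ.ord.ToType := by
    exact Order.exists_cof_eq _
  have hS3 : #S < χ := by
    rw [hS2, Ordinal.cof_toType]
    by_contra hcon
    push Not at hcon
    exact hχ ⟨hχ0, hcon⟩
  have hd : ∀ R : (#S).out → χ.ord.ToType → Set Q, Down (fand (IsFun R)
      (fall fun b => fex fun x => fex fun y => fand (fground (b < y)) (meets (R x y)))) :=
    fun R => down_fand (down_IsFun _) (down_fall fun _ => down_fex _)
  refine mem_fex_of_mem #S (down_fex _) (mem_fex_of_mem hS3 (down_fex _)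
    (mem_fex_of_mem (fun x y => {_q | y = (Cardinal.outMkEquiv x : S).1}) (hd _) ⟨⟨?_, ?_⟩, ?_⟩))
  · intro x
    exact mem_fex_of_mem (Cardinal.outMkEquiv x : S).1 (down_meets _) (meets_of_mem rfl)
  · intro x y y'
    rw [mem_fimp]
    rintro r _ ⟨h1, h2⟩
    obtain ⟨r1, hr1, s1, hs1, -⟩ := h1 r le_rfl
    obtain ⟨r2, hr2, s2, hs2, -⟩ := h2 r le_rfl
    refine ⟨r, le_rfl, ?_⟩
    have h3 : y = (Cardinal.outMkEquiv x : S).1 := hs1
    have h4 : y' = (Cardinal.outMkEquiv x : S).1 := hs2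
    change y = y'
    rw [h3, h4]
  · intro b
    have : NoMaxOrder χ.ord.ToType := Cardinal.noMaxOrder hχ0
    obtain ⟨b', hb'⟩ := exists_gt b
    obtain ⟨y, hy, hby⟩ := hS1 b'
    refine mem_fex_of_mem (Cardinal.outMkEquiv.symm ⟨y, hy⟩) (down_fex _)
      (mem_fex_of_mem y (down_fand (down_fground _) (down_meets _)) ⟨hb'.trans_le hby, ?_⟩)
    refine meets_of_mem ?_
    change y = _
    simp

variable {κ : Cardinal.{0}} {I K T : Type} [LinearOrder K]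
  {U : (K → RO (PP κ I K T)) → RO (PP κ I K T)}

theorem powerGt_PQ (hκ : ℵ₀ ≤ κ) (hK : #K = κ) (hT : #T ≤ κ) {t0 t1 : T} (ht : t0 ≠ t1)
    (hcc : ∀ (ι : Type) (f : ι → PQ U), κ < #ι → ∃ i j, i ≠ j ∧ ∃ r, r ≤ f i ∧ r ≤ f j)
    {χ : Cardinal.{0}} (hχ : κ < χ) (hI : χ < #I) (q : PQ U) : q ∈ PowerGt (PQ U) K χ := by
  classical
  intro q1 _ hq1
  obtain ⟨q2, hq2, X, hX⟩ := mem_fex.1 hq1 q1 le_rfl
  obtain ⟨j⟩ : Nonempty (K × T ↪ K) := by
    rw [← Cardinal.le_def, Cardinal.mk_prod, Cardinal.lift_id, Cardinal.lift_id, hK]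
    exact (mul_le_mul' (le_refl κ) hT).trans (Cardinal.mul_eq_self hκ).le
  obtain ⟨A, hA⟩ : ∃ A : I → K → Set (PQ U), A = fun i k =>
      {q | ∃ γ t, q.p.f (some i, γ) = some t ∧ k = j (γ, t)} := ⟨_, rfl⟩
  have hAd : ∀ i k, Down (A i k) := by
    intro i k r hr r' hr'
    rw [hA] at hr ⊢
    obtain ⟨γ, t, h1, h2⟩ := hr
    exact ⟨γ, t, hr'.1 _ _ h1, h2⟩
  have h1 : ∀ i, ∃ x : χ.out, ∃ r ≤ q2, r ∈ SubN (A i) (X x) ∧ r ∈ SubN (X x) (A i) := by
    intro i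
    obtain ⟨r, hr, x, hx⟩ := mem_fex.1 (hX (A i)) q2 le_rfl
    exact ⟨x, r, hr, hx.1, hx.2⟩
  choose x r hr hr1 hr2 using h1
  have hχ0 : ℵ₀ ≤ χ := hκ.trans hχ.le
  obtain ⟨x0, hx0⟩ : ∃ x0 : χ.out, κ < #{i : I // x i = x0} := by
    by_contra hcon
    push Not at hcon
    have h1 : #I ≤ χ := by
      have h2 : #I = #(Σ x0 : χ.out, {i : I // x i = x0}) :=
        (Cardinal.mk_congr (Equiv.sigmaFiberEquiv x)).symm
      rw [h2, Cardinal.mk_sigma]
      refine (Cardinal.sum_le_mk_mul_iSup _).trans ?_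
      rw [Cardinal.mk_out]
      calc χ * (⨆ x0 : χ.out, #{i : I // x i = x0}) ≤ χ * χ :=
            mul_le_mul' (le_refl _) ((ciSup_le' hcon).trans hχ.le)
        _ = χ := Cardinal.mul_eq_self hχ0
    exact absurd hI (not_lt.2 h1)
  obtain ⟨i, i', hii, v, hv, hv'⟩ := hcc _ (fun i : {i : I // x i = x0} => r i.1) hx0
  obtain ⟨γ, hγ⟩ : ∃ γ : K, (some i.1, γ) ∉ v.p.supp ∧ (some i'.1, γ) ∉ v.p.supp := by
    by_contra hcon
    push Not at hcon
    have h2 : #K ≤ #v.p.supp := by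
      have h3 : ∀ γ : K, ∃ l ∈ v.p.supp, l.2 = γ := by
        intro γ
        by_cases h4 : (some i.1, γ) ∈ v.p.supp
        · exact ⟨_, h4, rfl⟩
        · exact ⟨_, hcon γ h4, rfl⟩
      choose g hg1 hg2 using h3
      refine Cardinal.mk_le_of_injective (f := fun γ => (⟨g γ, hg1 γ⟩ : v.p.supp)) ?_
      intro a b hab
      have h4 := congrArg (fun z : v.p.supp => z.1.2) hab
      simp only [hg2] at h4
      exact h4
    rw [hK] at h2
    exact absurd v.p.small (not_lt.2 h2)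
  have hne : (some i'.1, γ) ≠ ((some i.1, γ) : Option I × K) := by
    intro h
    have h2 : i'.1 = i.1 := Option.some.inj (congrArg Prod.fst h)
    exact hii (Subtype.ext h2.symm)
  obtain ⟨p1, hp1, hp2⟩ := exists_add hκ v.p
    (fun l => if l = (some i.1, γ) then some t0 else if l = (some i'.1, γ) then some t1 else none)
    {(some i.1, γ), (some i'.1, γ)} ((lt_aleph0_of_finite _).trans_le hκ) (by
      intro l h'
      by_contra h''
      rw [Set.mem_insert_iff, Set.mem_singleton_iff, not_or] at h''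
      rw [if_neg h''.1, if_neg h''.2] at h'
      exact h' rfl)
  have e1 : p1.f (some i.1, γ) = some t0 := by
    rw [hp2 _ (Fn.not_mem_supp.1 hγ.1), if_pos rfl]
  have e2 : p1.f (some i'.1, γ) = some t1 := by
    rw [hp2 _ (Fn.not_mem_supp.1 hγ.2), if_neg hne, if_pos rfl]
  obtain ⟨w, hw⟩ : ∃ w, w = Pool.Agent.U66.ext v p1 hp1 := ⟨_, rfl⟩
  have hwv : w ≤ v := hw ▸ ext_le v p1 hp1
  have hwp : w.p = p1 := by rw [hw]; rfl
  have f1 : w ∈ A i.1 (j (γ, t0)) := by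
    rw [hA]
    exact ⟨γ, t0, by rw [hwp]; exact e1, rfl⟩
  obtain ⟨w1, hw1, f2⟩ := mem_fimp.1 (hr1 i.1 (j (γ, t0))) w (hwv.trans hv) (meets_of_mem f1)
  rw [i.2, ← i'.2] at f2
  obtain ⟨w2, hw2, f3⟩ := mem_fimp.1 (hr2 i'.1 (j (γ, t0))) w1 (hw1.trans (hwv.trans hv')) f2
  obtain ⟨w3, hw3, f4⟩ := exists_of_meets (hAd _ _) f3
  rw [hA] at f4
  obtain ⟨γ', t, f5, f6⟩ := f4
  have f7 := j.injective f6
  rw [Prod.mk.injEq] at f7
  obtain ⟨f8, f9⟩ := f7
  subst f8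
  subst f9
  have f10 : w3.p.f (some i'.1, γ) = some t1 :=
    (hw3.trans (hw2.trans hw1)).1 _ _ (by rw [hwp]; exact e2)
  rw [f10] at f5
  exact ht (Option.some.inj f5).symm

end Pool.Agent.U66
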