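import Pool.Agent.R588.S.Ext
import Pool.Agent.R588.S.Conv
import Pool.Agent.U66.Val

/-!
# The measure given by a closed family of large sets
-/

set_option autoImplicit false

namespace Pool.Agent.U66

open Cardinal Set Pool.Agent.Helper669.Forcing Pool.Agent.Helper669.K Pool.Agent.R588.S

variable {κ : Cardinal.{0}} {I K Y T : Type}

/-- every truth value depends on few coordinates -/
theorem exists_support (hκ : κ.IsRegular) (h2 : ∀ μ < κ, 2 ^ μ < κ) (hT : #T ≤ κ)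
    (φ : RO (PP κ I K T)) : ∃ J : Set (Option I), #J ≤ κ ∧
      ∀ p p' : PP κ I K T, (∀ l : Option I × K, l.1 ∈ J → p'.f l = p.f l) → p ∈ φ → p' ∈ φ := by
  classical
  have hκ0 := hκ.aleph0_le
  obtain ⟨A, hA1, hA2⟩ := exists_nice (cc_Fn (L := Option I × K) (T := T) hκ h2 hT) φ.c
  refine ⟨⋃ s : A, Prod.fst '' s.1.supp, ?_, ?_⟩
  · refine (Cardinal.mk_iUnion_le _).trans ?_
    calc #A * (⨆ s : A, #(Prod.fst '' s.1.supp)) ≤ κ * κ := by
          refine mul_le_mul' hA1 (ciSup_le' fun s => ?_)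
          exact Cardinal.mk_image_le.trans s.1.small.le
      _ = κ := Cardinal.mul_eq_self hκ0
  · intro p p' hpp hp
    have h1 : ∀ q : PP κ I K T, q ∈ φ ↔ q ∈ meets A := by
      intro q
      rw [hA2 q, meets_c]
      exact Iff.rfl
    rw [h1] at hp ⊢
    intro q' hq'
    let S : Set (Option I × K) := {l | l.1 ∈ ⋃ s : A, Prod.fst '' s.1.supp}
    have hS : ∀ s ∈ A, ∀ l ∈ s.supp, l ∈ S := by
      intro s hs l hl
      exact Set.mem_iUnion.2 ⟨⟨s, hs⟩, l, hl, rfl⟩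
    obtain ⟨q, hq1, hq2⟩ := exists_splice hκ0 S q' p
    have hqp : q ≤ p := by
      intro l b hb
      by_cases hl : l ∈ S
      · rw [hq1 l hl]
        apply hq'
        rw [hpp l hl]
        exact hb
      · rw [hq2 l hl]
        exact hb
    obtain ⟨v, hv, s, hs, hvs⟩ := hp q hqp
    obtain ⟨v', hv1, hv2⟩ := exists_splice hκ0 S v q'
    refine ⟨v', ?_, s, hs, ?_⟩
    · intro l b hb
      by_cases hl : l ∈ S
      · rw [hv1 l hl]
        apply hv
        rw [hq1 l hl]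
        exact hb
      · rw [hv2 l hl]
        exact hb
    · intro l b hb
      rw [hv1 l (hS s hs l (Fn.mem_supp.2 ⟨b, hb⟩))]
      exact hvs l b hb

section

variable [LinearOrder K]

omit [LinearOrder K] in
theorem exists_e (hK : #K = κ) (hκ : ℵ₀ ≤ κ) :
    ∃ e : PX κ I K Y T → Y → K, ∀ x, Set.InjOn (e x) (yS x) := by
  classical
  have hKne : Nonempty K := by
    rw [← mk_ne_zero_iff, hK]
    exact (aleph0_pos.trans_le hκ).ne'
  have h1 : ∀ x : PX κ I K Y T, ∃ f : Y → K, Set.InjOn f (yS x) := by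
    intro x
    obtain ⟨g⟩ : Nonempty (yS x ↪ K) := by
      rw [← Cardinal.le_def, hK]
      exact (small_yS x).le
    refine ⟨fun y => if h : y ∈ yS x then g ⟨y, h⟩ else Classical.arbitrary K, ?_⟩
    intro y hy y' hy' h
    dsimp only at h
    rw [dif_pos hy, dif_pos hy'] at h
    exact congrArg Subtype.val (g.injective h)
  choose e he using h1
  exact ⟨e, he⟩

omit [LinearOrder K] in
theorem exists_u (hκ : ℵ₀ ≤ κ) [Nonempty T] (cod : Cod κ K T)
    {V : (PX κ I K Y T → RO (PP κ I K T)) → RO (PP κ I K T)} (hV : NF κ _ V) (W : Ultrafilter Y)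
    (e : PX κ I K Y T → Y → K) : ∃ u : PX κ I K Y T → T, ∀ p : PP κ I K T, p ∈ V fun x =>
      gr (∀ Z, XY.w Z ∈ x.1 → Z ∈ W → imx e x Z ∈ cod.dU (u x)) := by
  classical
  have h1 : ∀ x : PX κ I K Y T, ∃ t : T, ((∃ v : Ultrafilter K, XY.w Set.univ ∈ x.1 ∧
      ∀ Z, XY.w Z ∈ x.1 → Z ∈ W → imx e x Z ∈ v) →
      ∀ Z, XY.w Z ∈ x.1 → Z ∈ W → imx e x Z ∈ cod.dU t) := by
    intro x
    by_cases h : ∃ v : Ultrafilter K, XY.w Set.univ ∈ x.1 ∧
      ∀ Z, XY.w Z ∈ x.1 → Z ∈ W → imx e x Z ∈ v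
    · obtain ⟨v, hv1, hv2⟩ := h
      refine ⟨cod.tU v, fun _ => ?_⟩
      rw [cod.hU v ⟨_, hv2 _ hv1 Filter.univ_mem, small_imx e x _⟩]
      exact hv2
    · exact ⟨Classical.arbitrary T, fun h' => absurd h' h⟩
  choose u hu using h1
  refine ⟨u, fun p => ?_⟩
  have h2 := close2 hV p (fun a b => match a, b with
    | XY.w Z, XY.w Z' => XY.w (Z ∩ Z')
    | a, _ => a)
  have h3 := close1 hV p (fun a => match a with
    | XY.w Z => if h : Z.Nonempty then XY.y h.some else XY.w Z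
    | a => a)
  refine hV.gmono (hV.gand hκ (hV.gand hκ h2 h3) (hV.fine (XY.w Set.univ) p)) ?_
  rintro x ⟨⟨g1, g2⟩, g3⟩
  refine hu x ?_
  have hint : ∀ Z Z' : Set Y, XY.w Z ∈ x.1 → XY.w Z' ∈ x.1 →
      (XY.w (Z ∩ Z') : XI κ I K Y T) ∈ x.1 := fun Z Z' h h' => g1 _ h _ h'
  have hne : ∀ Z : Set Y, XY.w Z ∈ x.1 → Z ∈ W → (imx e x Z).Nonempty := by
    intro Z hZ hZW
    have h4 := g2 _ hZ
    have h5 : Z.Nonempty := Ultrafilter.nonempty_of_mem hZW
    dsimp only at h4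
    rw [dif_pos h5] at h4
    exact ⟨e x h5.some, h5.some, ⟨h5.some_mem, h4⟩, rfl⟩
  let 𝓕 : Filter K :=
    { sets := {S | ∃ Z, XY.w Z ∈ x.1 ∧ Z ∈ W ∧ imx e x Z ⊆ S}
      univ_sets := ⟨Set.univ, g3, Filter.univ_mem, Set.subset_univ _⟩
      sets_of_superset := by
        rintro S S' ⟨Z, h4, h5, h6⟩ hSS
        exact ⟨Z, h4, h5, h6.trans hSS⟩
      inter_sets := by
        rintro S S' ⟨Z, h4, h5, h6⟩ ⟨Z', h4', h5', h6'⟩
        refine ⟨Z ∩ Z', hint _ _ h4 h4', Filter.inter_mem h5 h5', Set.subset_inter ?_ ?_⟩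
        · exact (imx_mono e x Set.inter_subset_left).trans h6
        · exact (imx_mono e x Set.inter_subset_right).trans h6' }
  have hNe : 𝓕.NeBot := by
    refine ⟨fun hbot => ?_⟩
    obtain ⟨Z, h4, h5, h6⟩ := Filter.empty_mem_iff_bot.2 hbot
    exact Set.not_nonempty_empty ((hne Z h4 h5).mono h6)
  refine ⟨Ultrafilter.of 𝓕, g3, fun Z hZ hZW => ?_⟩
  exact Ultrafilter.of_le 𝓕 ⟨Z, hZ, hZW, subset_rfl⟩

/-- the family which is `c` on the range of `a` -/
noncomputable def hat (a : K → I) (d : K → Set Y) (i : I) : Set Y :=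
  open Classical in if h : ∃ k, a k = i then d h.choose else Set.univ

omit [LinearOrder K] in
theorem hat_eq (a : K → I) (c : I → Set Y) {i : I} (h : ∃ k, a k = i) :
    hat a (fun k => c (a k)) i = c i := by
  unfold hat
  rw [dif_pos h]
  dsimp only
  rw [h.choose_spec]

theorem exists_Phi [WellFoundedLT K] [Nonempty I] (hS : IndestructiblySupercompact κ)
    (hκ : κ.IsRegular) (h2 : ∀ μ < κ, 2 ^ μ < κ) (hK : #K = κ)
    (hIio : ∀ k : K, #(Set.Iio k) < κ) (hTκ : #T ≤ κ) [Nonempty T] (cod : Cod κ K T)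
    (W : Ultrafilter Y) (θ : Cardinal.{0})
    (hW : ∀ (S : Type) (Z : S → Set Y), #S ≤ θ → (∀ s, Z s ∈ W) → (⋂ s, Z s) ∈ W)
    (hW2 : ∀ Z ∈ W, κ ≤ #Z)
    (h1θ : #(RO (PP κ I K T)) ≤ θ) (h2θ : #((K → I) × NB κ I K T) ≤ θ) :
    ∃ Φ : (K → Set Y) → Set Y, (∀ d, Φ d ∈ W) ∧ ∀ c : I → Set Y, (∀ i, c i ∈ W) →
      (∀ a : K → I, ∃ i, c i ⊆ Φ fun k => c (a k)) →
      ∃ U : (K → RO (PP κ I K T)) → RO (PP κ I K T), Meas κ U ∧
        (∀ (S : Type) (G : S → NB κ I K T), #S ≤ κ → ∃ i, ∀ i', c i' ⊆ c i → ∀ s, ∀ p,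
          p ∈ U (Mem cod (G s)) → p ∈ U (Sub cod i' (G s))) ∧
        (∀ i i', ¬ c i ⊆ c i' → ∀ p, p ∈ U (NS cod i i')) ∧
        ∀ i p, p ∈ U (MS cod i) := by
  classical
  have hκ0 := hκ.aleph0_le
  have hKne : Nonempty K := by
    rw [← mk_ne_zero_iff, hK]
    exact (aleph0_pos.trans_le hκ0).ne'
  obtain ⟨V, hV⟩ := exists_NF (P := PP κ I K T) (κ := κ) (X := XI κ I K Y T)
    (hS.2 _ (dirClosed_Fn hκ) _)
  obtain ⟨e, he⟩ := exists_e (I := I) (Y := Y) (T := T) hK hκ0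
  obtain ⟨u, hu⟩ := exists_u hκ0 cod hV W e
  have β0 : K := Classical.arbitrary K
  obtain ⟨Q, hQ⟩ := exists_Q hκ h2 e cod u β0
  -- constant values
  have hcon : ∀ f : Y → RO (PP κ I K T), ∃ Z ∈ W, ∃ φ, ∀ y ∈ Z, f y = φ := by
    intro f
    by_contra hcon
    push Not at hcon
    have h3 : ∀ φ, {y | f y ≠ φ} ∈ W := by
      intro φ
      by_contra h4
      rw [← Ultrafilter.compl_mem_iff_notMem] at h4
      obtain ⟨y, hy, hy'⟩ := hcon _ h4 φ
      exact hy hy'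
    have h4 := hW _ _ h1θ h3
    obtain ⟨y, hy⟩ := Ultrafilter.nonempty_of_mem h4
    exact Set.mem_iInter.1 hy (f y) rfl
  have hch : ∀ (c : I → Set Y) (F : NB κ I K T), ∃ Z ∈ W, ∃ φ, ∀ y ∈ Z,
      V (fun x => str (HC hκ0 e cod u Q c) (fun γ => F γ (e x y)) x) = φ :=
    fun c F => hcon fun y => V (fun x => str (HC hκ0 e cod u Q c) (fun γ => F γ (e x y)) x)
  choose ZF hZF φF hφF using hch
  refine ⟨fun d => ⋂ s : (K → I) × NB κ I K T, ZF (hat s.1 d) s.2,
    fun d => hW _ _ h2θ fun s => hZF _ _, fun c hc hcl => ?_⟩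
  have hT : ∀ p : PP κ I K T, p ∈ V fun x =>
      gr (∃ k0, Typ e cod u β0 c (HC hκ0 e cod u Q c) x k0) := by
    intro p
    have h3 := close1 hV p (fun a => match a with
      | XY.j (some i) => XY.w (c i)
      | a => a)
    refine hV.gmono (hV.gand hκ0 (good_most' hκ0 hK.ge hIio hV p) h3) ?_
    rintro x ⟨⟨k0, hk0⟩, g2⟩
    exact ⟨k0, hk0, fun g hg => HC_spec hκ hQ hk0 (fun i hi => g2 _ hi) hg⟩
  refine ⟨fun A => V (str (HC hκ0 e cod u Q c) A), meas_str hκ hV hT, ?_, ?_, ?_⟩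
  · intro S G hSκ
    -- the support
    have h3 : ∀ x : S × K × K, ∃ J : Set (Option I), #J ≤ κ ∧
      ∀ p p' : PP κ I K T, (∀ l : Option I × K, l.1 ∈ J → p'.f l = p.f l) → p ∈ G x.1 x.2.1 x.2.2 →
        p' ∈ G x.1 x.2.1 x.2.2 := fun x => exists_support hκ h2 hTκ _
    choose J hJ1 hJ2 using h3
    have hJ : #(⋃ x, J x) ≤ κ := by
      refine (Cardinal.mk_iUnion_le _).trans ?_
      calc #(S × K × K) * (⨆ x, #(J x)) ≤ κ * κ := by
            refine mul_le_mul' ?_ (ciSup_le' hJ1)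
            simp only [Cardinal.mk_prod, Cardinal.lift_id, hK]
            calc #S * (κ * κ) ≤ κ * (κ * κ) := mul_le_mul' hSκ le_rfl
              _ = κ := by rw [Cardinal.mul_eq_self hκ0, Cardinal.mul_eq_self hκ0]
        _ = κ := Cardinal.mul_eq_self hκ0
    have hJ' : #{i : I | some i ∈ ⋃ x, J x} ≤ #K := by
      rw [hK]
      refine le_trans ?_ hJ
      refine Cardinal.mk_le_of_injective (f := fun i : {i : I | some i ∈ ⋃ x, J x} =>
        (⟨some i.1, i.2⟩ : (⋃ x, J x : Set (Option I)))) ?_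
      intro i i' h
      have h4 : some i.1 = some i'.1 := congrArg Subtype.val h
      exact Subtype.ext (Option.some.inj h4)
    obtain ⟨a, ha⟩ : ∃ a : K → I, ∀ i, some i ∈ ⋃ x, J x → ∃ k, a k = i := by
      obtain ⟨g⟩ := hJ'
      refine ⟨fun k => if h : ∃ i, g i = k then h.choose.1 else Classical.arbitrary I,
        fun i hi => ⟨g ⟨i, hi⟩, ?_⟩⟩
      have h4 : ∃ i', g i' = g ⟨i, hi⟩ := ⟨_, rfl⟩
      dsimp only
      rw [dif_pos h4, g.injective h4.choose_spec]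
    obtain ⟨i, hi⟩ := hcl a
    refine ⟨i, fun i' hi' s p hp => ?_⟩
    have hst : ∀ x y, str (HC hκ0 e cod u Q c) (fun γ => G s γ (e x y)) x =
        str (HC hκ0 e cod u Q (hat a fun k => c (a k))) (fun γ => G s γ (e x y)) x := by
      intro x y
      have h5 : ∀ (k0 : K) (g : PP κ I K T) (l : Option I × K), l.1 ∈ ⋃ x, J x →
          (HC hκ0 e cod u Q c x k0 g).f l =
            (HC hκ0 e cod u Q (hat a fun k => c (a k)) x k0 g).f l := by
        rintro k0 g ⟨j, k⟩ hl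
        unfold HC
        by_cases h6 : ((j, k) : Option I × K) ∈ row x k0
        · rw [ov_pos h6, ov_pos h6]
          cases j with
          | none => rfl
          | some i' =>
            dsimp only [val]
            rw [hat_eq a c (ha i' hl)]
        · rw [ov_neg h6, ov_neg h6]
      apply RO.eq
      intro r
      rw [mem_str, mem_str]
      constructor
      · intro h6 q hq hd k0 hk0
        exact hJ2 (s, k0, e x y) _ _ (fun l hl => (h5 k0 _ l (Set.mem_iUnion.2 ⟨_, hl⟩)).symm)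
          (h6 q hq hd k0 hk0)
      · intro h6 q hq hd k0 hk0
        exact hJ2 (s, k0, e x y) _ _ (fun l hl => h5 k0 _ l (Set.mem_iUnion.2 ⟨_, hl⟩))
          (h6 q hq hd k0 hk0)
    refine key hκ hV hT (W := W) hu (F := G s)
      (Z := ZF (hat a fun k => c (a k)) (G s)) (hZF _ _) (φ := φF (hat a fun k => c (a k)) (G s))
      ?_ ?_ hp
    · intro y hy
      simp_rw [hst]
      exact hφF _ _ y hy
    · exact (hi'.trans hi).trans (Set.iInter_subset_of_subset (a, G s) subset_rfl)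
  · intro i i' hii p
    exact most_NS hκ hV he hT hii p
  · intro i p
    obtain ⟨j⟩ : Nonempty (K ↪ c i) := by
      rw [← Cardinal.le_def, hK]
      exact hW2 _ (hc i)
    exact most_MS hκ hV he hT (W := W) hu (hc i) (j.trans (Function.Embedding.subtype _))
      (fun k => (j k).2) p

end

end Pool.Agent.U66
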