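import Pool.Agent.R588.S.Final
import Pool.Agent.U66.Phi
import Pool.Agent.U66.Comb2
import Pool.Agent.U66.Fin4

/-!
# The main theorem
-/

set_option autoImplicit false

namespace Pool.Agent.U66

open Cardinal Set Pool.Agent.Helper669.Forcing Pool.Agent.Helper669.K Pool.Agent.R588.S

theorem pow_lt_of_lt {κ₁ : Cardinal.{0}} (h0 : ℵ₀ ≤ κ₁) (h2 : ∀ μ < κ₁, 2 ^ μ < κ₁)
    {a b : Cardinal.{0}} (ha : a < κ₁) (hb : b < κ₁) : a ^ b < κ₁ := by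
  have h1 : a ^ b ≤ (2 ^ a) ^ b := Cardinal.power_le_power_right (cantor a).le
  rw [← Cardinal.power_mul] at h1
  exact h1.trans_lt (h2 _ (Cardinal.mul_lt_of_lt h0 ha hb))

theorem mk_PP_lt {κ κ₁ : Cardinal.{0}} (h0 : ℵ₀ ≤ κ₁) (h2 : ∀ μ < κ₁, 2 ^ μ < κ₁)
    {I K T : Type} (hI : #I < κ₁) (hK : #K < κ₁) (hT : #T < κ₁) : #(PP κ I K T) < κ₁ := by
  have h1 : #(PP κ I K T) ≤ #(Option I × K → Option T) :=
    Cardinal.mk_le_of_injective (f := fun p => p.f) fun p q h => Fn.ext h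
  refine h1.trans_lt ?_
  have h3 : ∀ X : Type, #X < κ₁ → #(Option X) < κ₁ := by
    intro X hX
    rw [Cardinal.mk_option]
    exact Cardinal.add_lt_of_lt h0 hX (one_lt_aleph0.trans_le h0)
  rw [← Cardinal.power_def]
  refine pow_lt_of_lt h0 h2 (h3 _ hT) ?_
  rw [Cardinal.mk_prod, Cardinal.lift_id, Cardinal.lift_id]
  exact Cardinal.mul_lt_of_lt h0 (h3 _ hI) hK

theorem mk_RO_lt {κ₁ : Cardinal.{0}} (h2 : ∀ μ < κ₁, 2 ^ μ < κ₁)
    {P : Type} [Preorder P] (hP : #P < κ₁) : #(RO P) < κ₁ := by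
  have h1 : #(RO P) ≤ #(Set P) :=
    Cardinal.mk_le_of_injective (f := fun φ => φ.c) fun p q h => by
      cases p
      cases q
      cases h
      rfl
  refine h1.trans_lt ?_
  rw [Cardinal.mk_set]
  exact h2 _ hP

/-- **A uniform ultrafilter of singular character over a strong limit singular cardinal.** -/
theorem main {κ κ₁ : Cardinal.{0}} (hS : IndestructiblySupercompact κ) (h : κ < κ₁)
    (h₁ : Supercompact κ₁) : ∃ χ : Cardinal.{0}, κ < χ ∧ ¬ χ.IsRegular ∧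
      ∃ (Q : Type) (_ : Preorder Q), Nonempty Q ∧ ∀ q : Q, q ∈ StrongLimitN Q κ ∧
        q ∈ CofOmegaN Q κ ∧ q ∈ CardinalsAbove Q κ ∧ q ∈ SingularN Q χ ∧
        q ∈ PowerGt Q κ.ord.ToType χ ∧ q ∈ HasCharacter Q κ.ord.ToType χ := by
  classical
  obtain ⟨hreg, h2⟩ := regular_of_supercompact hS
  have hκ1 : ℵ₀ < κ := hS.1
  have hκ0 : ℵ₀ ≤ κ := hκ1.le
  have hK : #κ.ord.ToType = κ := Cardinal.mk_ord_toType κ
  have hne : Nonempty κ.ord.ToType := by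
    rw [← mk_ne_zero_iff, hK]
    exact (aleph0_pos.trans hκ1).ne'
  have hIio : ∀ b : κ.ord.ToType, #(Set.Iio b) < κ := by
    intro b
    have := Cardinal.mk_Iio_lt b (by simp)
    rwa [hK] at this
  obtain ⟨T, hT, hTne, ⟨cod⟩⟩ := exists_cod hreg h2 κ.ord.ToType hK
  have h₁0 : ℵ₀ ≤ κ₁ := hκ0.trans h.le
  have h₁2 : ∀ μ < κ₁, 2 ^ μ < κ₁ := fun μ hμ => h₁.1.isStrongLimit.two_power_lt hμ
  obtain ⟨Y, W, hW1, hW2, hcomb⟩ := comb hκ0 h h₁ hK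
  have hK1 : #κ.ord.ToType < κ₁ := by rw [hK]; exact h
  have hΦ : ∀ m : {S : Set κ₁.ord.ToType // #S < κ₁},
      ∃ Φ : (κ.ord.ToType → Set Y) → Set Y, (∀ d, Φ d ∈ W) ∧ (Nonempty m.1 →
        ∀ c : m.1 → Set Y, (∀ i, c i ∈ W) →
          (∀ a : κ.ord.ToType → m.1, ∃ i, c i ⊆ Φ fun k => c (a k)) →
          ∃ U : (κ.ord.ToType → RO (PP κ m.1 κ.ord.ToType T)) → RO (PP κ m.1 κ.ord.ToType T),
            Hyp κ m.1 κ.ord.ToType T U cod c) := by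
    intro m
    by_cases hm : Nonempty m.1
    · have hP : #(PP κ m.1 κ.ord.ToType T) < κ₁ :=
        mk_PP_lt h₁0 h₁2 m.2 hK1 (hT.trans_lt h)
      have hRO : #(RO (PP κ m.1 κ.ord.ToType T)) < κ₁ := mk_RO_lt h₁2 hP
      have hNB : #((κ.ord.ToType → m.1) × NB κ m.1 κ.ord.ToType T) < κ₁ := by
        rw [Cardinal.mk_prod, Cardinal.lift_id, Cardinal.lift_id]
        refine Cardinal.mul_lt_of_lt h₁0 ?_ ?_
        · rw [← Cardinal.power_def]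
          exact pow_lt_of_lt h₁0 h₁2 m.2 hK1
        · change #(κ.ord.ToType → κ.ord.ToType → RO (PP κ m.1 κ.ord.ToType T)) < κ₁
          rw [← Cardinal.power_def, ← Cardinal.power_def]
          exact pow_lt_of_lt h₁0 h₁2 (pow_lt_of_lt h₁0 h₁2 hRO hK1) hK1
      obtain ⟨Φ, hΦ1, hΦ2⟩ := exists_Phi (I := m.1) hS hreg h2 hK hIio hT cod W
        (max #(RO (PP κ m.1 κ.ord.ToType T)) #((κ.ord.ToType → m.1) × NB κ m.1 κ.ord.ToType T))
        (fun S Z hSθ hZ => hW1 S Z (hSθ.trans_lt (max_lt hRO hNB)) hZ) hW2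
        (le_max_left _ _) (le_max_right _ _)
      refine ⟨Φ, hΦ1, fun _ c hc hcl => ?_⟩
      obtain ⟨U, hU1, hU2, hU3, hU4⟩ := hΦ2 c hc hcl
      exact ⟨U, hU1, hU2, hU3, hU4⟩
    · exact ⟨fun _ => Set.univ, fun _ => Filter.univ_mem, fun hm' => absurd hm' hm⟩
  choose Φ hΦ1 hΦ2 using hΦ
  obtain ⟨m, χ, c, hχ, hχr, hχm, hc1, hc2, hc3, hc4⟩ := hcomb Φ hΦ1
  have hm : Nonempty m.1 := by
    rw [← mk_ne_zero_iff]
    exact (pos_of_gt hχm).ne'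
  obtain ⟨U, hU⟩ := hΦ2 m hm c hc1 hc2
  have hdist : ∀ (J : Type) (D : J → Set (PP κ m.1 κ.ord.ToType T)), #J < κ →
      (∀ j, Down (D j)) → (∀ j q, ∃ q' ≤ q, q' ∈ D j) → ∀ q, ∃ q' ≤ q, ∀ j, q' ∈ D j :=
    fun J D hJ hD hD' q => exists_forall_mem hκ0 (dirClosed_Fn hreg) hJ D hD hD' q
  have hcc : ∀ (ι : Type) (f : ι → PQ U), κ < #ι → ∃ i j, i ≠ j ∧ ∃ r, r ≤ f i ∧ r ≤ f j :=
    fun ι f hι => cc_PQ hκ0 hK hU.meas (fun ι f hι => cc_Fn hreg h2 hT ι f hι) ι f hι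
  have htt : cod.tS ∅ ≠ cod.tS {Classical.arbitrary κ.ord.ToType} := by
    intro heq
    have h3 := congrArg cod.dS heq
    rw [cod.hS _ (by simpa using aleph0_pos.trans hκ1), cod.hS _ (by
      rw [Cardinal.mk_singleton]
      exact one_lt_aleph0.trans hκ1)] at h3
    exact (Set.singleton_nonempty _).ne_empty h3.symm
  refine ⟨χ, hχ, hχr, PQ U, inferInstance, ⟨?_⟩, fun q => ⟨?_, ?_, ?_, ?_, ?_, ?_⟩⟩
  · exact ⟨⟨fun _ => none, by simpa using aleph0_pos.trans hκ1⟩, ∅, fun _ => gr True,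
      hU.meas.of_forall fun _ _ _ => trivial⟩
  · exact strongLimit_PQ hreg h2 hU.meas hdist q
  · exact cofOmega_PQ hκ0 hU.meas q
  · exact cardinalsAbove_of_cc hκ0 hcc q
  · exact singularN_of_not_regular (hκ0.trans hχ.le) hχr q
  · exact powerGt_PQ hκ0 hK hT htt hcc hχ hχm q
  · exact character hreg hκ1 hK hdist hcc (h2 _ hκ1).le cod c hU hχ hc3 hc4 q

end Pool.Agent.U66
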