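import Pool.Agent.R588.S.PN
import Pool.Agent.U66.Idx

/-!
# Master conditions and the measure given by them
-/

set_option autoImplicit false

namespace Pool.Agent.U66

open Cardinal Set Pool.Agent.Helper669.Forcing Pool.Agent.Helper669.K Pool.Agent.R588.S

/-- the conditions -/
abbrev PP (κ : Cardinal.{0}) (I K T : Type) : Type := Fn κ (Option I × K) T

/-- names for functions from `K` to the subsets of `K` -/
abbrev NB (κ : Cardinal.{0}) (I K T : Type) : Type := K → K → RO (PP κ I K T)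

/-- the index set -/
abbrev XI (κ : Cardinal.{0}) (I K Y T : Type) : Type := XY (Option I) K Y (NB κ I K T)

/-- small subsets of the index set -/
abbrev PX (κ : Cardinal.{0}) (I K Y T : Type) : Type := PK κ (XI κ I K Y T)

variable {κ : Cardinal.{0}} {I K Y T : Type}

/-- the elements of `Y` in `x` -/
def yS (x : PX κ I K Y T) : Set Y := {y | (XY.y y : XI κ I K Y T) ∈ x.1}

theorem small_yS (x : PX κ I K Y T) : #(yS x) < κ :=
  small_pre x.2 (fun a b h => by injection h)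

/-- the coordinates in `x` -/
def dm (x : PX κ I K Y T) : Set (Option I × K) :=
  {l | (XY.j l.1 : XI κ I K Y T) ∈ x.1 ∧ (XY.k l.2 : XI κ I K Y T) ∈ x.1}

theorem small_dm (hκ : ℵ₀ ≤ κ) (x : PX κ I K Y T) : #(dm x) < κ := by
  have h1 : #{j : Option I | (XY.j j : XI κ I K Y T) ∈ x.1} < κ :=
    small_pre x.2 (fun a b h => by injection h)
  have h2 : #{k : K | (XY.k k : XI κ I K Y T) ∈ x.1} < κ :=
    small_pre x.2 (fun a b h => by injection h)
  have h4 : #({j : Option I | (XY.j j : XI κ I K Y T) ∈ x.1} ×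
      {k : K | (XY.k k : XI κ I K Y T) ∈ x.1}) < κ := by
    simp only [Cardinal.mk_prod, Cardinal.lift_id]
    exact Cardinal.mul_lt_of_lt hκ h1 h2
  refine lt_of_le_of_lt ?_ h4
  refine Cardinal.mk_le_of_injective (f := fun l : dm x => ((⟨l.1.1, l.2.1⟩, ⟨l.1.2, l.2.2⟩) :
      {j : Option I | (XY.j j : XI κ I K Y T) ∈ x.1} ×
      {k : K | (XY.k k : XI κ I K Y T) ∈ x.1})) ?_
  rintro ⟨⟨a, b⟩, h⟩ ⟨⟨a', b'⟩, h'⟩ heq
  simp only [Prod.mk.injEq, Subtype.mk.injEq] at heq
  obtain ⟨h5, h6⟩ := heq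
  subst h5
  subst h6
  rfl

/-- the new coordinates -/
def row (x : PX κ I K Y T) (k0 : K) : Set (Option I × K) :=
  {l | (XY.j l.1 : XI κ I K Y T) ∈ x.1 ∧ l.2 = k0}

theorem small_row (x : PX κ I K Y T) (k0 : K) : #(row x k0) < κ := by
  have h1 : #{j : Option I | (XY.j j : XI κ I K Y T) ∈ x.1} < κ :=
    small_pre x.2 (fun a b h => by injection h)
  refine lt_of_le_of_lt ?_ h1
  refine Cardinal.mk_le_of_injective (f := fun l : row x k0 => (⟨l.1.1, l.2.1⟩ :
      {j : Option I | (XY.j j : XI κ I K Y T) ∈ x.1})) ?_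
  rintro ⟨⟨a, b⟩, h, hb⟩ ⟨⟨a', b'⟩, h', hb'⟩ heq
  have h5 : a = a' := congrArg Subtype.val heq
  have hb1 : b = k0 := hb
  have hb2 : b' = k0 := hb'
  subst h5
  subst hb1
  subst hb2
  rfl

/-- the copy of the part of `Z` in `x` -/
def imx (e : PX κ I K Y T → Y → K) (x : PX κ I K Y T) (Z : Set Y) : Set K := e x '' (Z ∩ yS x)

theorem small_imx (e : PX κ I K Y T → Y → K) (x : PX κ I K Y T) (Z : Set Y) : #(imx e x Z) < κ :=
  (Cardinal.mk_image_le.trans (Cardinal.mk_le_mk_of_subset Set.inter_subset_right)).trans_lt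
    (small_yS x)

theorem imx_mono (e : PX κ I K Y T → Y → K) (x : PX κ I K Y T) {Z Z' : Set Y} (h : Z ⊆ Z') :
    imx e x Z ⊆ imx e x Z' :=
  Set.image_mono (Set.inter_subset_inter_left _ h)

/-- the values at the new coordinates -/
def val (e : PX κ I K Y T → Y → K) (cod : Cod κ K T) (u : PX κ I K Y T → T) (c : I → Set Y)
    (x : PX κ I K Y T) (l : Option I × K) : T :=
  match l.1 with
  | none => u x
  | some i => cod.tS (imx e x (c i))

theorem pow_small (h2 : ∀ μ < κ, 2 ^ μ < κ) (hκ : ℵ₀ ≤ κ) {A B : Type} (hA : #A < κ)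
    (hB : #B < κ) : #(A → B) < κ := by
  rw [Cardinal.mk_arrow, Cardinal.lift_id, Cardinal.lift_id]
  calc #B ^ #A ≤ (2 ^ #B) ^ #A := Cardinal.power_le_power_right (Cardinal.cantor _).le
    _ = 2 ^ (#B * #A) := by rw [Cardinal.power_mul]
    _ < κ := h2 _ (Cardinal.mul_lt_of_lt hκ hB hA)

section

variable [LinearOrder K]

omit [LinearOrder K] in
theorem exists_Q (hκ : κ.IsRegular) (h2 : ∀ μ < κ, 2 ^ μ < κ) [Nonempty T]
    (e : PX κ I K Y T → Y → K) (cod : Cod κ K T) (u : PX κ I K Y T → T) (β0 : K) :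
    ∃ Q : PX κ I K Y T → K → PP κ I K T → PP κ I K T, ∀ x k0 g, Q x k0 g ≤ g ∧
      ∀ d : I → Set Y, (∀ i, XY.j (some i) ∈ x.1 → XY.w (d i) ∈ x.1) →
      ∀ F, XY.b F ∈ x.1 → ∀ β ∈ insert β0 (imx e x Set.univ),
        ov hκ.aleph0_le (row x k0) (small_row x k0) (val e cod u d x) (Q x k0 g) ∈ F k0 β ∨
        ov hκ.aleph0_le (row x k0) (small_row x k0) (val e cod u d x) (Q x k0 g) ∈
          neg (F k0 β) := by
  classical
  have hκ0 := hκ.aleph0_le
  have h1 : ∀ (x : PX κ I K Y T) (k0 : K) (g : PP κ I K T), ∃ q, q ≤ g ∧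
      ∀ d : I → Set Y, (∀ i, XY.j (some i) ∈ x.1 → XY.w (d i) ∈ x.1) →
      ∀ F, XY.b F ∈ x.1 → ∀ β ∈ insert β0 (imx e x Set.univ),
        ov hκ0 (row x k0) (small_row x k0) (val e cod u d x) q ∈ F k0 β ∨
        ov hκ0 (row x k0) (small_row x k0) (val e cod u d x) q ∈ neg (F k0 β) := by
    intro x k0 g
    let NI : Type := {i : I // (XY.j (some i) : XI κ I K Y T) ∈ x.1}
    let NZ : Type := {Z : Set Y // (XY.w Z : XI κ I K Y T) ∈ x.1}
    let NF' : Type := {F : NB κ I K T // (XY.b F : XI κ I K Y T) ∈ x.1}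
    have hNI : #NI < κ := small_pre x.2 (f := fun i : I => (XY.j (some i) : XI κ I K Y T))
      (fun a b h => by
        injection h with h'
        injection h')
    have hNZ : #NZ < κ := small_pre x.2 (f := fun Z : Set Y => (XY.w Z : XI κ I K Y T))
      (fun a b h => by injection h)
    have hNF : #NF' < κ := small_pre x.2 (f := fun F : NB κ I K T => (XY.b F : XI κ I K Y T))
      (fun a b h => by injection h)
    have hE : #(insert β0 (imx e x Set.univ) : Set K) < κ := by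
      refine lt_of_le_of_lt Cardinal.mk_insert_le ?_
      exact Cardinal.add_lt_of_lt hκ0 (small_imx e x _) (lt_of_lt_of_le Cardinal.one_lt_aleph0 hκ0)
    obtain ⟨q, hq, h⟩ := exists_decide hκ (row x k0) (small_row x k0)
      (N := NI → NZ) (M := NF' × (insert β0 (imx e x Set.univ) : Set K))
      (pow_small h2 hκ0 hNI hNZ)
      (by
        simp only [Cardinal.mk_prod, Cardinal.lift_id]
        exact Cardinal.mul_lt_of_lt hκ0 hNF hE)
      (fun n l => match l.1 with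
        | none => u x
        | some i => if h : (XY.j (some i) : XI κ I K Y T) ∈ x.1 then
            cod.tS (imx e x (n ⟨i, h⟩).1) else Classical.arbitrary T)
      (fun m => m.1.1 k0 m.2.1) g
    refine ⟨q, hq, fun d hd F hF β hβ => ?_⟩
    have h3 := h (fun i => ⟨d i.1, hd i.1 i.2⟩) (⟨F, hF⟩, ⟨β, hβ⟩)
    have h4 : ov hκ0 (row x k0) (small_row x k0) (fun l => match l.1 with
        | none => u x
        | some i => if h : (XY.j (some i) : XI κ I K Y T) ∈ x.1 then
            cod.tS (imx e x ((fun i : NI => (⟨d i.1, hd i.1 i.2⟩ : NZ)) ⟨i, h⟩).1)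
            else Classical.arbitrary T) q =
        ov hκ0 (row x k0) (small_row x k0) (val e cod u d x) q := by
      refine ov_congr ?_ fun _ _ => rfl
      rintro ⟨j, k⟩ ⟨hj, -⟩
      cases j with
      | none => rfl
      | some i =>
        dsimp only [val]
        rw [dif_pos hj]
    rw [← h4]
    exact h3
  choose Q hQ using h1
  exact ⟨Q, hQ⟩

/-- the master condition -/
noncomputable def HC (hκ : ℵ₀ ≤ κ) (e : PX κ I K Y T → Y → K) (cod : Cod κ K T)
    (u : PX κ I K Y T → T) (Q : PX κ I K Y T → K → PP κ I K T → PP κ I K T) (c : I → Set Y)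
    (x : PX κ I K Y T) (k0 : K) (g : PP κ I K T) : PP κ I K T :=
  ov hκ (row x k0) (small_row x k0) (val e cod u c x) (Q x k0 g)

/-- the properties of the master condition for `x` and `g` -/
structure HS (e : PX κ I K Y T → Y → K) (cod : Cod κ K T) (u : PX κ I K Y T → T) (β0 : K)
    (c : I → Set Y) (x : PX κ I K Y T) (k0 : K) (g h : PP κ I K T) : Prop where
  le : h ≤ g
  dec : ∀ F, XY.b F ∈ x.1 → ∀ β ∈ insert β0 (imx e x Set.univ), h ∈ F k0 β ∨ h ∈ neg (F k0 β)
  nv : XY.j none ∈ x.1 → h.f (none, k0) = some (u x)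
  sv : ∀ i, XY.j (some i) ∈ x.1 → h.f (some i, k0) = some (cod.tS (imx e x (c i)))

theorem HC_spec (hκ : κ.IsRegular) {e : PX κ I K Y T → Y → K} {cod : Cod κ K T}
    {u : PX κ I K Y T → T} {β0 : K} {Q : PX κ I K Y T → K → PP κ I K T → PP κ I K T}
    (hQ : ∀ x k0 g, Q x k0 g ≤ g ∧
      ∀ d : I → Set Y, (∀ i, XY.j (some i) ∈ x.1 → XY.w (d i) ∈ x.1) →
      ∀ F, XY.b F ∈ x.1 → ∀ β ∈ insert β0 (imx e x Set.univ),
        ov hκ.aleph0_le (row x k0) (small_row x k0) (val e cod u d x) (Q x k0 g) ∈ F k0 β ∨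
        ov hκ.aleph0_le (row x k0) (small_row x k0) (val e cod u d x) (Q x k0 g) ∈
          neg (F k0 β)) {c : I → Set Y} {x : PX κ I K Y T} {k0 : K} {g : PP κ I K T}
    (hx : GoodP x k0) (hc : ∀ i, XY.j (some i) ∈ x.1 → XY.w (c i) ∈ x.1) (hg : g.supp ⊆ dm x) :
    HS e cod u β0 c x k0 g (HC hκ.aleph0_le e cod u Q c x k0 g) where
  le := by
    intro l b hb
    have hl : l ∈ dm x := hg (Fn.mem_supp.2 ⟨b, hb⟩)
    have hl' : l ∉ row x k0 := by
      rintro ⟨-, h⟩
      have h1 := hl.2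
      rw [h] at h1
      exact lt_irrefl _ ((hx.1 k0).1 h1)
    change (ov hκ.aleph0_le (row x k0) (small_row x k0) (val e cod u c x) (Q x k0 g)).f l = some b
    rw [ov_neg hl']
    exact (hQ x k0 g).1 l b hb
  dec := (hQ x k0 g).2 c hc
  nv := fun h => ov_pos ⟨h, rfl⟩
  sv := fun _ h => ov_pos ⟨h, rfl⟩

/-- the truth value, for the ultrafilter, of the master condition forcing `κ_x ∈ A` -/
def str (H : PX κ I K Y T → K → PP κ I K T → PP κ I K T) (A : K → RO (PP κ I K T))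
    (x : PX κ I K Y T) : RO (PP κ I K T) where
  c := {p | ∀ q ≤ p, dm x ⊆ q.supp → ∀ k0, GoodP x k0 → H x k0 (rs (dm x) q) ∈ A k0}
  down := fun hp hq r hr => hp r (hr.trans hq)
  reg := fun {p} h q hq hd k0 hk0 => by
    obtain ⟨r, hr, h'⟩ := h q hq
    have h1 := h' r le_rfl (hd.trans (Fn.supp_mono hr)) k0 hk0
    rwa [rs_eq hr hd] at h1

theorem mem_str {H : PX κ I K Y T → K → PP κ I K T → PP κ I K T} {A : K → RO (PP κ I K T)}
    {x : PX κ I K Y T} {p : PP κ I K T} :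
    p ∈ str H A x ↔ ∀ q ≤ p, dm x ⊆ q.supp → ∀ k0, GoodP x k0 → H x k0 (rs (dm x) q) ∈ A k0 :=
  Iff.rfl

/-- `x` is typical for `H` -/
def Typ (e : PX κ I K Y T → Y → K) (cod : Cod κ K T) (u : PX κ I K Y T → T) (β0 : K)
    (c : I → Set Y) (H : PX κ I K Y T → K → PP κ I K T → PP κ I K T) (x : PX κ I K Y T)
    (k0 : K) : Prop :=
  GoodP x k0 ∧ ∀ g : PP κ I K T, g.supp ⊆ dm x → HS e cod u β0 c x k0 g (H x k0 g)

variable {V : (PX κ I K Y T → RO (PP κ I K T)) → RO (PP κ I K T)}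

omit [LinearOrder K] in
theorem supp_most (hκ : ℵ₀ ≤ κ) (hV : NF κ _ V) (p p' : PP κ I K T) :
    p' ∈ V fun x => gr (p.supp ⊆ dm x) := by
  refine hV.gmono (hV.ginter (J := p.supp) p.small (A := fun l x => l.1 ∈ dm x) ?_)
    fun x hx l hl => hx ⟨l, hl⟩
  intro l
  refine hV.gmono (hV.gand hκ (hV.fine (XY.j l.1.1) p')
    (hV.fine (XY.k l.1.2) p')) fun x hx => hx

/-- a typical point together with a condition deciding the coordinates in it -/
theorem exists_typ (hκ : ℵ₀ ≤ κ) (hV : NF κ _ V) [Nonempty T] {e : PX κ I K Y T → Y → K}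
    {cod : Cod κ K T} {u : PX κ I K Y T → T} {β0 : K} {c : I → Set Y}
    {H : PX κ I K Y T → K → PP κ I K T → PP κ I K T}
    (hT : ∀ p : PP κ I K T, p ∈ V fun x => gr (∃ k0, Typ e cod u β0 c H x k0)) {p : PP κ I K T}
    {A : PX κ I K Y T → RO (PP κ I K T)} (hA : p ∈ V A) :
    ∃ x k0 q, q ≤ p ∧ q ∈ A x ∧ Typ e cod u β0 c H x k0 ∧ dm x ⊆ q.supp ∧
      p.supp ⊆ dm x ∧ H x k0 (rs (dm x) q) ≤ p ∧
      HS e cod u β0 c x k0 (rs (dm x) q) (H x k0 (rs (dm x) q)) := by
  obtain ⟨q, hq, x, ⟨h1, k0, h2⟩, h3⟩ := hV.proper (hV.and hκ (hV.and hκ hA (hT p))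
    (supp_most hκ hV p p))
  have h3' : p.supp ⊆ dm x := h3
  obtain ⟨r, hr, hd⟩ := exists_dom hκ q (dm x) (small_dm hκ x)
  have h4 := h2.2 _ (rs_supp (Z := dm x) (p := r))
  exact ⟨x, k0, r, hr.trans hq, RO.dn h1 hr, h2, hd, h3',
    h4.le.trans (rs_le (hr.trans hq) h3'), h4⟩

theorem meas_str (hκ : κ.IsRegular) (hV : NF κ _ V) [Nonempty T] {e : PX κ I K Y T → Y → K}
    {cod : Cod κ K T} {u : PX κ I K Y T → T} {β0 : K} {c : I → Set Y}
    {H : PX κ I K Y T → K → PP κ I K T → PP κ I K T}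
    (hT : ∀ p : PP κ I K T, p ∈ V fun x => gr (∃ k0, Typ e cod u β0 c H x k0)) :
    Meas κ (fun A : K → RO (PP κ I K T) => V (str H A)) where
  up := by
    intro p A B hA hAB
    have hκ0 := hκ.aleph0_le
    refine hV.up p _ _ (hV.and hκ0 (hV.and hκ0 hA (hT p)) (supp_most hκ0 hV p p)) ?_
    rintro q hq x ⟨⟨hx1, k1, hk1⟩, hx2⟩ r hr hd k0 hk0
    have h1 := hx1 r hr hd k0 hk0
    have h3 : k1 = k0 := hk1.1.uniq hk0
    subst h3
    have h2 : H x k1 (rs (dm x) r) ≤ p := (hk1.2 _ rs_supp).le.trans (rs_le (hr.trans hq) hx2)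
    exact hAB _ h2 k1 h1
  ult := by
    intro p A
    have hκ0 := hκ.aleph0_le
    rw [← hV.ult]
    constructor
    · intro h
      refine hV.up p _ _ (hV.and hκ0 h (hT p)) ?_
      rintro q hq x ⟨hx1, k0, hk0⟩ r hr hr2
      obtain ⟨r', hr', hd⟩ := exists_dom hκ0 r (dm x) (small_dm hκ0 x)
      exact not_both (hr2 r' hr' hd k0 hk0.1) (hx1 r' (hr'.trans hr) hd k0 hk0.1)
    · intro h
      refine hV.up p _ _ (hV.and hκ0 (hV.and hκ0 h (hT p)) (hV.fine (XY.b fun γ _ => A γ) p)) ?_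
      rintro q hq x ⟨⟨hx1, k1, hk1⟩, hx2⟩ r hr hd k0 hk0
      have h3 : k1 = k0 := hk1.1.uniq hk0
      subst h3
      rcases (hk1.2 _ rs_supp).dec _ hx2 β0 (Set.mem_insert _ _) with h1 | h1
      · exfalso
        refine hx1 r hr fun r' hr' hd' k2 hk2 => ?_
        rw [rs_eq hr' hd]
        have h2 : k1 = k2 := hk1.1.uniq hk2
        rw [← h2]
        exact h1
      · exact h1
  inter := by
    intro J A p hJ hA
    refine hV.up p _ _ (hV.inter J (fun j => str H (A j)) p hJ hA) ?_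
    intro q _ x hx r hr hd k0 hk0 j
    exact hx j r hr hd k0 hk0
  diag := by
    intro A p hA
    have h1 := hV.normal (fun a x => match a with
      | XY.t t => str H (A t) x
      | _ => gr True) p (by
        intro a
        cases a with
        | t t => exact hA t
        | k k => exact hV.gmono (hV.fine (XY.t ∅) p) fun _ _ => trivial
        | j j => exact hV.gmono (hV.fine (XY.t ∅) p) fun _ _ => trivial
        | w w => exact hV.gmono (hV.fine (XY.t ∅) p) fun _ _ => trivial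
        | y y => exact hV.gmono (hV.fine (XY.t ∅) p) fun _ _ => trivial
        | b b => exact hV.gmono (hV.fine (XY.t ∅) p) fun _ _ => trivial)
    refine hV.up p _ _ h1 ?_
    intro q _ x hx r hr hd k0 hk0 t
    exact hx ⟨XY.t t.1, (hk0.2 t.1).2 t.2⟩ r hr hd k0 hk0
  tail := by
    intro k p
    refine hV.up p _ _ (hV.fine (XY.k k) p) ?_
    intro q _ x hx r _ _ k0 hk0
    exact (hk0.1 k).1 hx

end

end Pool.Agent.U66
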