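import Pool.Agent.R588.S.Defs

/-!
# Supercompact cardinals
-/

set_option autoImplicit false

namespace Pool.Agent.U66

open Cardinal Set Pool.Agent.R588.S

/-- `κ` is a supercompact cardinal: it is inaccessible, and for every `X` there is an ultrafilter
on the set `PK κ X` of all subsets of `X` of size less than `κ` which contains each set
`{x | a ∈ x}`, is closed under intersections of fewer than `κ` sets and is closed under diagonal
intersections `{x | x ∈ A a for all a ∈ x}`. -/
def Supercompact (κ : Cardinal.{0}) : Prop :=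
  κ.IsInaccessible ∧ ∀ X : Type, ∃ U : Ultrafilter (PK κ X),
    (∀ a, {x : PK κ X | a ∈ x.1} ∈ U) ∧
    (∀ (J : Type) (A : J → Set (PK κ X)), #J < κ → (∀ j, A j ∈ U) → (⋂ j, A j) ∈ U) ∧
    (∀ A : X → Set (PK κ X), (∀ a, A a ∈ U) → {x : PK κ X | ∀ a ∈ x.1, x ∈ A a} ∈ U)

end Pool.Agent.U66
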